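import Pool.Agent.H90.DE.Ev

/-!
# Existence of a root (MP_2f0703_co, helper90; proof helper13)

Let `P = ev X (k + 1) f` in `F[X]` (`R = F[X]`): a polynomial of degree `k` (bit `k` of `f` is `1`), its value at `a` is `ev a (k + 1) f`. In the quotient
`AdjoinRoot P` (a commutative ring with `2 = 0`) let `t = AdjoinRoot.root P`: `ev t (k + 1) f = 0`, so by `ev_powm` with `a = 2` (`ev t k 2 = t` as `2 ≤ k`) and `hroot`
`t ^ (2 ^ k) = t`. Hence `P ∣ X ^ (2 ^ k) - X = ∏ (X - a)`, and an irreducible factor of `P` divides some `X - a`.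
-/

set_option autoImplicit false

namespace Pool.Agent.H90.DE

open Polynomial

private theorem ev_map {R S : Type} [CommRing R] [CommRing S] (φ : R →+* S) (t : R) (n : ℕ) :
    ∀ b : ℕ, φ (ev t n b) = ev (φ t) n b := by
  induction n with
  | zero =>
    intro b
    exact map_zero φ
  | succ n ih =>
    intro b
    show φ ((if b % 2 = 1 then 1 else 0) + t * ev t n (b / 2)) =
      (if b % 2 = 1 then 1 else 0) + φ t * ev (φ t) n (b / 2)
    rw [map_add, map_mul, ih]
    congr 1
    split_ifs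
    · exact map_one φ
    · exact map_zero φ

private theorem ev_zero' {R : Type} [CommRing R] (t : R) (n : ℕ) : ev t n 0 = 0 := by
  induction n with
  | zero => rfl
  | succ n ih =>
    show (if 0 % 2 = 1 then (1 : R) else 0) + t * ev t n (0 / 2) = 0
    rw [Nat.zero_div, ih]
    simp

private theorem ev_two {R : Type} [CommRing R] (t : R) (k : ℕ) (hk : 2 ≤ k) : ev t k 2 = t := by
  obtain ⟨j, rfl⟩ : ∃ j, k = j + 2 := ⟨k - 2, by omega⟩
  show (if 2 % 2 = 1 then (1 : R) else 0) + t * ((if 2 / 2 % 2 = 1 then (1 : R) else 0) + t * ev t j (2 / 2 / 2)) = t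
  have h : 2 / 2 / 2 = 0 := by norm_num
  rw [h, ev_zero']
  simp

private theorem deg_ev (F : Type) [Field F] (n : ℕ) : ∀ b : ℕ, 2 ^ n ≤ b → b < 2 ^ (n + 1) →
    (ev (X : F[X]) (n + 1) b).natDegree = n ∧ ev (X : F[X]) (n + 1) b ≠ 0 := by
  induction n with
  | zero =>
    intro b h1 h2
    have hb : b = 1 := by
      simp only [pow_zero, zero_add, pow_one] at h1 h2
      omega
    rw [hb]
    have h3 : ev (X : F[X]) (0 + 1) 1 = 1 := by
      show (if 1 % 2 = 1 then (1 : F[X]) else 0) + X * 0 = 1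
      simp
    rw [h3]
    exact ⟨natDegree_one, one_ne_zero⟩
  | succ n ih =>
    intro b h1 h2
    obtain ⟨i1, i2⟩ := ih (b / 2) (by rw [pow_succ] at h1; omega) (by rw [pow_succ] at h2; omega)
    obtain ⟨c, hc⟩ : ∃ c : F, ev (X : F[X]) (n + 1 + 1) b = C c + ev (X : F[X]) (n + 1) (b / 2) * X := by
      refine ⟨if b % 2 = 1 then 1 else 0, ?_⟩
      show (if b % 2 = 1 then (1 : F[X]) else 0) + X * ev (X : F[X]) (n + 1) (b / 2) = _
      rw [mul_comm]
      congr 1
      split_ifs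
      · exact C_1.symm
      · exact C_0.symm
    have hd : (ev (X : F[X]) (n + 1 + 1) b).natDegree = n + 1 := by
      rw [hc, natDegree_C_add, natDegree_mul_X i2, i1]
    refine ⟨hd, ?_⟩
    intro h0
    rw [h0, natDegree_zero] at hd
    omega

theorem exists_root (F : Type) [Field F] [Fintype F] [CharP F 2] (k f : ℕ) (hk : 2 ≤ k) (hcard : Fintype.card F = 2 ^ k)
    (hf1 : 2 ^ k ≤ f) (hf2 : f < 2 ^ (k + 1)) (hroot : powm k f (k + 1) 2 (2 ^ k) = 2) : ∃ t : F, ev t (k + 1) f = 0 := by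
  obtain ⟨P, hP⟩ : ∃ P : F[X], P = ev (X : F[X]) (k + 1) f := ⟨_, rfl⟩
  obtain ⟨hdeg, hne⟩ := deg_ev F k f hf1 hf2
  rw [← hP] at hdeg hne
  have h2F : (2 : F) = 0 := by
    have := CharP.cast_eq_zero F 2
    exact_mod_cast this
  have two : (2 : AdjoinRoot P) = 0 := by
    have h1 : (AdjoinRoot.of P) 2 = (2 : AdjoinRoot P) := map_ofNat (AdjoinRoot.of P) 2
    rw [← h1, h2F, map_zero]
  have hev : ev (AdjoinRoot.root P) (k + 1) f = 0 := by
    have h1 := ev_map (AdjoinRoot.mk P) (X : F[X]) (k + 1) f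
    rw [← hP, AdjoinRoot.mk_self, AdjoinRoot.mk_X] at h1
    exact h1.symm
  have h2k : (2 : ℕ) < 2 ^ k := by
    calc (2 : ℕ) < 2 ^ 2 := by norm_num
      _ ≤ 2 ^ k := Nat.pow_le_pow_right (by norm_num) hk
  have hpow := (ev_powm two (AdjoinRoot.root P) k f (by omega) hf1 hf2 hev (k + 1) 2 (2 ^ k) h2k
    (Nat.pow_lt_pow_right (by norm_num) (by omega))).2
  rw [hroot, ev_two _ k hk] at hpow
  have hdvd : P ∣ X ^ Fintype.card F - X := by
    rw [← AdjoinRoot.mk_eq_zero, map_sub, map_pow, AdjoinRoot.mk_X, hcard, ← hpow, sub_self]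
  have hcard1 : 1 < Fintype.card F := Fintype.one_lt_card
  have hmon : (X ^ Fintype.card F - X : F[X]).Monic := by
    apply monic_X_pow_sub
    rw [degree_X]
    exact_mod_cast hcard1
  have hroots : Multiset.card (X ^ Fintype.card F - X : F[X]).roots = (X ^ Fintype.card F - X : F[X]).natDegree := by
    rw [FiniteField.roots_X_pow_card_sub_X, FiniteField.X_pow_card_sub_X_natDegree_eq _ hcard1]
    rfl
  have hprod := prod_multiset_X_sub_C_of_monic_of_roots_card_eq hmon hroots
  have hnu : ¬ IsUnit P := by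
    intro hu
    have := natDegree_eq_zero_of_isUnit hu
    omega
  obtain ⟨g, hg, hgP⟩ := WfDvdMonoid.exists_irreducible_factor hnu hne
  have h3 : g ∣ ((X ^ Fintype.card F - X : F[X]).roots.map fun a => X - C a).prod := by
    rw [hprod]
    exact hgP.trans hdvd
  obtain ⟨a, _, ha⟩ := hg.prime.exists_mem_multiset_map_dvd h3
  have h4 : X - C a ∣ g := hg.dvd_symm (irreducible_X_sub_C a) ha
  have h5 : P.IsRoot a := dvd_iff_isRoot.1 (h4.trans hgP)
  refine ⟨a, ?_⟩
  have h6 := ev_map (evalRingHom a) (X : F[X]) (k + 1) f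
  rw [← hP, coe_evalRingHom, eval_X] at h6
  rw [← h6]
  exact h5

end Pool.Agent.H90.DE
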