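import Pool.Agent.H90.DE.Cert
import Pool.Agent.H90.DE.Root

/-!
# Certificates in bits, `e = 3` (MP_2f0703_co, helper90)
-/

set_option autoImplicit false

namespace Pool.Agent.H90.DE

open Finset

/-- the check of a certificate: `f` a polynomial of degree `k`, `x` and `y` the elements, `ps` the primes dividing `N` -/
def chk (k f N x y : ℕ) (ps : List ℕ) : Bool :=
  decide (2 ≤ k) && decide (3 * N + 1 = 2 ^ k) && decide (2 ^ k ≤ f) && decide (f < 2 ^ (k + 1)) && decide (x < 2 ^ k) && decide (y < 2 ^ k) &&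
  decide (powm k f (k + 1) 2 (2 ^ k) = 2) &&
  decide (powm k f k y N = powm k f k x N) &&
  decide (mulm k f k (powm k f k x N) (powm k f k x N) ^^^ powm k f k x N = 1) &&
  decide (powm k f k (x ^^^ 1) N = powm k f k (y ^^^ 1) N) &&
  decide (powm k f k (mulm k f k x y ^^^ 1) N = mulm k f k (powm k f k (x ^^^ 1) N) (powm k f k (x ^^^ 1) N)) &&
  decide (powm k f k (x ^^^ 1) (2 ^ k - 1) = 1) &&
  decide (powm k f k (x ^^^ y) (2 ^ k - 1) = 1) &&
  ps.all fun p => decide (powm k f k (powm k f k (mulm k f k (mulm k f k x x) y) (N / p) ^^^ 1) (2 ^ k - 1) = 1)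

theorem ev_one {R : Type} [CommRing R] (t : R) (k : ℕ) (hk : 1 ≤ k) : ev t k 1 = 1 := by
  obtain ⟨n, rfl⟩ : ∃ n, k = n + 1 := ⟨k - 1, by omega⟩
  have h0 : ∀ n, ev t n 0 = 0 := by
    intro n
    induction n with
    | zero => rfl
    | succ n ih =>
      show (if 0 % 2 = 1 then 1 else 0) + t * ev t n (0 / 2) = 0
      rw [Nat.zero_div, ih]; simp
  show (if 1 % 2 = 1 then 1 else 0) + t * ev t n (1 / 2) = 1
  rw [show 1 / 2 = 0 from rfl, h0]; simp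

theorem of_chk {k f N x y : ℕ} {ps : List ℕ} (h : chk k f N x y ps = true) (hps : ∀ p : ℕ, p.Prime → p ∣ N → p ∈ ps)
    (F : Type) [Field F] [Fintype F] [CharP F 2] (hcard : Fintype.card F = 2 ^ k) :
    ∃ (a : F) (c : F → ZMod 3) (b : ZMod 3 → F) (γ δ : ZMod 3) (E : ℕ), GW F a 3 c b γ δ ∧ ∏ i, b i = a ^ E ∧
      (∀ M : ℕ, 3 ∣ M → ∃ k : ℕ, (a ^ E) ^ k = a ^ M) ∧
      ¬ ∀ i : ZMod 3, b (i + γ) * (1 + b i) = b i * (1 + b (i + 1)) := by
  have two : (2 : F) = 0 := by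
    have := CharP.cast_eq_zero F 2
    exact_mod_cast this
  unfold chk at h
  simp only [Bool.and_eq_true, decide_eq_true_eq, List.all_eq_true] at h
  obtain ⟨⟨⟨⟨⟨⟨⟨⟨⟨⟨⟨⟨⟨hk, hN⟩, hf1⟩, hf2⟩, hx⟩, hy⟩, c0⟩, c1⟩, c2⟩, c3⟩, c4⟩, c5⟩, c6⟩, c7⟩ := h
  obtain ⟨t, ht⟩ := exists_root F k f hk hcard hf1 hf2 c0
  have hk1 : 1 ≤ k := by omega
  have h2k : 2 ≤ 2 ^ k := by
    calc 2 = 2 ^ 1 := by norm_num
      _ ≤ 2 ^ k := Nat.pow_le_pow_right (by norm_num) hk1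
  have P : ∀ a e : ℕ, a < 2 ^ k → e < 2 ^ k → powm k f k a e < 2 ^ k ∧ ev t k (powm k f k a e) = (ev t k a) ^ e :=
    fun a e ha he => ev_powm two t k f hk1 hf1 hf2 ht k a e ha he
  have M : ∀ a b : ℕ, a < 2 ^ k → b < 2 ^ k → mulm k f k a b < 2 ^ k ∧ ev t k (mulm k f k a b) = ev t k a * ev t k b :=
    fun a b ha hb => ev_mulm two t k f hf1 hf2 ht a b ha hb
  have one : ev t k 1 = 1 := ev_one t k hk1
  have X : ∀ a : ℕ, ev t k (a ^^^ 1) = ev t k a + 1 := fun a => by rw [ev_xor two, one]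
  have hlt1 : ∀ a : ℕ, a < 2 ^ k → a ^^^ 1 < 2 ^ k := fun a ha => Nat.xor_lt_two_pow ha (by omega)
  have hNk : N < 2 ^ k := by omega
  have hnk : 2 ^ k - 1 < 2 ^ k := by omega
  have hne : ∀ a : ℕ, a < 2 ^ k → powm k f k a (2 ^ k - 1) = 1 → ev t k a ≠ 0 := by
    intro a ha h1 h0
    have h3 := (P a _ ha hnk).2
    rw [h1, one, h0, zero_pow (by omega)] at h3
    exact one_ne_zero h3
  refine cert F (N := N) (by rw [hcard]; omega) (ev t k x) (ev t k y) ((ev t k x) ^ N) ?_ rfl ?_ ?_ ?_ ?_ ?_ ?_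
  · have h1 := congrArg (ev t k) c2
    rw [ev_xor two, one, (M _ _ (P x N hx hNk).1 (P x N hx hNk).1).2, (P x N hx hNk).2] at h1
    linear_combination h1 + two
  · rw [← (P y N hy hNk).2, c1, (P x N hx hNk).2]
  · rw [← X]
    exact hne _ (hlt1 x hx) c5
  · rw [← X, ← X, ← (P _ N (hlt1 x hx) hNk).2, ← (P _ N (hlt1 y hy) hNk).2, c3]
  · rw [← X, ← (M x y hx hy).2, ← X, ← (P _ N (hlt1 x hx) hNk).2, ← (P _ N (hlt1 _ (M x y hx hy).1) hNk).2, c4,
      (M _ _ (P _ N (hlt1 x hx) hNk).1 (P _ N (hlt1 x hx) hNk).1).2, pow_two]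
  · intro h1
    apply hne _ (Nat.xor_lt_two_pow hx hy) c6
    rw [ev_xor two, h1]
    linear_combination (ev t k y) * two
  · intro p hp hpN h1
    have hx2 := M x x hx hx
    have hx2y := M _ y hx2.1 hy
    have hNp : N / p < 2 ^ k := lt_of_le_of_lt (Nat.div_le_self _ _) hNk
    apply hne _ (hlt1 _ (P _ (N / p) hx2y.1 hNp).1) (c7 p (hps p hp hpN))
    rw [X, (P _ (N / p) hx2y.1 hNp).2, hx2y.2, hx2.2, ← pow_two, h1]
    linear_combination two

end Pool.Agent.H90.DE
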