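import Mathlib

/-!
# The numerical inequality (MP_2f0703_co, helper90)

FRAME. Write `w = N.primeFactors.card`. Facts: (a) `N ≤ 2 ^ w * N.totient` (`Nat.totient_mul_prod_primeFactors` or `Nat.totient_eq_mul_prod_factors`: `φ N = N ∏ (1 - 1/p)` and
`1 - 1/p ≥ 1/2`). (b) for every `δ > 0` there is `C` with `4 ^ w ≤ C * N ^ δ` for all `N ≥ 1`: with `P = 4 ^ (1 / δ)` every prime `p ≥ P` has `4 ≤ p ^ δ`, so
`4 ^ w ≤ 4 ^ (number of primes below P) * ∏_{p ∣ N} p ^ δ ≤ C * N ^ δ` (`∏ p ∈ N.primeFactors, p ∣ N`). Take `δ = 1 / 28`. With `q = e * N + 1`, `e ^ 7 ≤ q`: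
`e ^ 2 * (1 + 2 ^ w * √(2 q)) ≤ 3 * e ^ 2 * 2 ^ w * √q` and `φ N ≥ N / 2 ^ w ≥ q / (2 e 2 ^ w)`, so it suffices that `6 * e ^ 3 * 4 ^ w < √q`, which follows from
`e ^ 3 ≤ q ^ (3 / 7)`, `4 ^ w ≤ C * q ^ (1 / 28)` and `3 / 7 + 1 / 28 < 1 / 2` for large `q`.
-/

set_option autoImplicit false

namespace Pool.Agent.H90.DE

private theorem omg_a (N : ℕ) : N ≤ 2 ^ N.primeFactors.card * N.totient := by
  have h := Nat.totient_mul_prod_primeFactors N
  have hpos : 0 < ∏ p ∈ N.primeFactors, p :=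
    Finset.prod_pos fun p hp => (Nat.prime_of_mem_primeFactors hp).pos
  have h2 : ∏ p ∈ N.primeFactors, p ≤ 2 ^ N.primeFactors.card * ∏ p ∈ N.primeFactors, (p - 1) := by
    rw [← Finset.prod_const, ← Finset.prod_mul_distrib]
    refine Finset.prod_le_prod' fun p hp => ?_
    have := (Nat.prime_of_mem_primeFactors hp).two_le
    omega
  refine Nat.le_of_mul_le_mul_right ?_ hpos
  calc N * ∏ p ∈ N.primeFactors, p
      ≤ N * (2 ^ N.primeFactors.card * ∏ p ∈ N.primeFactors, (p - 1)) := Nat.mul_le_mul_left _ h2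
    _ = 2 ^ N.primeFactors.card * (N * ∏ p ∈ N.primeFactors, (p - 1)) := by ring
    _ = 2 ^ N.primeFactors.card * N.totient * ∏ p ∈ N.primeFactors, p := by rw [← h]; ring

private theorem omg_b (k : ℕ) (hk : 0 < k) (N : ℕ) (hN : 0 < N) :
    (4 : ℝ) ^ N.primeFactors.card ≤ 4 ^ (4 ^ k : ℕ) * (N : ℝ) ^ (1 / (k : ℝ)) := by
  have hk' : (0 : ℝ) < k := by exact_mod_cast hk
  obtain ⟨P, hP⟩ : ∃ P : ℕ, P = 4 ^ k := ⟨_, rfl⟩
  rw [← hP]
  have hcard : N.primeFactors.card = (N.primeFactors.filter (· < P)).card +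
      (N.primeFactors.filter (fun p => ¬ p < P)).card :=
    (Finset.card_filter_add_card_filter_not _).symm
  have h1 : (N.primeFactors.filter (· < P)).card ≤ P := by
    calc (N.primeFactors.filter (· < P)).card ≤ (Finset.range P).card :=
          Finset.card_le_card fun p hp => Finset.mem_range.2 (Finset.mem_filter.1 hp).2
      _ = P := Finset.card_range P
  have h2 : (4 : ℝ) ^ (N.primeFactors.filter (fun p => ¬ p < P)).card ≤ (N : ℝ) ^ (1 / (k : ℝ)) := by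
    have h3 : ∀ p ∈ N.primeFactors.filter (fun p => ¬ p < P), (4 : ℝ) ≤ (p : ℝ) ^ (1 / (k : ℝ)) := by
      intro p hp
      have h4 : P ≤ p := not_lt.1 (Finset.mem_filter.1 hp).2
      have h5 : ((4 : ℝ) ^ k) ≤ p := by
        rw [hP] at h4
        exact_mod_cast h4
      calc (4 : ℝ) = ((4 : ℝ) ^ k) ^ (1 / (k : ℝ)) := by
            rw [← Real.rpow_natCast, ← Real.rpow_mul (by norm_num), mul_one_div_cancel hk'.ne',
              Real.rpow_one]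
        _ ≤ (p : ℝ) ^ (1 / (k : ℝ)) := Real.rpow_le_rpow (by positivity) h5 (by positivity)
    have h6 : ∏ p ∈ N.primeFactors.filter (fun p => ¬ p < P), p ≤ N := by
      calc ∏ p ∈ N.primeFactors.filter (fun p => ¬ p < P), p ≤ ∏ p ∈ N.primeFactors, p :=
            Finset.prod_le_prod_of_subset_of_one_le' (Finset.filter_subset _ _)
              fun p hp _ => (Nat.prime_of_mem_primeFactors hp).one_le
        _ ≤ N := Nat.le_of_dvd hN (Nat.prod_primeFactors_dvd N)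
    calc (4 : ℝ) ^ (N.primeFactors.filter (fun p => ¬ p < P)).card
        = ∏ _p ∈ N.primeFactors.filter (fun p => ¬ p < P), (4 : ℝ) := by rw [Finset.prod_const]
      _ ≤ ∏ p ∈ N.primeFactors.filter (fun p => ¬ p < P), (p : ℝ) ^ (1 / (k : ℝ)) :=
          Finset.prod_le_prod (fun _ _ => by norm_num) h3
      _ = (∏ p ∈ N.primeFactors.filter (fun p => ¬ p < P), (p : ℝ)) ^ (1 / (k : ℝ)) :=
          Real.finsetProd_rpow _ _ (fun _ _ => Nat.cast_nonneg _) _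
      _ ≤ (N : ℝ) ^ (1 / (k : ℝ)) := by
          refine Real.rpow_le_rpow (Finset.prod_nonneg fun _ _ => Nat.cast_nonneg _) ?_ (by positivity)
          have h7 : ((∏ p ∈ N.primeFactors.filter (fun p => ¬ p < P), p : ℕ) : ℝ) ≤ N := Nat.cast_le.2 h6
          rwa [Nat.cast_prod] at h7
  rw [hcard, pow_add]
  refine mul_le_mul (pow_le_pow_right₀ (by norm_num) h1) h2 (by positivity) (by positivity)

theorem omg : ∃ q0 : ℕ, ∀ q e N : ℕ, q0 ≤ q → 0 < e → e * N = q - 1 → e ^ 7 ≤ q →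
    (e : ℝ) ^ 2 * (1 + 2 ^ N.primeFactors.card * Real.sqrt (2 * q)) < N.totient := by
  obtain ⟨C, hC⟩ : ∃ C : ℝ, C = 4 ^ (4 ^ 28 : ℕ) := ⟨_, rfl⟩
  have hC0 : 0 < C := by rw [hC]; positivity
  obtain ⟨q1, hq1⟩ := exists_nat_gt ((6 * C) ^ 28)
  refine ⟨q1 + 2, fun q e N hq he hN h7 => ?_⟩
  have hq2 : 2 ≤ q := by omega
  have hN0 : 0 < N := by
    rcases Nat.eq_zero_or_pos N with h | h
    · rw [h, mul_zero] at hN
      omega
    · exact h
  have hNq : N ≤ q := by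
    have : N ≤ e * N := Nat.le_mul_of_pos_left N he
    omega
  have hqN : q ≤ 2 * (e * N) := by omega
  obtain ⟨w, hw⟩ : ∃ w : ℕ, w = N.primeFactors.card := ⟨_, rfl⟩
  have ha := omg_a N
  have hb := omg_b 28 (by norm_num) N hN0
  rw [← hw] at ha hb ⊢
  rw [← hC] at hb
  have hqr : (2 : ℝ) ≤ q := by exact_mod_cast hq2
  have hq0 : (0 : ℝ) < q := by linarith
  have her : (0 : ℝ) < e := by exact_mod_cast he
  have har : (N : ℝ) ≤ 2 ^ w * N.totient := by exact_mod_cast ha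
  have hqNr : (q : ℝ) ≤ 2 * (e * N) := by exact_mod_cast hqN
  -- the sizes
  have s1 : (e : ℝ) ^ 3 ≤ (q : ℝ) ^ (3 / 7 : ℝ) := by
    have h1 : (e : ℝ) ^ 7 ≤ q := by exact_mod_cast h7
    calc (e : ℝ) ^ 3 = ((e : ℝ) ^ 7) ^ (3 / 7 : ℝ) := by
          rw [← Real.rpow_natCast, ← Real.rpow_natCast, ← Real.rpow_mul her.le]
          norm_num
      _ ≤ (q : ℝ) ^ (3 / 7 : ℝ) := Real.rpow_le_rpow (by positivity) h1 (by norm_num)
  have s2 : (4 : ℝ) ^ w ≤ C * (q : ℝ) ^ (1 / 28 : ℝ) := by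
    refine hb.trans (mul_le_mul_of_nonneg_left ?_ hC0.le)
    have h1 : (N : ℝ) ≤ q := by exact_mod_cast hNq
    have h2 : (1 / ((28 : ℕ) : ℝ)) = (1 / 28 : ℝ) := by norm_num
    rw [h2]
    exact Real.rpow_le_rpow (Nat.cast_nonneg _) h1 (by norm_num)
  have s3 : 6 * C < (q : ℝ) ^ (1 / 28 : ℝ) := by
    have h1 : (6 * C) ^ 28 < (q : ℝ) := by
      have h2 : (q1 : ℝ) ≤ q := by
        have : q1 ≤ q := by omega
        exact_mod_cast this
      exact hq1.trans_le h2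
    calc 6 * C = ((6 * C) ^ 28) ^ (1 / 28 : ℝ) := by
          rw [← Real.rpow_natCast, ← Real.rpow_mul (by positivity)]
          norm_num
      _ < (q : ℝ) ^ (1 / 28 : ℝ) := Real.rpow_lt_rpow (by positivity) h1 (by norm_num)
  have s4 : 6 * (e : ℝ) ^ 3 * 4 ^ w < Real.sqrt q := by
    have hx : (0 : ℝ) < (q : ℝ) ^ (3 / 7 : ℝ) := Real.rpow_pos_of_pos hq0 _
    have hy : (0 : ℝ) < (q : ℝ) ^ (1 / 28 : ℝ) := Real.rpow_pos_of_pos hq0 _
    calc 6 * (e : ℝ) ^ 3 * 4 ^ w ≤ 6 * (q : ℝ) ^ (3 / 7 : ℝ) * (C * (q : ℝ) ^ (1 / 28 : ℝ)) := by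
          gcongr
      _ = (6 * C) * ((q : ℝ) ^ (3 / 7 : ℝ) * (q : ℝ) ^ (1 / 28 : ℝ)) := by ring
      _ < (q : ℝ) ^ (1 / 28 : ℝ) * ((q : ℝ) ^ (3 / 7 : ℝ) * (q : ℝ) ^ (1 / 28 : ℝ)) :=
          mul_lt_mul_of_pos_right s3 (mul_pos hx hy)
      _ = Real.sqrt q := by
          rw [← Real.rpow_add hq0, ← Real.rpow_add hq0, Real.sqrt_eq_rpow]
          norm_num
  have hsq : (0 : ℝ) < Real.sqrt q := Real.sqrt_pos.2 hq0
  have hsq1 : 1 ≤ Real.sqrt q := Real.one_le_sqrt.2 (by linarith)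
  have hs2 : Real.sqrt (2 * q) ≤ 2 * Real.sqrt q := by
    rw [Real.sqrt_mul (by norm_num)]
    have h1 : Real.sqrt 2 ≤ 2 := by
      rw [Real.sqrt_le_left (by norm_num)]
      norm_num
    exact mul_le_mul_of_nonneg_right h1 hsq.le
  have hw1 : (1 : ℝ) ≤ 2 ^ w := one_le_pow₀ (by norm_num)
  have hw0 : (0 : ℝ) < 2 ^ w := by positivity
  have h4 : (2 : ℝ) ^ w * 2 ^ w = 4 ^ w := by
    rw [← mul_pow]
    norm_num
  have t1 : 1 + 2 ^ w * Real.sqrt (2 * q) ≤ 3 * 2 ^ w * Real.sqrt q := by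
    have h5 : 2 ^ w * Real.sqrt (2 * q) ≤ 2 ^ w * (2 * Real.sqrt q) :=
      mul_le_mul_of_nonneg_left hs2 hw0.le
    have h6 : 1 ≤ 2 ^ w * Real.sqrt q := by nlinarith
    nlinarith
  -- multiply by `2 e 2^w`
  have t2 : (e : ℝ) ^ 2 * (1 + 2 ^ w * Real.sqrt (2 * q)) * (2 * e * 2 ^ w) < q := by
    calc (e : ℝ) ^ 2 * (1 + 2 ^ w * Real.sqrt (2 * q)) * (2 * e * 2 ^ w)
        ≤ (e : ℝ) ^ 2 * (3 * 2 ^ w * Real.sqrt q) * (2 * e * 2 ^ w) := by gcongr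
      _ = (6 * (e : ℝ) ^ 3 * (2 ^ w * 2 ^ w)) * Real.sqrt q := by ring
      _ = (6 * (e : ℝ) ^ 3 * 4 ^ w) * Real.sqrt q := by rw [h4]
      _ < Real.sqrt q * Real.sqrt q := mul_lt_mul_of_pos_right s4 hsq
      _ = q := Real.mul_self_sqrt hq0.le
  have t3 : (q : ℝ) ≤ N.totient * (2 * e * 2 ^ w) := by
    calc (q : ℝ) ≤ 2 * (e * N) := hqNr
      _ ≤ 2 * (e * (2 ^ w * N.totient)) := by gcongr
      _ = N.totient * (2 * e * 2 ^ w) := by ring
  exact lt_of_mul_lt_mul_right (t2.trans_le t3) (by positivity)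

end Pool.Agent.H90.DE
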