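import Pool.Agent.H90.DE.Omg2

/-!
# The explicit numerical inequality (MP_2f0703_co, helper90)

`w = 2 ^ N.primeFactors.card ≥ 1`. By `omg2` (take fourth roots; or argue with fourth powers): `N.totient ^ 4 * 4096 ≥ w ^ 4 * N ^ 3`. Suppose
`N.totient ≤ e ^ 2 * (1 + w * √(2 q))`. Since `1 ≤ w` and `1 + √(2 q) ≤ 1.5 * √q` (`q ≥ 144`), the right side is at most `1.5 * e ^ 2 * w * √q`, so
`w ^ 4 * N ^ 3 ≤ 4096 * (1.5) ^ 4 * e ^ 8 * w ^ 4 * q ^ 2`, `N ^ 3 ≤ 20736 * e ^ 8 * q ^ 2`, and with `e * N = q - 1`: `(q - 1) ^ 3 ≤ 20736 * e ^ 11 * q ^ 2`; but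
`(q - 1) ^ 3 > q ^ 2 * (q - 3)` and `q - 3 ≥ 20736 * e ^ 11`.
-/

set_option autoImplicit false

namespace Pool.Agent.H90.DE

theorem omg3 {q e N : ℕ} (hq : 20736 * e ^ 11 + 3 ≤ q) (he : 0 < e) (hN : e * N = q - 1) (hodd : N % 2 = 1) :
    (e : ℝ) ^ 2 * (1 + 2 ^ N.primeFactors.card * Real.sqrt (2 * q)) < N.totient := by
  have h2 := omg2 N hodd
  have hN0 : 0 < N := by omega
  have he11 : 1 ≤ e ^ 11 := Nat.one_le_pow _ _ he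
  have hq1 : 20736 ≤ q := by omega
  by_contra hcon
  rw [not_lt] at hcon
  obtain ⟨W, hW⟩ : ∃ W : ℝ, W = 2 ^ N.primeFactors.card := ⟨_, rfl⟩
  obtain ⟨T, hT⟩ : ∃ T : ℝ, T = (N.totient : ℝ) := ⟨_, rfl⟩
  obtain ⟨n, hn⟩ : ∃ n : ℝ, n = (N : ℝ) := ⟨_, rfl⟩
  obtain ⟨x, hx⟩ : ∃ x : ℝ, x = (e : ℝ) := ⟨_, rfl⟩
  obtain ⟨r, hr⟩ : ∃ r : ℝ, r = (q : ℝ) := ⟨_, rfl⟩
  obtain ⟨s, hs⟩ : ∃ s : ℝ, s = Real.sqrt q := ⟨_, rfl⟩
  have h3 : (W * n) ^ 4 ≤ 4096 * n * T ^ 4 := by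
    rw [hW, hT, hn]
    exact_mod_cast h2
  have hW1 : 1 ≤ W := by
    rw [hW]
    exact one_le_pow₀ (by norm_num)
  have hn0 : 0 < n := by
    rw [hn]
    exact_mod_cast hN0
  have hT0 : 0 ≤ T := by
    rw [hT]
    positivity
  have hx1 : 1 ≤ x := by
    rw [hx]
    exact_mod_cast he
  have hr1 : 20736 ≤ r := by
    rw [hr]
    exact_mod_cast hq1
  have hrx : 20736 * x ^ 11 + 3 ≤ r := by
    rw [hr, hx]
    exact_mod_cast hq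
  have hxn : x * n = r - 1 := by
    have h5 : e * N + 1 = q := by omega
    have h6 : (e : ℝ) * N + 1 = q := by exact_mod_cast h5
    rw [hx, hn, hr]
    linarith
  have hs2 : s ^ 2 = r := by
    rw [hs, hr]
    exact Real.sq_sqrt (by positivity)
  have hs0 : 0 ≤ s := by
    rw [hs]
    exact Real.sqrt_nonneg _
  have hs144 : 144 ≤ s := by
    by_contra h
    rw [not_le] at h
    nlinarith
  have h22 : Real.sqrt (2 * q) ≤ 1.415 * s := by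
    rw [Real.sqrt_le_left (by positivity)]
    rw [mul_pow, hs2, hr]
    have : (0 : ℝ) ≤ q := by positivity
    nlinarith
  rw [← hW, ← hT, ← hx] at hcon
  have h5 : T ≤ 1.5 * x ^ 2 * W * s := by
    refine hcon.trans ?_
    have h6 : W * Real.sqrt (2 * q) ≤ W * (1.415 * s) := mul_le_mul_of_nonneg_left h22 (by linarith)
    have h7 : 1 + W * Real.sqrt (2 * q) ≤ W * (1.5 * s) := by nlinarith
    calc x ^ 2 * (1 + W * Real.sqrt (2 * q)) ≤ x ^ 2 * (W * (1.5 * s)) := mul_le_mul_of_nonneg_left h7 (by positivity)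
      _ = 1.5 * x ^ 2 * W * s := by ring
  have h6 : T ^ 4 ≤ (1.5 * x ^ 2 * W * s) ^ 4 := pow_le_pow_left₀ hT0 h5 4
  have h7 : (1.5 * x ^ 2 * W * s) ^ 4 = 5.0625 * x ^ 8 * W ^ 4 * r ^ 2 := by
    rw [← hs2]
    ring
  rw [h7] at h6
  have h8 : W ^ 4 * n ^ 3 ≤ 20736 * x ^ 8 * W ^ 4 * r ^ 2 := by
    have h9 : W ^ 4 * n ^ 3 * n ≤ 20736 * x ^ 8 * W ^ 4 * r ^ 2 * n := by
      calc W ^ 4 * n ^ 3 * n = (W * n) ^ 4 := by ring
        _ ≤ 4096 * n * T ^ 4 := h3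
        _ ≤ 4096 * n * (5.0625 * x ^ 8 * W ^ 4 * r ^ 2) := mul_le_mul_of_nonneg_left h6 (by positivity)
        _ = 20736 * x ^ 8 * W ^ 4 * r ^ 2 * n := by ring
    exact le_of_mul_le_mul_right h9 hn0
  have h9 : n ^ 3 ≤ 20736 * x ^ 8 * r ^ 2 := by
    have hW4 : 0 < W ^ 4 := by positivity
    have h10 : n ^ 3 * W ^ 4 ≤ 20736 * x ^ 8 * r ^ 2 * W ^ 4 := by
      calc n ^ 3 * W ^ 4 = W ^ 4 * n ^ 3 := by ring
        _ ≤ 20736 * x ^ 8 * W ^ 4 * r ^ 2 := h8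
        _ = 20736 * x ^ 8 * r ^ 2 * W ^ 4 := by ring
    exact le_of_mul_le_mul_right h10 hW4
  have h10 : (r - 1) ^ 3 ≤ 20736 * x ^ 11 * r ^ 2 := by
    calc (r - 1) ^ 3 = x ^ 3 * n ^ 3 := by rw [← hxn]; ring
      _ ≤ x ^ 3 * (20736 * x ^ 8 * r ^ 2) := mul_le_mul_of_nonneg_left h9 (by positivity)
      _ = 20736 * x ^ 11 * r ^ 2 := by ring
  have h11 : 20736 * x ^ 11 * r ^ 2 ≤ (r - 3) * r ^ 2 := mul_le_mul_of_nonneg_right (by linarith) (by positivity)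
  nlinarith

end Pool.Agent.H90.DE
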