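import Mathlib

/-!
# Four numerical cases (MP_2f0703_co, helper90)

FRAME. `e = 3`, `q = 2 ^ k`, `N = (q - 1) / 3`.
`k = 20`: `N = 349525 = 5^2 * 11 * 31 * 41`, `φ N = 240000`, four primes, `9 * (1 + 16 * √2097152) < 208600`.
`k = 22`: `N = 1398101 = 23 * 89 * 683`, `φ N = 1320352`, three primes.
`k = 26`: `N = 22369621 = 2731 * 8191`, `φ N = 22358700`, two primes.
`k = 28`: `N = 89478485 = 5 * 29 * 43 * 113 * 127`, `φ N = 66382848`, five primes.
-/

set_option autoImplicit false

namespace Pool.Agent.H90.DE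

private theorem o4_fin {k m t : ℕ} {N : ℕ} {s : ℝ} (hc : N.primeFactors.card = k) (ht : N.totient = t)
    (hs : Real.sqrt (2 * (m : ℝ)) < s) (h : (3 : ℝ) ^ 2 * (1 + 2 ^ k * s) ≤ t) :
    (3 : ℝ) ^ 2 * (1 + 2 ^ N.primeFactors.card * Real.sqrt (2 * (m : ℝ))) < (N.totient : ℝ) := by
  rw [hc, ht]
  have h1 : (0 : ℝ) < 2 ^ k := by positivity
  have h2 := mul_lt_mul_of_pos_left hs h1
  linarith

theorem case20 : (3 : ℝ) ^ 2 * (1 + 2 ^ (349525 : ℕ).primeFactors.card * Real.sqrt (2 * (2 ^ 20 : ℕ))) < (349525 : ℕ).totient := by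
  have h : (349525 : ℕ) = 5 ^ 2 * (11 * (31 * 41)) := by norm_num
  have hc : (349525 : ℕ).primeFactors.card = 4 := by
    rw [h, Nat.primeFactors_mul (by norm_num) (by norm_num), Nat.primeFactors_mul (by norm_num) (by norm_num), Nat.primeFactors_mul (by norm_num) (by norm_num), Nat.primeFactors_prime_pow (by norm_num) (by norm_num : Nat.Prime 5), Nat.Prime.primeFactors (by norm_num : Nat.Prime 11), Nat.Prime.primeFactors (by norm_num : Nat.Prime 31), Nat.Prime.primeFactors (by norm_num : Nat.Prime 41)]
    decide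
  have ht : (349525 : ℕ).totient = 240000 := by
    rw [h, Nat.totient_mul (by norm_num), Nat.totient_mul (by norm_num), Nat.totient_mul (by norm_num), Nat.totient_prime_pow (by norm_num : Nat.Prime 5) (by norm_num), Nat.totient_prime (by norm_num : Nat.Prime 11), Nat.totient_prime (by norm_num : Nat.Prime 31), Nat.totient_prime (by norm_num : Nat.Prime 41)]
    norm_num
  exact o4_fin (s := 1449) hc ht (by rw [Real.sqrt_lt' (by norm_num)]; norm_num) (by norm_num)

theorem case22 : (3 : ℝ) ^ 2 * (1 + 2 ^ (1398101 : ℕ).primeFactors.card * Real.sqrt (2 * (2 ^ 22 : ℕ))) < (1398101 : ℕ).totient := by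
  have h : (1398101 : ℕ) = 23 * (89 * 683) := by norm_num
  have hc : (1398101 : ℕ).primeFactors.card = 3 := by
    rw [h, Nat.primeFactors_mul (by norm_num) (by norm_num), Nat.primeFactors_mul (by norm_num) (by norm_num), Nat.Prime.primeFactors (by norm_num : Nat.Prime 23), Nat.Prime.primeFactors (by norm_num : Nat.Prime 89), Nat.Prime.primeFactors (by norm_num : Nat.Prime 683)]
    decide
  have ht : (1398101 : ℕ).totient = 1320352 := by
    rw [h, Nat.totient_mul (by norm_num), Nat.totient_mul (by norm_num), Nat.totient_prime (by norm_num : Nat.Prime 23), Nat.totient_prime (by norm_num : Nat.Prime 89), Nat.totient_prime (by norm_num : Nat.Prime 683)]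
  exact o4_fin (s := 2897) hc ht (by rw [Real.sqrt_lt' (by norm_num)]; norm_num) (by norm_num)

theorem case26 : (3 : ℝ) ^ 2 * (1 + 2 ^ (22369621 : ℕ).primeFactors.card * Real.sqrt (2 * (2 ^ 26 : ℕ))) < (22369621 : ℕ).totient := by
  have h : (22369621 : ℕ) = 2731 * 8191 := by norm_num
  have hc : (22369621 : ℕ).primeFactors.card = 2 := by
    rw [h, Nat.primeFactors_mul (by norm_num) (by norm_num), Nat.Prime.primeFactors (by norm_num : Nat.Prime 2731), Nat.Prime.primeFactors (by norm_num : Nat.Prime 8191)]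
    decide
  have ht : (22369621 : ℕ).totient = 22358700 := by
    rw [h, Nat.totient_mul (by norm_num), Nat.totient_prime (by norm_num : Nat.Prime 2731), Nat.totient_prime (by norm_num : Nat.Prime 8191)]
  exact o4_fin (s := 11586) hc ht (by rw [Real.sqrt_lt' (by norm_num)]; norm_num) (by norm_num)

theorem case28 : (3 : ℝ) ^ 2 * (1 + 2 ^ (89478485 : ℕ).primeFactors.card * Real.sqrt (2 * (2 ^ 28 : ℕ))) < (89478485 : ℕ).totient := by
  have h : (89478485 : ℕ) = 5 * (29 * (43 * (113 * 127))) := by norm_num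
  have hc : (89478485 : ℕ).primeFactors.card = 5 := by
    rw [h, Nat.primeFactors_mul (by norm_num) (by norm_num), Nat.primeFactors_mul (by norm_num) (by norm_num), Nat.primeFactors_mul (by norm_num) (by norm_num), Nat.primeFactors_mul (by norm_num) (by norm_num), Nat.Prime.primeFactors (by norm_num : Nat.Prime 5), Nat.Prime.primeFactors (by norm_num : Nat.Prime 29), Nat.Prime.primeFactors (by norm_num : Nat.Prime 43), Nat.Prime.primeFactors (by norm_num : Nat.Prime 113), Nat.Prime.primeFactors (by norm_num : Nat.Prime 127)]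
    decide
  have ht : (89478485 : ℕ).totient = 66382848 := by
    rw [h, Nat.totient_mul (by norm_num), Nat.totient_mul (by norm_num), Nat.totient_mul (by norm_num), Nat.totient_mul (by norm_num), Nat.totient_prime (by norm_num : Nat.Prime 5), Nat.totient_prime (by norm_num : Nat.Prime 29), Nat.totient_prime (by norm_num : Nat.Prime 43), Nat.totient_prime (by norm_num : Nat.Prime 113), Nat.totient_prime (by norm_num : Nat.Prime 127)]
  exact o4_fin (s := 23171) hc ht (by rw [Real.sqrt_lt' (by norm_num)]; norm_num) (by norm_num)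

end Pool.Agent.H90.DE
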