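import Pool.Agent.H90.DE.Small
import Pool.Agent.H90.DE.Omg3
import Pool.Agent.H90.DE.Omg4
import Pool.Agent.H90.DE.Omg

/-!
# The walk exists for all composite exponents but 4 (MP_2f0703_co, helper90)
-/

set_option autoImplicit false

namespace Pool.Agent.H90.DE

open Finset

/-- the conclusion of the existence theorems -/
def HasWalk (F : Type) [Field F] (e : ℕ) [NeZero e] : Prop :=
  ∃ (a : F) (c : F → ZMod e) (b : ZMod e → F) (γ δ : ZMod e) (E : ℕ), GW F a e c b γ δ ∧ ∏ i, b i = a ^ E ∧
    (∀ M : ℕ, e ∣ M → ∃ k : ℕ, (a ^ E) ^ k = a ^ M) ∧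
    ¬ ∀ i : ZMod e, b (i + γ) * (1 + b i) = b i * (1 + b (i + 1))

/-- there are an index `e` and `N` with `e N = 2 ^ k - 1`, `e ^ 2 < 2 ^ k` and a walk over every field with `2 ^ k` elements -/
def Good (k : ℕ) : Prop :=
  ∃ (e N : ℕ) (_ : NeZero e), e * N = 2 ^ k - 1 ∧ e * e < 2 ^ k ∧
    ∀ (F : Type) [Field F] [Fintype F] [CharP F 2], Fintype.card F = 2 ^ k → HasWalk F e

/-- the walks of `EvenOrders` -/
theorem good_walk {m u e : ℕ} (hm : 1 ≤ m) (hu : u.Prime) (hu2 : u ≠ 2) (he : e ∣ 2 ^ m - 1) (heu : u + 2 ≤ e)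
    (hd : ¬ u ∣ e) : Good (u * m) := by
  haveI : NeZero e := ⟨by omega⟩
  have h2 : 2 ≤ 2 ^ m := by
    calc 2 = 2 ^ 1 := by norm_num
      _ ≤ 2 ^ m := Nat.pow_le_pow_right (by norm_num) hm
  have hu3 : 2 ≤ u := hu.two_le
  obtain ⟨N, hN⟩ : e ∣ 2 ^ (u * m) - 1 := by
    refine he.trans ?_
    rw [mul_comm u m, pow_mul]
    exact Nat.sub_one_dvd_pow_sub_one (2 ^ m) u
  refine ⟨e, N, inferInstance, hN.symm, ?_, ?_⟩
  · have h3 : e < 2 ^ m := by
      have := Nat.le_of_dvd (by omega) he
      omega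
    calc e * e < 2 ^ m * 2 ^ m := Nat.mul_lt_mul_of_lt_of_lt h3 h3
      _ = 2 ^ (2 * m) := by rw [← pow_add]; congr 1; ring
      _ ≤ 2 ^ (u * m) := Nat.pow_le_pow_right (by norm_num) (Nat.mul_le_mul_right _ hu3)
  · intro F _ _ _ hcard
    obtain ⟨a, c, b, E, W, hE, hgen⟩ := exists_walk F hm hu hu2 he heu hd hcard
    refine ⟨a, c, b, c (a + 1), c (a ^ (1 + 2 ^ m) + 1), E, ?_, hE, hgen, ?_⟩
    · exact { ha0 := W.ha0, hc := W.hc, ha := W.ha, two := W.two, b_ne := W.b_ne, b_ne_one := W.b_ne_one, c_b := W.c_b, c_b_one := W.c_b_one, pair_ne_one := W.pair_ne_one, c_pair := W.c_pair }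
    · intro hid
      apply W.no_identity
      intro y hy
      have e1 : y + f c b y = (b (c y) + 1) * y := by unfold f; ring
      have e2 : c ((b (c y) + 1) * y) = c y + c (a + 1) := by
        rw [W.c_mul (W.add_one_ne (W.b_ne_one _)) hy, W.c_b_one, add_comm]
      have e3 : f c b ((b (c y) + 1) * y) = b (c y + c (a + 1)) * ((b (c y) + 1) * y) := by
        show b (c ((b (c y) + 1) * y)) * _ = _
        rw [e2]
      rw [e1, e3, W.f_f]
      have e4 : f c b y = b (c y) * y := rfl
      rw [e4]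
      have h5 := hid (c y)
      linear_combination y * h5

theorem good_count {k e N : ℕ} (he3 : 3 ≤ e) (hN : e * N = 2 ^ k - 1) (hee : e * e < 2 ^ k)
    (hbig : (e : ℝ) ^ 2 * (1 + 2 ^ N.primeFactors.card * Real.sqrt (2 * (2 ^ k : ℕ))) < N.totient) : Good k := by
  haveI : NeZero e := ⟨by omega⟩
  refine ⟨e, N, inferInstance, hN, hee, fun F _ _ _ hcard => ?_⟩
  refine exists_gw2 F he3 (by rw [hcard, hN]) ?_
  rw [hcard]
  exact hbig

theorem good_explicit {k e : ℕ} (he3 : 3 ≤ e) (hek : e ∣ 2 ^ k - 1) (h : 20736 * e ^ 11 + 3 ≤ 2 ^ k) : Good k := by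
  obtain ⟨N, hN⟩ := hek
  have hk0 : k ≠ 0 := by
    rintro rfl
    have : 0 < e ^ 11 := by positivity
    omega
  obtain ⟨l, rfl⟩ := Nat.exists_eq_succ_of_ne_zero hk0
  have hodd : N % 2 = 1 := by
    by_contra h2
    have h3 : N % 2 = 0 := by omega
    obtain ⟨r, rfl⟩ := Nat.dvd_of_mod_eq_zero h3
    have h4 : 2 ^ (l.succ) = 2 * 2 ^ l := by rw [Nat.succ_eq_add_one, pow_succ, mul_comm]
    have h5 : e * (2 * r) = 2 * (e * r) := by ring
    have := Nat.one_le_two_pow (n := l)
    omega
  refine good_count he3 hN.symm ?_ (omg3 h (by omega) hN.symm hodd)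
  have h6 : e * e ≤ e ^ 11 := by
    calc e * e = e ^ 2 := by ring
      _ ≤ e ^ 11 := Nat.pow_le_pow_right (by omega) (by norm_num)
  omega

theorem good_large : ∃ k0 : ℕ, ∀ k e : ℕ, k0 ≤ k → 3 ≤ e → e ∣ 2 ^ k - 1 → e ^ 7 ≤ 2 ^ k → Good k := by
  obtain ⟨q0, hq0⟩ := omg
  refine ⟨q0 + 1, fun k e hk he3 hek he7 => ?_⟩
  obtain ⟨N, hN⟩ := hek
  have h6 : k < 2 ^ k := Nat.lt_two_pow_self
  have hee : e * e < 2 ^ k := by
    refine lt_of_lt_of_le ?_ he7
    calc e * e = e ^ 2 := by ring
      _ < e ^ 7 := Nat.pow_lt_pow_right (by omega) (by norm_num)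
  exact good_count he3 hN.symm hee (hq0 (2 ^ k) e N (by omega) (by omega) hN.symm he7)

theorem prime_two {p a b : ℕ} (ha : a.Prime) (hb : b.Prime) (hp : p.Prime) (h : p ∣ a * b) : p = a ∨ p = b := by
  rcases (hp.dvd_mul).1 h with h | h
  · exact Or.inl ((Nat.prime_dvd_prime_iff_eq hp ha).1 h)
  · exact Or.inr ((Nat.prime_dvd_prime_iff_eq hp hb).1 h)

theorem good_chk {k f N x y : ℕ} {ps : List ℕ} (h : chk k f N x y ps = true) (hps : ∀ p : ℕ, p.Prime → p ∣ N → p ∈ ps)
    (hN : 3 * N = 2 ^ k - 1) (hee : 3 * 3 < 2 ^ k) : Good k :=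
  ⟨3, N, inferInstance, hN, hee, fun F _ _ _ hcard => of_chk h hps F hcard⟩

theorem good6 : Good 6 := by
  refine good_chk (k := 6) (f := 67) (N := 21) (x := 6) (y := 30) (ps := [3, 7]) (by decide +kernel) ?_ (by norm_num) (by norm_num)
  intro p hp h
  have := prime_two (a := 3) (b := 7) (by norm_num) (by norm_num) hp h
  simpa using this

theorem good8 : Good 8 := by
  refine good_chk (k := 8) (f := 285) (N := 85) (x := 2) (y := 128) (ps := [5, 17]) (by decide +kernel) ?_ (by norm_num) (by norm_num)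
  intro p hp h
  have := prime_two (a := 5) (b := 17) (by norm_num) (by norm_num) hp h
  simpa using this

theorem good10 : Good 10 := by
  refine good_chk (k := 10) (f := 1033) (N := 341) (x := 2) (y := 641) (ps := [11, 31]) (by decide +kernel) ?_ (by norm_num) (by norm_num)
  intro p hp h
  have := prime_two (a := 11) (b := 31) (by norm_num) (by norm_num) hp h
  simpa using this

theorem good14 : Good 14 := by
  refine good_chk (k := 14) (f := 16427) (N := 5461) (x := 2) (y := 16) (ps := [43, 127]) (by decide +kernel) ?_ (by norm_num) (by norm_num)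
  intro p hp h
  have := prime_two (a := 43) (b := 127) (by norm_num) (by norm_num) hp h
  simpa using this

theorem good16 : Good 16 := by
  refine good_chk (k := 16) (f := 65581) (N := 21845) (x := 2) (y := 128) (ps := [5, 17, 257]) (by decide +kernel) ?_ (by norm_num) (by norm_num)
  intro p hp h
  have h1 : p ∣ 5 * (17 * 257) := h
  rcases (hp.dvd_mul).1 h1 with h2 | h2
  · have := (Nat.prime_dvd_prime_iff_eq hp (by norm_num)).1 h2
    simp [this]
  · rcases prime_two (a := 17) (b := 257) (by norm_num) (by norm_num) hp h2 with h3 | h3 <;> simp [h3]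

theorem good_three {m : ℕ} (hm : 3 ≤ m) : Good (3 * m) := by
  obtain ⟨e, he, he5, he3⟩ := exists_divisor hm
  exact good_walk (by omega) Nat.prime_three (by norm_num) he (by omega) he3

theorem good_even {k : ℕ} (hk : 6 ≤ k) (h2 : 2 ∣ k) : Good k := by
  by_cases h32 : 32 ≤ k
  · obtain ⟨m, rfl⟩ := h2
    refine good_explicit (e := 3) (by norm_num) ?_ ?_
    · rw [pow_mul]
      exact Nat.sub_one_dvd_pow_sub_one (2 ^ 2) m
    · calc 20736 * 3 ^ 11 + 3 ≤ 2 ^ 32 := by norm_num
        _ ≤ 2 ^ (2 * m) := Nat.pow_le_pow_right (by norm_num) h32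
  · obtain ⟨m, rfl⟩ := h2
    have hm3 : 3 ≤ m := by omega
    have hm16 : m < 16 := by omega
    interval_cases m
    · exact good6
    · exact good8
    · exact good10
    · exact good_three (m := 4) (by norm_num)
    · exact good14
    · exact good16
    · exact good_three (m := 6) (by norm_num)
    · exact good_count (k := 20) (e := 3) (N := 349525) (by norm_num) (by norm_num) (by norm_num) (by exact_mod_cast case20)
    · exact good_count (k := 22) (e := 3) (N := 1398101) (by norm_num) (by norm_num) (by norm_num) (by exact_mod_cast case22)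
    · exact good_three (m := 8) (by norm_num)
    · exact good_count (k := 26) (e := 3) (N := 22369621) (by norm_num) (by norm_num) (by norm_num) (by exact_mod_cast case26)
    · exact good_count (k := 28) (e := 3) (N := 89478485) (by norm_num) (by norm_num) (by norm_num) (by exact_mod_cast case28)
    · exact good_three (m := 10) (by norm_num)

/-- all composite exponents but `4` -/
theorem good_composite {k : ℕ} (hk : 5 ≤ k) (hp : ¬ k.Prime) : Good k := by
  by_cases h2 : 2 ∣ k
  · refine good_even ?_ h2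
    rcases Nat.lt_or_ge k 6 with h | h
    · exfalso
      have : k = 5 := by omega
      rw [this] at hp
      exact hp (by norm_num)
    · exact h
  have hd1 : k.minFac ∣ k := Nat.minFac_dvd k
  have hdp : k.minFac.Prime := Nat.minFac_prime (by omega)
  have hdd : k.minFac ^ 2 ≤ k := Nat.minFac_sq_le_self (by omega) hp
  have hmin : ∀ l, 2 ≤ l → l ∣ k → k.minFac ≤ l := fun l hl hlk => Nat.minFac_le_of_dvd hl hlk
  set d := k.minFac with hd
  have hd2 : d ≠ 2 := by
    intro h
    rw [h] at hd1
    exact h2 hd1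
  by_cases hbig : 11 * d + 15 ≤ k
  · have h8 : 4 ≤ 2 ^ d := by
      calc 4 = 2 ^ 2 := by norm_num
        _ ≤ 2 ^ d := Nat.pow_le_pow_right (by norm_num) hdp.two_le
    refine good_explicit (e := 2 ^ d - 1) (by omega) (Nat.pow_sub_one_dvd_pow_sub_one 2 hd1) ?_
    have h9 : (2 ^ d - 1) ^ 11 ≤ 2 ^ (11 * d) := by
      calc (2 ^ d - 1) ^ 11 ≤ (2 ^ d) ^ 11 := Nat.pow_le_pow_left (by omega) 11
        _ = 2 ^ (11 * d) := by rw [← pow_mul, mul_comm]
    have h10 : 2 ^ (11 * d + 15) ≤ 2 ^ k := Nat.pow_le_pow_right (by norm_num) hbig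
    have h11 : 2 ^ (11 * d + 15) = 32768 * 2 ^ (11 * d) := by rw [pow_add]; norm_num; ring
    have h12 : 1 ≤ 2 ^ (11 * d) := Nat.one_le_two_pow
    omega
  · obtain ⟨m, hm⟩ := hd1
    have hd3 : 3 ≤ d := by
      have := hdp.two_le
      omega
    have hd12 : d ≤ 12 := by
      by_contra h
      nlinarith
    have hdm : d ≤ m := by nlinarith
    by_cases h3 : d = 3
    · rw [hm, h3]
      exact good_three (by omega)
    have hk3 : ¬ 3 ∣ k := fun h => by
      have := hmin 3 (by norm_num) h
      omega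
    have hkp : ¬ 2 ∣ k := h2
    have h5 : d = 5 ∨ d = 7 ∨ d = 11 := by
      have h13 := hdp
      clear_value d
      interval_cases d
      · omega
      · exact absurd h13 (by norm_num)
      · omega
      · exact absurd h13 (by norm_num)
      · omega
      · exact absurd h13 (by norm_num)
      · exact absurd h13 (by norm_num)
      · exact absurd h13 (by norm_num)
      · omega
      · exact absurd h13 (by norm_num)
    clear_value d
    rcases h5 with rfl | rfl | rfl
    · have h14 : m = 5 ∨ m = 7 ∨ m = 11 ∨ m = 13 := by omega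
      rcases h14 with rfl | rfl | rfl | rfl
      · rw [hm]; exact good_walk (u := 5) (m := 5) (e := 31) (by norm_num) (by norm_num) (by norm_num) (by norm_num) (by norm_num) (by norm_num)
      · rw [hm]; exact good_walk (u := 7) (m := 5) (e := 31) (by norm_num) (by norm_num) (by norm_num) (by norm_num) (by norm_num) (by norm_num)
      · rw [hm]; exact good_walk (u := 11) (m := 5) (e := 31) (by norm_num) (by norm_num) (by norm_num) (by norm_num) (by norm_num) (by norm_num)
      · rw [hm]; exact good_walk (u := 13) (m := 5) (e := 31) (by norm_num) (by norm_num) (by norm_num) (by norm_num) (by norm_num) (by norm_num)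
    · have h14 : m = 7 ∨ m = 11 ∨ m = 13 := by omega
      rcases h14 with rfl | rfl | rfl
      · rw [hm]; exact good_walk (u := 7) (m := 7) (e := 127) (by norm_num) (by norm_num) (by norm_num) (by norm_num) (by norm_num) (by norm_num)
      · rw [hm]; exact good_walk (u := 11) (m := 7) (e := 127) (by norm_num) (by norm_num) (by norm_num) (by norm_num) (by norm_num) (by norm_num)
      · rw [hm]; exact good_walk (u := 13) (m := 7) (e := 127) (by norm_num) (by norm_num) (by norm_num) (by norm_num) (by norm_num) (by norm_num)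
    · have h14 : m = 11 := by omega
      subst h14
      rw [hm]; exact good_walk (u := 11) (m := 11) (e := 2047) (by norm_num) (by norm_num) (by norm_num) (by norm_num) (by norm_num) (by norm_num)

end Pool.Agent.H90.DE
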