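import Mathlib

/-!
# The bilinear bound (MP_2f0703_co, helper90)

FRAME. Proof. `q = Fintype.card F`. By Cauchy-Schwarz in `x` the left side is at most
`(∑ x, ‖α x‖ ^ 2) * ∑ x, ‖∑ y, β y * χ (x * y + 1)‖ ^ 2`. The last sum is (expand `‖z‖ ^ 2 = z * conj z`, exchange the sums)
`∑ y, ∑ y', β y * conj (β y') * ∑ x, χ (x * y + 1) * conj (χ (x * y' + 1))`. For `y = y'` the inner sum has norm at most `q`. For `y ≠ y'` it
has norm at most `1`: if `y' = 0` it is `∑ x, χ (x * y + 1) = 0` (a bijection, `y ≠ 0`, `MulChar.sum_eq_zero_of_ne_one`), similarly for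
`y = 0`; if both are not `0`, then `conj (χ u) = χ u⁻¹` and `x ↦ (x y + 1) / (x y' + 1)` is injective on `x y' + 1 ≠ 0` with all values
except `y / y'`, so the sum is `- χ (y / y')`. (Values of a `MulChar` into `ℂ`: `MulChar.star_apply'`, `DirichletCharacter.norm_le_one`-like:
a unit has finite order, so its value has norm one; a non unit has value `0`.) In all: at most
`q * ∑ y, ‖β y‖ ^ 2 + (∑ y, ‖β y‖) ^ 2`.
-/

set_option autoImplicit false

namespace Pool.Agent.H90.DE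

private theorem bil_conj {F : Type} [Field F] [Fintype F] (χ : MulChar F ℂ) (u : F) :
    (starRingEnd ℂ) (χ u) = χ u⁻¹ := by
  have h := MulChar.star_apply' χ u
  rw [MulChar.inv_apply'] at h
  exact h

private theorem bil_norm {F : Type} [Field F] [Fintype F] (χ : MulChar F ℂ) (u : F) : ‖χ u‖ ≤ 1 := by
  by_cases hu : u = 0
  · rw [hu, MulChar.map_zero, norm_zero]
    exact zero_le_one
  · have h1 : χ u * (starRingEnd ℂ) (χ u) = 1 := by
      rw [bil_conj, ← map_mul, mul_inv_cancel₀ hu, map_one]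
    rw [Complex.mul_conj, Complex.normSq_eq_norm_sq] at h1
    have h2 : ‖χ u‖ ^ 2 = 1 := by exact_mod_cast h1
    nlinarith [norm_nonneg (χ u)]

private theorem bil_off {F : Type} [Field F] [Fintype F] (χ : MulChar F ℂ) (hχ : χ ≠ 1) (y y' : F) (hyy : y ≠ y') :
    ‖∑ x, χ (x * y + 1) * (starRingEnd ℂ) (χ (x * y' + 1))‖ ≤ 1 := by
  classical
  have h0 : ∀ x, χ (x * y + 1) * (starRingEnd ℂ) (χ (x * y' + 1)) = χ ((x * y + 1) / (x * y' + 1)) := by
    intro x
    rw [bil_conj, ← map_mul, div_eq_mul_inv]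
  simp only [h0]
  by_cases hy' : y' = 0
  · subst hy'
    have h1 : ∑ x, χ ((x * y + 1) / (x * 0 + 1)) = ∑ x, χ x := by
      simp only [mul_zero, zero_add, div_one]
      exact Fintype.sum_equiv ((Equiv.mulRight₀ y hyy).trans (Equiv.addRight 1)) _ _ (fun x => rfl)
    rw [h1, MulChar.sum_eq_zero_of_ne_one hχ, norm_zero]
    exact zero_le_one
  · have h1 : ∑ x, χ ((x * y + 1) / (x * y' + 1)) =
        ∑ x ∈ Finset.univ.filter (fun x => x * y' + 1 ≠ 0), χ ((x * y + 1) / (x * y' + 1)) := by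
      rw [Finset.sum_filter]
      refine Finset.sum_congr rfl fun x _ => ?_
      by_cases hx : x * y' + 1 = 0
      · rw [if_neg (not_not.2 hx), hx, div_zero, MulChar.map_zero]
      · rw [if_pos hx]
    have hden : ∀ w, w ≠ y / y' → w * y' - y ≠ 0 := by
      intro w hw h
      apply hw
      rw [eq_div_iff hy']
      exact sub_eq_zero.1 h
    have h2 : ∑ x ∈ Finset.univ.filter (fun x => x * y' + 1 ≠ 0), χ ((x * y + 1) / (x * y' + 1)) =
        ∑ w ∈ Finset.univ.erase (y / y'), χ w := by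
      refine Finset.sum_nbij' (fun x => (x * y + 1) / (x * y' + 1)) (fun w => (1 - w) / (w * y' - y)) ?_ ?_ ?_ ?_ ?_
      · intro x hx
        have hx' : x * y' + 1 ≠ 0 := (Finset.mem_filter.1 hx).2
        refine Finset.mem_erase.2 ⟨fun h => hyy ?_, Finset.mem_univ _⟩
        rw [div_eq_div_iff hx' hy'] at h
        linear_combination -h
      · intro w hw
        have hw' := hden w (Finset.ne_of_mem_erase hw)
        refine Finset.mem_filter.2 ⟨Finset.mem_univ _, ?_⟩
        have h3 : (1 - w) / (w * y' - y) * y' + 1 = (y' - y) / (w * y' - y) := by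
          field_simp
          ring
        rw [h3]
        exact div_ne_zero (sub_ne_zero.2 (Ne.symm hyy)) hw'
      · intro x hx
        have hx' : x * y' + 1 ≠ 0 := (Finset.mem_filter.1 hx).2
        have h3 : (x * y + 1) / (x * y' + 1) * y' - y = (y' - y) / (x * y' + 1) := by
          field_simp
          ring
        have h4 : y' - y ≠ 0 := sub_ne_zero.2 (Ne.symm hyy)
        show (1 - (x * y + 1) / (x * y' + 1)) / ((x * y + 1) / (x * y' + 1) * y' - y) = x
        rw [h3, div_eq_iff (div_ne_zero h4 hx')]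
        field_simp
        ring
      · intro w hw
        have hw' := hden w (Finset.ne_of_mem_erase hw)
        have h3 : (1 - w) / (w * y' - y) * y' + 1 = (y' - y) / (w * y' - y) := by
          field_simp
          ring
        have h4 : y' - y ≠ 0 := sub_ne_zero.2 (Ne.symm hyy)
        show ((1 - w) / (w * y' - y) * y + 1) / ((1 - w) / (w * y' - y) * y' + 1) = w
        rw [h3, div_eq_iff (div_ne_zero h4 hw')]
        field_simp
        ring
      · intro x _
        rfl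
    have h3 := Finset.add_sum_erase Finset.univ (fun w => χ w) (Finset.mem_univ (y / y'))
    rw [MulChar.sum_eq_zero_of_ne_one hχ] at h3
    have h4 : ∑ w ∈ Finset.univ.erase (y / y'), χ w = - χ (y / y') := by
      linear_combination h3
    rw [h1, h2, h4, norm_neg]
    exact bil_norm χ _

private theorem bil_all {F : Type} [Field F] [Fintype F] [DecidableEq F] (χ : MulChar F ℂ) (hχ : χ ≠ 1) (y y' : F) :
    ‖∑ x, χ (x * y + 1) * (starRingEnd ℂ) (χ (x * y' + 1))‖ ≤ (if y = y' then (Fintype.card F : ℝ) else 0) + 1 := by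
  by_cases h : y = y'
  · rw [if_pos h]
    refine (norm_sum_le _ _).trans ?_
    have h1 : ∀ x ∈ (Finset.univ : Finset F), ‖χ (x * y + 1) * (starRingEnd ℂ) (χ (x * y' + 1))‖ ≤ 1 := by
      intro x _
      rw [norm_mul, RCLike.norm_conj]
      exact mul_le_one₀ (bil_norm χ _) (norm_nonneg _) (bil_norm χ _)
    have h2 := Finset.sum_le_card_nsmul _ _ _ h1
    rw [Finset.card_univ, nsmul_eq_mul, mul_one] at h2
    linarith
  · rw [if_neg h, zero_add]
    exact bil_off χ hχ y y' h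

private theorem bil_sq {F : Type} [Field F] [Fintype F] (χ : MulChar F ℂ) (hχ : χ ≠ 1) (β : F → ℂ) :
    ∑ x, ‖∑ y, β y * χ (x * y + 1)‖ ^ 2 ≤ (Fintype.card F : ℝ) * ∑ y, ‖β y‖ ^ 2 + (∑ y, ‖β y‖) ^ 2 := by
  classical
  have h1 : ((∑ x, ‖∑ y, β y * χ (x * y + 1)‖ ^ 2 : ℝ) : ℂ) =
      ∑ y, ∑ y', β y * (starRingEnd ℂ) (β y') * ∑ x, χ (x * y + 1) * (starRingEnd ℂ) (χ (x * y' + 1)) := by
    have h2 : ∀ x, ((‖∑ y, β y * χ (x * y + 1)‖ ^ 2 : ℝ) : ℂ) =
        ∑ y, ∑ y', β y * (starRingEnd ℂ) (β y') * (χ (x * y + 1) * (starRingEnd ℂ) (χ (x * y' + 1))) := by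
      intro x
      rw [← Complex.normSq_eq_norm_sq, ← Complex.mul_conj, map_sum, Finset.sum_mul_sum]
      refine Finset.sum_congr rfl fun y _ => Finset.sum_congr rfl fun y' _ => ?_
      rw [map_mul]
      ring
    rw [Complex.ofReal_sum, Finset.sum_congr rfl fun x _ => h2 x, Finset.sum_comm]
    refine Finset.sum_congr rfl fun y _ => ?_
    rw [Finset.sum_comm]
    refine Finset.sum_congr rfl fun y' _ => ?_
    rw [Finset.mul_sum]
  have h3 : ∑ x, ‖∑ y, β y * χ (x * y + 1)‖ ^ 2 = ‖((∑ x, ‖∑ y, β y * χ (x * y + 1)‖ ^ 2 : ℝ) : ℂ)‖ := by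
    rw [Complex.norm_real, Real.norm_eq_abs, abs_of_nonneg]
    exact Finset.sum_nonneg fun x _ => by positivity
  rw [h3, h1]
  calc ‖∑ y, ∑ y', β y * (starRingEnd ℂ) (β y') * ∑ x, χ (x * y + 1) * (starRingEnd ℂ) (χ (x * y' + 1))‖
      ≤ ∑ y, ∑ y', ‖β y‖ * ‖β y'‖ * ((if y = y' then (Fintype.card F : ℝ) else 0) + 1) := by
        refine (norm_sum_le _ _).trans (Finset.sum_le_sum fun y _ => (norm_sum_le _ _).trans
          (Finset.sum_le_sum fun y' _ => ?_))
        rw [norm_mul, norm_mul, RCLike.norm_conj]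
        exact mul_le_mul_of_nonneg_left (bil_all χ hχ y y') (by positivity)
    _ = (Fintype.card F : ℝ) * ∑ y, ‖β y‖ ^ 2 + (∑ y, ‖β y‖) ^ 2 := by
        rw [sq (∑ y, ‖β y‖), Finset.sum_mul_sum, Finset.mul_sum, ← Finset.sum_add_distrib]
        refine Finset.sum_congr rfl fun y _ => ?_
        have h4 : ∀ y', ‖β y‖ * ‖β y'‖ * ((if y = y' then (Fintype.card F : ℝ) else 0) + 1) =
            (if y = y' then (Fintype.card F : ℝ) * (‖β y‖ * ‖β y'‖) else 0) + ‖β y‖ * ‖β y'‖ := by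
          intro y'
          by_cases h : y = y'
          · rw [if_pos h, if_pos h]; ring
          · rw [if_neg h, if_neg h]; ring
        rw [Finset.sum_congr rfl fun y' _ => h4 y', Finset.sum_add_distrib, Finset.sum_ite_eq,
          if_pos (Finset.mem_univ y), sq]

theorem bil {F : Type} [Field F] [Fintype F] (χ : MulChar F ℂ) (hχ : χ ≠ 1) (α β : F → ℂ) :
    ‖∑ x, ∑ y, α x * β y * χ (x * y + 1)‖ ^ 2 ≤
      (∑ x, ‖α x‖ ^ 2) * ((Fintype.card F : ℝ) * ∑ y, ‖β y‖ ^ 2 + (∑ y, ‖β y‖) ^ 2) := by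
  have h1 : ∑ x, ∑ y, α x * β y * χ (x * y + 1) = ∑ x, α x * ∑ y, β y * χ (x * y + 1) := by
    refine Finset.sum_congr rfl fun x _ => ?_
    rw [Finset.mul_sum]
    exact Finset.sum_congr rfl fun y _ => by ring
  have h2 : ‖∑ x, α x * ∑ y, β y * χ (x * y + 1)‖ ≤ ∑ x, ‖α x‖ * ‖∑ y, β y * χ (x * y + 1)‖ := by
    refine (norm_sum_le _ _).trans (le_of_eq (Finset.sum_congr rfl fun x _ => ?_))
    rw [norm_mul]
  rw [h1]
  calc ‖∑ x, α x * ∑ y, β y * χ (x * y + 1)‖ ^ 2 ≤ (∑ x, ‖α x‖ * ‖∑ y, β y * χ (x * y + 1)‖) ^ 2 :=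
        pow_le_pow_left₀ (norm_nonneg _) h2 2
    _ ≤ (∑ x, ‖α x‖ ^ 2) * ∑ x, ‖∑ y, β y * χ (x * y + 1)‖ ^ 2 := Finset.sum_mul_sq_le_sq_mul_sq _ _ _
    _ ≤ _ := mul_le_mul_of_nonneg_left (bil_sq χ hχ β) (Finset.sum_nonneg fun x _ => by positivity)

end Pool.Agent.H90.DE
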