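import Pool.Agent.H90.DE.Two

/-!
# The walk from a certificate, `e = 3` (MP_2f0703_co, helper90)
-/

set_option autoImplicit false

namespace Pool.Agent.H90.DE

open Finset

/-- the inverse primitive element -/
theorem Dat.inv {F : Type} [Field F] [Fintype F] {a : F} {e N : ℕ} {c : F → ZMod e} {θ : MulChar F ℂ}
    (D : Dat F a e N c θ) : Dat F a⁻¹ e N (fun x => - c x) θ := by
  have haN : a ^ (e * N) = 1 := (D.ha1 _).2 (dvd_refl _)
  have hpos : 0 < e * N := Nat.mul_pos D.he D.hN0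
  have hinv : ∀ s : ℕ, a⁻¹ ^ s = a ^ ((e * N - 1) * s) := by
    intro s
    rw [pow_mul]
    congr 1
    symm
    apply eq_inv_of_mul_eq_one_left
    rw [← pow_succ, Nat.sub_add_cancel hpos, haN]
  refine ⟨inv_ne_zero D.ha0, ?_, ?_, D.he, D.hN0, D.hN, ?_, ?_⟩
  · intro x hx
    obtain ⟨s, hs⟩ := D.ha x⁻¹ (inv_ne_zero hx)
    refine ⟨s, ?_⟩
    rw [inv_pow, ← hs, inv_inv]
  · intro s
    show - c (a⁻¹ ^ s) = s
    rw [hinv, D.hc]
    push_cast
    rw [Nat.cast_sub hpos]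
    push_cast
    rw [ZMod.natCast_self]
    ring
  · intro s
    rw [inv_pow, inv_eq_one, D.ha1]
  · intro s
    have h1 : θ a⁻¹ = (θ a)⁻¹ := by
      apply eq_inv_of_mul_eq_one_left
      rw [← map_mul, inv_mul_cancel₀ D.ha0, map_one]
    rw [h1, inv_pow, inv_eq_one, D.hθ]

theorem cert (F : Type) [Field F] [Fintype F] [CharP F 2] {N : ℕ} (hN : 3 * N = Fintype.card F - 1) (x y w : F)
    (hw : w ^ 2 + w + 1 = 0) (hx : x ^ N = w) (hy : y ^ N = w) (hx1 : x + 1 ≠ 0) (h1 : (x + 1) ^ N = (y + 1) ^ N)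
    (h2 : (x * y + 1) ^ N = ((x + 1) ^ N) ^ 2) (hxy : x ≠ y) (hp : ∀ p : ℕ, p.Prime → p ∣ N → (x ^ 2 * y) ^ (N / p) ≠ 1) :
    ∃ (a : F) (c : F → ZMod 3) (b : ZMod 3 → F) (γ δ : ZMod 3) (E : ℕ), GW F a 3 c b γ δ ∧ ∏ i, b i = a ^ E ∧
      (∀ M : ℕ, 3 ∣ M → ∃ k : ℕ, (a ^ E) ^ k = a ^ M) ∧
      ¬ ∀ i : ZMod 3, b (i + γ) * (1 + b i) = b i * (1 + b (i + 1)) := by
  have two : (2 : F) = 0 := by
    have := CharP.cast_eq_zero F 2
    exact_mod_cast this
  have key : ∀ (a : F) (c : F → ZMod 3) (θ : MulChar F ℂ), Dat F a 3 N c θ → a ^ N = w →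
      ∃ (a : F) (c : F → ZMod 3) (b : ZMod 3 → F) (γ δ : ZMod 3) (E : ℕ), GW F a 3 c b γ δ ∧ ∏ i, b i = a ^ E ∧
      (∀ M : ℕ, 3 ∣ M → ∃ k : ℕ, (a ^ E) ^ k = a ^ M) ∧
      ¬ ∀ i : ZMod 3, b (i + γ) * (1 + b i) = b i * (1 + b (i + 1)) := by
    intro a c θ D haw
    have hN0 := D.hN0
    -- equal powers give equal classes
    have hcl : ∀ u v : F, u ≠ 0 → v ≠ 0 → u ^ N = v ^ N → c u = c v := by
      intro u v hu hv huv
      obtain ⟨s, rfl⟩ := D.ha u hu
      obtain ⟨t, rfl⟩ := D.ha v hv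
      rw [D.hc, D.hc]
      have hgen : ∀ s t : ℕ, s ≤ t → a ^ (s * N) = a ^ (t * N) → (s : ZMod 3) = t := by
        intro s t hst h
        have h3 : a ^ ((t - s) * N) = 1 := by
          have h4 : a ^ (s * N) * a ^ ((t - s) * N) = a ^ (s * N) * 1 := by
            rw [← pow_add, ← add_mul, Nat.add_sub_cancel' hst, mul_one, h]
          exact mul_left_cancel₀ (pow_ne_zero _ D.ha0) h4
        have h5 := (D.ha1 _).1 h3
        have h6 : 3 ∣ t - s := Nat.dvd_of_mul_dvd_mul_right hN0 h5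
        have h7 := (ZMod.natCast_eq_zero_iff (t - s) 3).2 h6
        rw [Nat.cast_sub hst] at h7
        exact (sub_eq_zero.1 h7).symm
      rw [← pow_mul, ← pow_mul] at huv
      rcases le_total s t with h | h
      · exact hgen s t h huv
      · exact (hgen t s h huv.symm).symm
    have hw0 : w ≠ 0 := by
      rintro rfl
      rw [zero_pow (by norm_num), add_zero, zero_add] at hw
      exact one_ne_zero hw
    have hx0 : x ≠ 0 := by
      rintro rfl
      rw [zero_pow (by omega)] at hx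
      exact hw0 hx.symm
    have hy0 : y ≠ 0 := by
      rintro rfl
      rw [zero_pow (by omega)] at hy
      exact hw0 hy.symm
    have hy1 : y + 1 ≠ 0 := by
      intro h
      rw [h, zero_pow (by omega)] at h1
      exact pow_ne_zero _ hx1 h1
    have hxy1 : x * y + 1 ≠ 0 := by
      intro h
      rw [h, zero_pow (by omega)] at h2
      exact pow_ne_zero _ (pow_ne_zero _ hx1) h2.symm
    have hca : c a = 1 := by
      have := D.hc 1
      rwa [pow_one, Nat.cast_one] at this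
    have hcx : c x = 1 := by rw [hcl x a hx0 D.ha0 (by rw [hx, haw]), hca]
    have hcy : c y = 1 := by rw [hcl y a hy0 D.ha0 (by rw [hy, haw]), hca]
    refine D.gw two (by norm_num) (γ := c (x + 1)) (x := x) (y := y) (mem_setA.2 ⟨hx0, hcx, hx1, rfl⟩)
      (mem_setA.2 ⟨hy0, hcy, hy1, hcl _ _ hy1 hx1 h1.symm⟩) hxy ?_ ?_
    · rw [hcl (x * y + 1) ((x + 1) * (x + 1)) hxy1 (mul_ne_zero hx1 hx1) (by rw [h2, mul_pow]; ring), D.c_mul hx1 hx1]
      ring
    · intro S hS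
      have hcS : (S : ZMod 3) = 0 := by
        rw [← D.hc, ← hS]
        show c (x ^ 2 * y) = 0
        rw [D.c_mul (pow_ne_zero _ hx0) hy0, pow_two, D.c_mul hx0 hx0, hcx, hcy]
        decide
      obtain ⟨S', rfl⟩ := (ZMod.natCast_eq_zero_iff _ _).1 hcS
      rw [Nat.mul_div_cancel_left _ (by norm_num)]
      by_contra hco
      obtain ⟨p, hpp, hpS, hpN⟩ := Nat.Prime.not_coprime_iff_dvd.1 hco
      apply hp p hpp hpN
      have hS' : x ^ 2 * y = a ^ (3 * S') := hS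
      rw [hS', ← pow_mul, D.ha1]
      obtain ⟨u, rfl⟩ := hpS
      obtain ⟨v, rfl⟩ := hpN
      rw [Nat.mul_div_cancel_left _ hpp.pos]
      exact ⟨u, by ring⟩
  obtain ⟨a, c, θ, D⟩ := exists_dat F (e := 3) (N := N) (by norm_num) hN
  have haN : a ^ (3 * N) = 1 := (D.ha1 _).2 (dvd_refl _)
  have hz3 : (a ^ N) ^ 3 = 1 := by rw [← pow_mul, mul_comm N 3, haN]
  have hz1 : a ^ N ≠ 1 := by
    intro h
    have h3 := (D.ha1 _).1 h
    have h4 := Nat.le_of_dvd D.hN0 h3
    have := D.hN0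
    omega
  have hfac : (a ^ N - w) * (a ^ N - w ^ 2) = 0 := by
    have h5 : (a ^ N - 1) * ((a ^ N) ^ 2 + a ^ N + 1) = 0 := by linear_combination hz3
    have h6 : (a ^ N) ^ 2 + a ^ N + 1 = 0 := by
      rcases mul_eq_zero.1 h5 with h | h
      · exact absurd (sub_eq_zero.1 h) hz1
      · exact h
    have hw3 : w ^ 3 = 1 := by linear_combination (w - 1) * hw
    linear_combination h6 - (a ^ N) * hw + hw3
  rcases mul_eq_zero.1 hfac with h | h
  · exact key a c θ D (sub_eq_zero.1 h)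
  · refine key a⁻¹ _ θ D.inv ?_
    have hw3 : w ^ 3 = 1 := by linear_combination (w - 1) * hw
    rw [inv_pow, sub_eq_zero.1 h]
    have hw0 : w ≠ 0 := by
      rintro rfl
      rw [zero_pow (by norm_num), add_zero, zero_add] at hw
      exact one_ne_zero hw
    rw [inv_eq_iff_eq_inv]
    apply eq_inv_of_mul_eq_one_left
    linear_combination hw3

end Pool.Agent.H90.DE
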