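import Pool.Agent.H90.DE.Dat

/-!
# The indicator of the generators (MP_2f0703_co, helper90)

FRAME. For `f ∣ N` let `w = θ (a ^ S) ^ (N / f) = θ a ^ (S * (N / f))`; `w ^ f = 1` as `e ∣ S`, and `w = 1` iff `e * N ∣ S * (N / f)` iff `e * f ∣ S` iff
`f ∣ S / e`. So the inner sum is `f` if `f ∣ S / e` and `0` otherwise (geometric sum), and the whole sum is
`∑ f ∈ (Nat.gcd (S / e) N).divisors, μ f`, which is `1` if the gcd is `1` and `0` otherwise (`ArithmeticFunction.coe_moebius_mul_coe_zeta`,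
`ArithmeticFunction.coe_mul_zeta_apply`). Here `0 < N`, `0 < e`.
-/

set_option autoImplicit false

namespace Pool.Agent.H90.DE

open Finset

private theorem ig_geom {F : Type} [Field F] [Fintype F] {a : F} {e N : ℕ} {c : F → ZMod e} {θ : MulChar F ℂ}
    (D : Dat F a e N c θ) (t : ℕ) {f : ℕ} (hf : f ∣ N) :
    ∑ j ∈ range f, θ (a ^ (e * t)) ^ (N / f * j) = if f ∣ t then (f : ℂ) else 0 := by
  obtain ⟨m, hm⟩ := hf
  have hN := D.hN0
  have he := D.he
  have hf0 : 0 < f := Nat.pos_of_ne_zero fun h => by rw [h, zero_mul] at hm; omega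
  have hm0 : 0 < m := Nat.pos_of_ne_zero fun h => by rw [h, mul_zero] at hm; omega
  have hdiv : N / f = m := by rw [hm, Nat.mul_div_cancel_left _ hf0]
  have h1 : ∀ j, θ (a ^ (e * t)) ^ (N / f * j) = (θ a ^ (e * t * m)) ^ j := by
    intro j
    rw [hdiv, map_pow, ← pow_mul, ← pow_mul]
    congr 1
    ring
  simp only [h1]
  by_cases hft : f ∣ t
  · rw [if_pos hft]
    have h2 : θ a ^ (e * t * m) = 1 := by
      rw [D.hθ, hm, mul_assoc]
      exact Nat.mul_dvd_mul_left _ (Nat.mul_dvd_mul_right hft _)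
    simp [h2]
  · rw [if_neg hft]
    have h2 : θ a ^ (e * t * m) ≠ 1 := by
      rw [Ne, D.hθ, hm, mul_assoc]
      intro h3
      exact hft (Nat.dvd_of_mul_dvd_mul_right hm0 (Nat.dvd_of_mul_dvd_mul_left he h3))
    have h3 : (θ a ^ (e * t * m)) ^ f = 1 := by
      rw [← pow_mul, D.hθ, hm]
      exact ⟨t, by ring⟩
    rw [geom_sum_eq h2, h3, sub_self, zero_div]

theorem Dat.ind_gen {F : Type} [Field F] [Fintype F] {a : F} {e N : ℕ} {c : F → ZMod e} {θ : MulChar F ℂ}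
    (D : Dat F a e N c θ) {S : ℕ} (hS : e ∣ S) :
    ∑ f ∈ N.divisors, (ArithmeticFunction.moebius f : ℂ) / f * ∑ j ∈ range f, θ (a ^ S) ^ (N / f * j) =
      if Nat.Coprime (S / e) N then 1 else 0 := by
  obtain ⟨t, rfl⟩ := hS
  have hN := D.hN0
  rw [Nat.mul_div_cancel_left _ D.he]
  have h1 : ∀ f ∈ N.divisors, (ArithmeticFunction.moebius f : ℂ) / f *
      ∑ j ∈ range f, θ (a ^ (e * t)) ^ (N / f * j) = if f ∣ t then (ArithmeticFunction.moebius f : ℂ) else 0 := by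
    intro f hf
    have hf0 : (f : ℂ) ≠ 0 := by
      exact_mod_cast (Nat.pos_of_mem_divisors hf).ne'
    rw [ig_geom D t (Nat.dvd_of_mem_divisors hf)]
    by_cases hft : f ∣ t
    · rw [if_pos hft, if_pos hft, div_mul_cancel₀ _ hf0]
    · rw [if_neg hft, if_neg hft, mul_zero]
  rw [Finset.sum_congr rfl h1, ← Finset.sum_filter]
  have h2 : N.divisors.filter (fun f => f ∣ t) = (Nat.gcd t N).divisors := by
    ext f
    rw [Finset.mem_filter, Nat.mem_divisors, Nat.mem_divisors, Nat.dvd_gcd_iff]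
    constructor
    · rintro ⟨⟨h3, _⟩, h4⟩
      exact ⟨⟨h4, h3⟩, (Nat.gcd_pos_of_pos_right t hN).ne'⟩
    · rintro ⟨⟨h3, h4⟩, _⟩
      exact ⟨⟨h4, hN.ne'⟩, h3⟩
  rw [h2]
  have h3 : ∑ f ∈ (Nat.gcd t N).divisors, ArithmeticFunction.moebius f = if Nat.gcd t N = 1 then 1 else 0 := by
    rw [← ArithmeticFunction.coe_mul_zeta_apply, ArithmeticFunction.moebius_mul_coe_zeta, ArithmeticFunction.one_apply]
  have h4 : (∑ f ∈ (Nat.gcd t N).divisors, (ArithmeticFunction.moebius f : ℂ)) =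
      ((∑ f ∈ (Nat.gcd t N).divisors, ArithmeticFunction.moebius f : ℤ) : ℂ) := by
    push_cast
    rfl
  rw [h4, h3]
  by_cases h5 : Nat.gcd t N = 1
  · rw [if_pos h5, if_pos (Nat.coprime_iff_gcd_eq_one.2 h5), Int.cast_one]
  · rw [if_neg h5, if_neg (fun h6 => h5 (Nat.coprime_iff_gcd_eq_one.1 h6)), Int.cast_zero]

end Pool.Agent.H90.DE
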