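import Pool.Agent.H90.DE.Bil

/-!
# The Jacobi sum bound (MP_2f0703_co, helper90)

FRAME. Proof. Let `q = Fintype.card F`, `J = ∑ x, μ x * χ (x + 1)`. With `z = x * y` (for each `y ≠ 0`) one has
`∑ x, ∑ y, μ x * μ y * χ (x * y + 1) = (q - 1) * J` (terms with `y = 0` vanish, `μ x * μ y = μ (x * y)`). By `bil` with `α = β = μ` (norm one on
the `q - 1` units, `0` at `0`): `(q - 1) ^ 2 * ‖J‖ ^ 2 ≤ (q - 1) * (q * (q - 1) + (q - 1) ^ 2)`, so `‖J‖ ^ 2 ≤ 2 q - 1`. (Or use the Gauss or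
Jacobi sums of Mathlib.)
-/

set_option autoImplicit false

namespace Pool.Agent.H90.DE

private theorem jac_norm {F : Type} [Field F] [Fintype F] [DecidableEq F] (μ : MulChar F ℂ) (a : F) :
    ‖μ a‖ ≤ if a = 0 then 0 else 1 := by
  split_ifs with ha
  · subst ha
    rw [MulChar.map_zero, norm_zero]
  · have h1 : μ a ^ (Fintype.card F - 1) = 1 := by
      rw [← map_pow, FiniteField.pow_card_sub_one_eq_one a ha, map_one]
    have h2 : Fintype.card F - 1 ≠ 0 := by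
      have := Fintype.one_lt_card (α := F)
      omega
    exact (Complex.norm_eq_one_of_pow_eq_one h1 h2).le

private theorem jac_sum {F : Type} [Field F] [Fintype F] [DecidableEq F] :
    ∑ a : F, (if a = 0 then (0 : ℝ) else 1) = (Fintype.card F : ℝ) - 1 := by
  have h : ∀ a : F, (if a = 0 then (0 : ℝ) else 1) = 1 - (if a = 0 then (1 : ℝ) else 0) := by
    intro a; split_ifs <;> simp
  rw [Finset.sum_congr rfl fun a _ => h a, Finset.sum_sub_distrib, Finset.sum_ite_eq']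
  simp

theorem jac {F : Type} [Field F] [Fintype F] (χ μ : MulChar F ℂ) (hχ : χ ≠ 1) :
    ‖∑ x, μ x * χ (x + 1)‖ ^ 2 ≤ 2 * (Fintype.card F : ℝ) := by
  classical
  set J : ℂ := ∑ x, μ x * χ (x + 1) with hJ
  have e1 : ∑ x, ∑ y, μ x * μ y * χ (x * y + 1) = ((Fintype.card F : ℂ) - 1) * J := by
    rw [Finset.sum_comm]
    have h : ∀ y : F, ∑ x, μ x * μ y * χ (x * y + 1) = J - (if y = 0 then J else 0) := by
      intro y
      split_ifs with hy
      · subst hy
        simp [MulChar.map_zero]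
      · rw [sub_zero, hJ, ← Equiv.sum_comp (Equiv.mulRight₀ y hy) (fun x => μ x * χ (x + 1))]
        refine Finset.sum_congr rfl fun x _ => ?_
        simp [map_mul]
    rw [Finset.sum_congr rfl fun y _ => h y, Finset.sum_sub_distrib, Finset.sum_ite_eq']
    simp
    ring
  have hq : (2 : ℝ) ≤ (Fintype.card F : ℝ) := by
    exact_mod_cast Fintype.one_lt_card (α := F)
  have h1 : ∑ x, ‖μ x‖ ≤ (Fintype.card F : ℝ) - 1 := by
    rw [← jac_sum]
    exact Finset.sum_le_sum fun x _ => jac_norm μ x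
  have h2 : ∑ x, ‖μ x‖ ^ 2 ≤ (Fintype.card F : ℝ) - 1 := by
    rw [← jac_sum]
    refine Finset.sum_le_sum fun x _ => ?_
    have := jac_norm μ x
    split_ifs at this ⊢ with hx
    · have h3 : ‖μ x‖ = 0 := le_antisymm this (norm_nonneg _)
      rw [h3]; norm_num
    · exact pow_le_one₀ (norm_nonneg _) this
  have hb := bil χ hχ (fun x => μ x) (fun x => μ x)
  simp only at hb
  rw [e1] at hb
  have e2 : ‖((Fintype.card F : ℂ) - 1) * J‖ ^ 2 = ((Fintype.card F : ℝ) - 1) ^ 2 * ‖J‖ ^ 2 := by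
    rw [norm_mul, mul_pow]
    congr 2
    have : ((Fintype.card F : ℂ) - 1) = (((Fintype.card F : ℝ) - 1 : ℝ) : ℂ) := by push_cast; ring
    rw [this, Complex.norm_real, Real.norm_of_nonneg (by linarith)]
  rw [e2] at hb
  set q : ℝ := (Fintype.card F : ℝ) with hqd
  have h0 : 0 ≤ ∑ x, ‖μ x‖ := Finset.sum_nonneg fun x _ => norm_nonneg _
  have h0' : 0 ≤ ∑ x, ‖μ x‖ ^ 2 := Finset.sum_nonneg fun x _ => by positivity
  have h3 : (∑ x, ‖μ x‖) ^ 2 ≤ (q - 1) ^ 2 := pow_le_pow_left₀ h0 h1 2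
  have h4 : (∑ x, ‖μ x‖ ^ 2) * (q * ∑ y, ‖μ y‖ ^ 2 + (∑ y, ‖μ y‖) ^ 2) ≤
      (q - 1) * (q * (q - 1) + (q - 1) ^ 2) := by
    apply mul_le_mul h2 _ (by positivity) (by linarith)
    have : q * ∑ y, ‖μ y‖ ^ 2 ≤ q * (q - 1) := mul_le_mul_of_nonneg_left h2 (by linarith)
    linarith
  have h5 : (q - 1) ^ 2 * ‖J‖ ^ 2 ≤ (q - 1) ^ 2 * (2 * q - 1) := by
    refine (hb.trans h4).trans (le_of_eq ?_)
    ring
  have h6 : 0 < (q - 1) ^ 2 := by
    have : 0 < q - 1 := by linarith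
    positivity
  have h7 := le_of_mul_le_mul_left h5 h6
  linarith

end Pool.Agent.H90.DE
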