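import Pool.Agent.H90.DE.DatA
import Pool.Agent.H90.DE.Jac

/-!
# Twisted sums over the sets of the construction (MP_2f0703_co, helper90)

FRAME. `sumA`: `e ^ 2 * ∑ x ∈ setA c γ, θ x ^ t` is by `ind_class` (for `x ≠ 0` with `j = 1` and for `x + 1 ≠ 0` with `j = γ`) the sum over `i, i' ∈ range e`
of a number of norm one times `∑ x, θ x ^ (t + N * i) * θ (x + 1) ^ (N * i')`, the sum being over all `x` with `x ≠ 0`, `x + 1 ≠ 0`. For `i' ≠ 0` this is `∑ x, μ x * χ (x + 1)`
with the characters `μ = θ ^ (t + N * i)`, `χ = θ ^ (N * i')`, and `χ ≠ 1` since `θ a ^ (N * i') ≠ 1` (`hθ`); `jac` (note: `t + N * i` is not zero as `N` does not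
divide it, `N * i' ≠ 0`, so powers of `θ x` are the values of the power character also at `0`). For `i' = 0` it is `∑ x ≠ 0, θ x ^ (t + N * i)` minus the term
with `x = -1`; the full sum is zero because `θ ^ (t + N * i) ≠ 1` (`N` does not divide `t`, `MulChar.sum_eq_zero_of_ne_one`), so the norm is at most `1 ≤ √(2 q)`.
Together `e ^ 2 * ‖…‖ ≤ e ^ 2 * √(2 q)`.
-/

set_option autoImplicit false

namespace Pool.Agent.H90.DE

open Finset

private theorem ne_one_of_pow {F : Type} [Field F] [Fintype F] {a : F} {e N : ℕ} {c : F → ZMod e} {θ : MulChar F ℂ}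
    (D : Dat F a e N c θ) {m : ℕ} (hm : ¬ e * N ∣ m) : θ ^ m ≠ 1 := by
  intro h
  apply hm
  rw [← D.hθ m]
  have hu : IsUnit a := D.ha0.isUnit
  obtain ⟨u, hu⟩ := hu
  have h1 : (θ ^ m) (u : F) = 1 := by
    rw [h]
    exact MulChar.one_apply_coe u
  rw [MulChar.pow_apply_coe, hu] at h1
  exact h1

private theorem inner_bound {F : Type} [Field F] [Fintype F] [DecidableEq F] {a : F} {e N : ℕ} {c : F → ZMod e}
    {θ : MulChar F ℂ} (D : Dat F a e N c θ) {t : ℕ} (ht : ¬ N ∣ t) (i i' : ℕ) (hi' : i' < e) :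
    ‖∑ x ∈ univ.filter (fun x : F => x ≠ 0 ∧ x + 1 ≠ 0), θ x ^ (t + N * i) * θ (x + 1) ^ (N * i')‖ ≤
      Real.sqrt (2 * Fintype.card F) := by
  have hni : ¬ N ∣ t + N * i := fun h => ht ((Nat.dvd_add_left (dvd_mul_right N i)).mp h)
  have hn0 : t + N * i ≠ 0 := fun h => hni (h ▸ dvd_zero N)
  have hθ0 : θ 0 = 0 := MulChar.map_nonunit θ not_isUnit_zero
  rcases Nat.eq_zero_or_pos i' with h0 | h0
  · subst h0
    simp only [mul_zero, pow_zero, mul_one]
    have hμ : θ ^ (t + N * i) ≠ 1 := by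
      apply ne_one_of_pow D
      intro h
      exact hni ((dvd_mul_left N e).trans h)
    have h1 : ∑ x, (θ ^ (t + N * i)) x = 0 := MulChar.sum_eq_zero_of_ne_one hμ
    have hne : (-1 : F) ≠ 0 := neg_ne_zero.mpr one_ne_zero
    have h2 : ∑ x ∈ univ.filter (fun x : F => x ≠ 0 ∧ x + 1 ≠ 0), θ x ^ (t + N * i) +
        (θ ^ (t + N * i)) (-1) = ∑ x, (θ ^ (t + N * i)) x := by
      rw [← Finset.sum_erase_add _ _ (Finset.mem_univ (-1 : F))]
      congr 1
      apply Finset.sum_subset_zero_on_sdiff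
      · intro x hx
        rw [mem_filter] at hx
        rw [mem_erase]
        refine ⟨fun h => hx.2.2 (by rw [h]; ring), mem_univ _⟩
      · intro x hx
        rw [mem_sdiff, mem_erase, mem_filter] at hx
        have : x = 0 := by
          by_contra h
          exact hx.2 ⟨mem_univ _, h, fun h' => hx.1.1 (eq_neg_of_add_eq_zero_left h')⟩
        rw [this]
        exact MulChar.map_nonunit _ not_isUnit_zero
      · intro x _
        rw [MulChar.pow_apply' θ hn0]
    rw [h1] at h2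
    have h3 : ∑ x ∈ univ.filter (fun x : F => x ≠ 0 ∧ x + 1 ≠ 0), θ x ^ (t + N * i) =
        - (θ ^ (t + N * i)) (-1) := eq_neg_of_add_eq_zero_left h2
    rw [h3, norm_neg]
    have h4 : ((θ ^ (t + N * i)) (-1)) ^ 2 = 1 := by
      rw [sq, ← map_mul]
      simp
    have h5 : ‖(θ ^ (t + N * i)) (-1)‖ = 1 := Complex.norm_eq_one_of_pow_eq_one h4 two_ne_zero
    rw [h5]
    apply Real.one_le_sqrt.mpr
    have : (1 : ℝ) ≤ Fintype.card F := by
      exact_mod_cast Fintype.card_pos
    linarith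
  · have hNi : N * i' ≠ 0 := Nat.mul_ne_zero D.hN0.ne' h0.ne'
    have hχ : θ ^ (N * i') ≠ 1 := by
      apply ne_one_of_pow D
      intro h
      rw [mul_comm e N] at h
      have := Nat.le_of_dvd h0 (Nat.dvd_of_mul_dvd_mul_left D.hN0 h)
      omega
    have h1 := jac (θ ^ (N * i')) (θ ^ (t + N * i)) hχ
    have h2 : ∑ x ∈ univ.filter (fun x : F => x ≠ 0 ∧ x + 1 ≠ 0), θ x ^ (t + N * i) * θ (x + 1) ^ (N * i') =
        ∑ x, (θ ^ (t + N * i)) x * (θ ^ (N * i')) (x + 1) := by
      apply Finset.sum_subset_zero_on_sdiff (Finset.subset_univ _)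
      · intro x hx
        rw [mem_sdiff, mem_filter] at hx
        have : x = 0 ∨ x + 1 = 0 := by
          by_contra h
          push Not at h
          exact hx.2 ⟨mem_univ _, h.1, h.2⟩
        rcases this with h | h
        · rw [h, MulChar.map_nonunit (θ ^ (t + N * i)) not_isUnit_zero, zero_mul]
        · rw [h, MulChar.map_nonunit (θ ^ (N * i')) not_isUnit_zero, mul_zero]
      · intro x _
        rw [MulChar.pow_apply' θ hn0, MulChar.pow_apply' θ hNi]
    rw [h2]
    exact Real.le_sqrt_of_sq_le h1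

theorem Dat.sumA {F : Type} [Field F] [Fintype F] {a : F} {e N : ℕ} {c : F → ZMod e} {θ : MulChar F ℂ}
    (D : Dat F a e N c θ) (γ : ℕ) {t : ℕ} (ht : ¬ N ∣ t) :
    ‖∑ x ∈ setA c (γ : ZMod e), θ x ^ t‖ ≤ Real.sqrt (2 * Fintype.card F) := by
  classical
  have hne : e * N ≠ 0 := Nat.mul_ne_zero D.he.ne' D.hN0.ne'
  have hna : ‖θ a‖ = 1 := Complex.norm_eq_one_of_pow_eq_one ((D.hθ (e * N)).mpr dvd_rfl) hne
  have hset : setA c (γ : ZMod e) = (univ.filter (fun x : F => x ≠ 0 ∧ x + 1 ≠ 0)).filter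
      (fun x => c x = ((1 : ℕ) : ZMod e) ∧ c (x + 1) = (γ : ZMod e)) := by
    ext x
    rw [mem_setA, mem_filter, mem_filter, Nat.cast_one]
    constructor
    · rintro ⟨h1, h2, h3, h4⟩
      exact ⟨⟨mem_univ _, h1, h3⟩, h2, h4⟩
    · rintro ⟨⟨-, h1, h3⟩, h2, h4⟩
      exact ⟨h1, h2, h3, h4⟩
  let w : ℕ → ℕ → ℂ := fun i i' => ((θ a ^ 1) ^ (N * i))⁻¹ * ((θ a ^ γ) ^ (N * i'))⁻¹
  have hw : ∀ i i', ‖w i i'‖ = 1 := by
    intro i i'
    simp only [w, norm_mul, norm_inv, norm_pow, hna, one_pow, inv_one, mul_one]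
  have key : ((e : ℂ) * e) * ∑ x ∈ setA c (γ : ZMod e), θ x ^ t =
      ∑ i ∈ range e, ∑ i' ∈ range e, w i i' *
        ∑ x ∈ univ.filter (fun x : F => x ≠ 0 ∧ x + 1 ≠ 0), θ x ^ (t + N * i) * θ (x + 1) ^ (N * i') := by
    calc ((e : ℂ) * e) * ∑ x ∈ setA c (γ : ZMod e), θ x ^ t
        = ∑ x ∈ univ.filter (fun x : F => x ≠ 0 ∧ x + 1 ≠ 0), θ x ^ t *
            ((∑ i ∈ range e, (θ x / θ a ^ 1) ^ (N * i)) *
              ∑ i' ∈ range e, (θ (x + 1) / θ a ^ γ) ^ (N * i')) := by
          rw [hset, Finset.mul_sum, Finset.sum_filter]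
          refine Finset.sum_congr rfl fun x hx => ?_
          rw [mem_filter] at hx
          rw [D.ind_class hx.2.1 1, D.ind_class hx.2.2 γ]
          by_cases h1 : c x = ((1 : ℕ) : ZMod e)
          · by_cases h2 : c (x + 1) = (γ : ZMod e)
            · rw [if_pos ⟨h1, h2⟩, if_pos h1, if_pos h2]
              ring
            · rw [if_neg (fun h => h2 h.2), if_neg h2, mul_zero, mul_zero]
          · rw [if_neg (fun h => h1 h.1), if_neg h1, zero_mul, mul_zero]
      _ = ∑ x ∈ univ.filter (fun x : F => x ≠ 0 ∧ x + 1 ≠ 0), ∑ i ∈ range e, ∑ i' ∈ range e,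
            w i i' * (θ x ^ (t + N * i) * θ (x + 1) ^ (N * i')) := by
          refine Finset.sum_congr rfl fun x _ => ?_
          rw [Finset.sum_mul_sum, Finset.mul_sum]
          refine Finset.sum_congr rfl fun i _ => ?_
          rw [Finset.mul_sum]
          refine Finset.sum_congr rfl fun i' _ => ?_
          simp only [w, div_pow, pow_add]
          ring
      _ = _ := by
          rw [Finset.sum_comm]
          refine Finset.sum_congr rfl fun i _ => ?_
          rw [Finset.sum_comm]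
          refine Finset.sum_congr rfl fun i' _ => ?_
          rw [Finset.mul_sum]
  have he : (0 : ℝ) < (e : ℝ) * e := by
    have : (0 : ℝ) < e := by exact_mod_cast D.he
    positivity
  have h1 : ‖((e : ℂ) * e) * ∑ x ∈ setA c (γ : ZMod e), θ x ^ t‖ ≤
      (e : ℝ) * e * Real.sqrt (2 * Fintype.card F) := by
    rw [key]
    calc _ ≤ ∑ i ∈ range e, ∑ i' ∈ range e, Real.sqrt (2 * Fintype.card F) := by
          refine (norm_sum_le _ _).trans (Finset.sum_le_sum fun i _ => ?_)
          refine (norm_sum_le _ _).trans (Finset.sum_le_sum fun i' hi' => ?_)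
          rw [norm_mul, hw, one_mul]
          exact inner_bound D ht i i' (mem_range.mp hi')
      _ = _ := by
          simp only [Finset.sum_const, card_range, nsmul_eq_mul]
          ring
  rw [norm_mul, norm_mul, Complex.norm_natCast] at h1
  exact le_of_mul_le_mul_left h1 he

end Pool.Agent.H90.DE
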