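import Pool.Agent.H90.DE.Dat
import Pool.Agent.H90.DE.Bil

/-!
# Twisted double sums over the sets of the construction (MP_2f0703_co, helper90)

`sumAA`: `bil` with `α x = θ x ^ s` and `β y = θ y ^ t` on `setA`, `0` elsewhere; `‖α‖, ‖β‖ ≤ 1` there, so the square is at most `|A| * (q |A| + |A| ^ 2) ≤ 2 q |A| ^ 2`; the
character is `θ ^ (N * i)`, different from `1` as `0 < i < e`.
-/

set_option autoImplicit false

namespace Pool.Agent.H90.DE

open Finset

private theorem sumB_norm_a {F : Type} [Field F] [Fintype F] {a : F} {e N : ℕ} {c : F → ZMod e} {θ : MulChar F ℂ}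
    (D : Dat F a e N c θ) : ‖θ a‖ = 1 := by
  have h1 : θ a ^ (e * N) = 1 := (D.hθ _).2 dvd_rfl
  have h2 : e * N ≠ 0 := (Nat.mul_pos D.he D.hN0).ne'
  exact Complex.norm_eq_one_of_pow_eq_one h1 h2

private theorem sumB_norm {F : Type} [Field F] [Fintype F] {a : F} {e N : ℕ} {c : F → ZMod e} {θ : MulChar F ℂ}
    (D : Dat F a e N c θ) {x : F} (hx : x ≠ 0) : ‖θ x‖ = 1 := by
  obtain ⟨s, rfl⟩ := D.ha x hx
  rw [map_pow, norm_pow, sumB_norm_a D, one_pow]

private theorem sumB_bd {F : Type} [Field F] [Fintype F] (A : Finset F) (f : F → ℂ) (hf : ∀ x ∈ A, ‖f x‖ = 1) (k : ℕ)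
    (hk : k ≠ 0) [DecidableEq F] : ∑ x, ‖(if x ∈ A then f x else 0)‖ ^ k = (A.card : ℝ) := by
  have h1 : ∀ x ∈ (univ : Finset F), ‖(if x ∈ A then f x else 0)‖ ^ k = if x ∈ A then (1 : ℝ) else 0 := by
    intro x _
    split_ifs with h
    · rw [hf x h, one_pow]
    · rw [norm_zero, zero_pow hk]
  rw [sum_congr rfl h1, sum_ite_mem, univ_inter, sum_const, nsmul_eq_mul, mul_one]

theorem Dat.sumAA {F : Type} [Field F] [Fintype F] {a : F} {e N : ℕ} {c : F → ZMod e} {θ : MulChar F ℂ}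
    (D : Dat F a e N c θ) (γ : ZMod e) (s t : ℕ) {i : ℕ} (hi : 0 < i) (hie : i < e) :
    ‖∑ x ∈ setA c γ, ∑ y ∈ setA c γ, θ x ^ s * θ y ^ t * θ (x * y + 1) ^ (N * i)‖ ≤
      (setA c γ).card * Real.sqrt (2 * Fintype.card F) := by
  classical
  have hNi : N * i ≠ 0 := (Nat.mul_pos D.hN0 hi).ne'
  have hχ : θ ^ (N * i) ≠ 1 := by
    intro h
    have h1 : (θ ^ (N * i)) a = (1 : MulChar F ℂ) a := by rw [h]
    rw [MulChar.pow_apply' θ hNi, MulChar.one_apply (isUnit_iff_ne_zero.2 D.ha0), D.hθ] at h1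
    have h2 := Nat.le_of_dvd (Nat.pos_of_ne_zero hNi) h1
    have h3 : N * i < e * N := by
      rw [mul_comm e N]
      exact Nat.mul_lt_mul_of_pos_left hie D.hN0
    omega
  have hx0 : ∀ x ∈ setA c γ, x ≠ 0 := fun x hx => (mem_setA.1 hx).1
  have h1 := bil (θ ^ (N * i)) hχ (fun x => if x ∈ setA c γ then θ x ^ s else 0)
    (fun y => if y ∈ setA c γ then θ y ^ t else 0)
  have e1 : ∑ x, ∑ y, (if x ∈ setA c γ then θ x ^ s else 0) * (if y ∈ setA c γ then θ y ^ t else 0) *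
      (θ ^ (N * i)) (x * y + 1) =
      ∑ x ∈ setA c γ, ∑ y ∈ setA c γ, θ x ^ s * θ y ^ t * θ (x * y + 1) ^ (N * i) := by
    rw [← sum_subset (subset_univ (setA c γ))]
    · refine sum_congr rfl fun x hx => ?_
      rw [← sum_subset (subset_univ (setA c γ))]
      · refine sum_congr rfl fun y hy => ?_
        rw [if_pos hx, if_pos hy, MulChar.pow_apply' θ hNi]
      · intro y _ hy
        rw [if_neg hy, mul_zero, zero_mul]
    · intro x _ hx
      refine sum_eq_zero fun y _ => ?_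
      rw [if_neg hx, zero_mul, zero_mul]
  have e2 := sumB_bd (setA c γ) (fun x => θ x ^ s)
    (fun x hx => by rw [norm_pow, sumB_norm D (hx0 x hx), one_pow]) 2 two_ne_zero
  have e3 := sumB_bd (setA c γ) (fun x => θ x ^ t)
    (fun x hx => by rw [norm_pow, sumB_norm D (hx0 x hx), one_pow]) 2 two_ne_zero
  have e4 := sumB_bd (setA c γ) (fun x => θ x ^ t)
    (fun x hx => by rw [norm_pow, sumB_norm D (hx0 x hx), one_pow]) 1 one_ne_zero
  simp only [pow_one] at e4
  rw [e1, e2, e3, e4] at h1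
  have hcard : ((setA c γ).card : ℝ) ≤ Fintype.card F := by
    exact_mod_cast card_le_univ (setA c γ)
  have hA : (0 : ℝ) ≤ (setA c γ).card := Nat.cast_nonneg _
  have hq : (0 : ℝ) ≤ 2 * Fintype.card F := by positivity
  refine (pow_le_pow_iff_left₀ (norm_nonneg _) (mul_nonneg hA (Real.sqrt_nonneg _)) two_ne_zero).1 ?_
  rw [mul_pow, Real.sq_sqrt hq]
  refine h1.trans ?_
  nlinarith [mul_le_mul_of_nonneg_left hcard (mul_nonneg hA hA)]

end Pool.Agent.H90.DE
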