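import Pool.Agent.H90.DE.DatA
import Pool.Agent.H90.DE.DatB
import Pool.Agent.H90.DE.SumA
import Pool.Agent.H90.DE.SumB

/-!
# The counting lemma (MP_2f0703_co, helper90)

FRAME. Suppose that the conclusion fails. Pigeonhole: the class `1` has `N` elements, all of them have `x + 1 ≠ 0` (`-1 = 1` is in class `0 ≠ 1`, since `2 = 0` and `3 ≤ e`),
so some `γ < e` has `A = setA c γ` with `e * |A| ≥ N`. Put `A = setA c (γ : ZMod e)` and
`T = ∑ x ∈ A, ∑ y ∈ A, (∑ f ∈ N.divisors, μ f / f * ∑ j ∈ range f, θ (x ^ (e - 1) * y) ^ (N / f * j)) * ∑ i ∈ range e, (θ (x * y + 1) / θ a ^ (2 * γ)) ^ (N * i)`.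

Upper bound: for `x, y ∈ A` the product `x ^ (e - 1) * y = a ^ S` has `e ∣ S` (its class is `e * 1 = 0`), `x * y` has class `2 ≠ 0`, so `x * y + 1 ≠ 0`; by `ind_gen` and `ind_class` the
term is `0` or `e`, and it is `e` only if `Nat.Coprime (S / e) N` and `c (x * y + 1) = 2 * γ`, so only if `x = y` (the conclusion fails). Hence `‖T‖ ≤ e * |A|`.

Lower bound: expand `T = ∑ f ∣ N, μ f / f * ∑ j < f, ∑ i < e, θ a ^ (-2 γ N i) * ∑ x ∈ A, ∑ y ∈ A, θ x ^ ((e - 1) * (N / f * j)) * θ y ^ (N / f * j) * θ (x * y + 1) ^ (N * i)`.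
Terms `j = 0, i = 0` give `|A| ^ 2 * ∑ f ∣ N, μ f / f = |A| ^ 2 * φ N / N`. Terms `i = 0, 0 < j < f`: the double sum is a product, its norm is at most `|A| * √(2 q)` by `sumA` for `y`
(`N` does not divide `N / f * j`). Terms `0 < i < e`: norm at most `|A| * √(2 q)` by `sumAA`. The sum of the `|μ f| / f * f` is `2 ^ w`, `w = N.primeFactors.card`
(`ArithmeticFunction.sum_abs_moebius...` or squarefree divisors), so all these terms are at most `e * 2 ^ w * |A| * √(2 q)`. Hence `e * |A| ≥ |A| ^ 2 * φ N / N - e * 2 ^ w * |A| * √(2 q)`,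
`|A| * φ N / N ≤ e * (1 + 2 ^ w * √(2 q))`, and `|A| ≥ N / e` contradicts `hbig`.
-/

set_option autoImplicit false

namespace Pool.Agent.H90.DE

open Finset

private theorem cnt_tot {N : ℕ} (hN : 0 < N) :
    ∑ f ∈ N.divisors, (ArithmeticFunction.moebius f : ℂ) / f = (N.totient : ℂ) / N := by
  have h1 := (ArithmeticFunction.sum_eq_iff_sum_mul_moebius_eq (R := ℂ) (f := fun n => (n.totient : ℂ))
    (g := fun n => (n : ℂ))).1 (fun n _ => by
      have := Nat.sum_totient n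
      exact_mod_cast this) N hN
  have h2 := Nat.sum_divisorsAntidiagonal (n := N) (fun d e => (ArithmeticFunction.moebius d : ℂ) * (e : ℂ))
  have h1 : ∑ x ∈ N.divisorsAntidiagonal, (ArithmeticFunction.moebius x.1 : ℂ) * (x.2 : ℂ) = N.totient := h1
  rw [h2] at h1
  have hN' : (N : ℂ) ≠ 0 := by exact_mod_cast hN.ne'
  rw [eq_div_iff hN', ← h1, sum_mul]
  refine sum_congr rfl fun f hf => ?_
  have hf0 : (f : ℂ) ≠ 0 := by exact_mod_cast (Nat.pos_of_mem_divisors hf).ne'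
  rw [Nat.cast_div (Nat.dvd_of_mem_divisors hf) hf0]
  field_simp

private theorem cnt_abs {N : ℕ} (hN : N ≠ 0) :
    ∑ f ∈ N.divisors, ‖(ArithmeticFunction.moebius f : ℂ)‖ ≤ 2 ^ N.primeFactors.card := by
  have h1 : ∑ f ∈ N.divisors, ‖(ArithmeticFunction.moebius f : ℂ)‖ ≤ ∑ f ∈ N.divisors with Squarefree f, (1 : ℝ) := by
    rw [sum_filter]
    refine sum_le_sum fun f _ => ?_
    split_ifs with h
    · rw [ArithmeticFunction.moebius_apply_of_squarefree h]
      simp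
    · rw [ArithmeticFunction.moebius_eq_zero_of_not_squarefree h]
      simp
  refine h1.trans ?_
  rw [Nat.sum_divisors_filter_squarefree hN]
  have h2 : (UniqueFactorizationMonoid.normalizedFactors N).toFinset = N.primeFactors := by
    rw [Nat.factors_eq]
    rfl
  rw [h2]
  simp [card_powerset]

variable {F : Type} [Field F] [Fintype F] {a : F} {e N : ℕ} {c : F → ZMod e} {θ : MulChar F ℂ}

private theorem cnt_pow (D : Dat F a e N c θ) {s d : ℕ} (h : a ^ s = a ^ (s + d)) : e * N ∣ d := by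
  rw [← D.ha1]
  rw [pow_add] at h
  exact mul_left_cancel₀ (pow_ne_zero s D.ha0) (h.symm.trans (mul_one _).symm)

private theorem cnt_ne (D : Dat F a e N c θ) (two : (2 : F) = 0) {s m : ℕ} (hs : (s : ZMod e) = m) (hm : 0 < m)
    (hme : m < e) : a ^ s + 1 ≠ 0 := by
  intro h
  have h1 : a ^ s = a ^ 0 := by
    rw [pow_zero]
    linear_combination h - two
  have h2 := congrArg c h1
  rw [D.hc, D.hc, hs, Nat.cast_zero, ZMod.natCast_eq_zero_iff] at h2
  exact absurd (Nat.le_of_dvd hm h2) (by omega)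

private theorem cnt_pig (D : Dat F a e N c θ) (two : (2 : F) = 0) (he3 : 3 ≤ e) :
    ∃ γ : ℕ, (N : ℝ) / e ≤ (setA c (γ : ZMod e)).card := by
  classical
  haveI : NeZero e := ⟨by omega⟩
  have he := D.he
  have key : ∀ i j : ℕ, i ≤ j → j < N → a ^ (1 + e * i) = a ^ (1 + e * j) → i = j := by
    intro i j hij hj h
    obtain ⟨d, rfl⟩ := Nat.exists_eq_add_of_le hij
    have h1 : a ^ (1 + e * i) = a ^ (1 + e * i + e * d) := by
      rw [h]
      congr 1
      ring
    have h2 : N ∣ d := Nat.dvd_of_mul_dvd_mul_left he (cnt_pow D h1)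
    rcases Nat.eq_zero_or_pos d with h3 | h3
    · omega
    · have := Nat.le_of_dvd h3 h2
      omega
  have hB : ((range N).image fun i => a ^ (1 + e * i)).card = N := by
    rw [card_image_of_injOn, card_range]
    intro i hi j hj hij
    have hi' : i < N := by simpa using hi
    have hj' : j < N := by simpa using hj
    rcases le_total i j with h | h
    · exact key i j h hj' hij
    · exact (key j i h hi' hij.symm).symm
  obtain ⟨y, -, hy⟩ := exists_le_card_fiber_of_nsmul_le_card_of_maps_to (M := ℝ)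
    (s := (range N).image fun i => a ^ (1 + e * i)) (t := (univ : Finset (ZMod e))) (f := fun x => c (x + 1))
    (b := (N : ℝ) / e) (fun _ _ => mem_univ _) univ_nonempty (by
      rw [hB, card_univ, ZMod.card, nsmul_eq_mul]
      have : (e : ℝ) ≠ 0 := by exact_mod_cast he.ne'
      exact (mul_div_cancel₀ _ this).le)
  refine ⟨y.val, hy.trans ?_⟩
  rw [ZMod.natCast_zmod_val]
  refine Nat.cast_le.2 (card_le_card fun x hx => ?_)
  rw [mem_filter, mem_image] at hx
  obtain ⟨⟨i, -, rfl⟩, hx2⟩ := hx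
  have h1 : ((1 + e * i : ℕ) : ZMod e) = ((1 : ℕ) : ZMod e) := by
    push_cast
    simp
  rw [mem_setA]
  refine ⟨pow_ne_zero _ D.ha0, ?_, cnt_ne D two h1 one_pos (by omega), hx2⟩
  rw [D.hc, h1, Nat.cast_one]

private theorem cnt_rep (D : Dat F a e N c θ) {γ : ZMod e} {x : F} (hx : x ∈ setA c γ) :
    ∃ s : ℕ, x = a ^ s ∧ (s : ZMod e) = ((1 : ℕ) : ZMod e) := by
  rw [mem_setA] at hx
  obtain ⟨s, rfl⟩ := D.ha x hx.1
  refine ⟨s, rfl, ?_⟩
  rw [← D.hc s, hx.2.1, Nat.cast_one]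

private theorem cnt_S (D : Dat F a e N c θ) {γ : ZMod e} {x y : F} (hx : x ∈ setA c γ) (hy : y ∈ setA c γ) {S : ℕ}
    (h : x ^ (e - 1) * y = a ^ S) : e ∣ S := by
  obtain ⟨s, rfl, hs⟩ := cnt_rep D hx
  obtain ⟨t, rfl, ht⟩ := cnt_rep D hy
  have h1 : (S : ZMod e) = ((s * (e - 1) + t : ℕ) : ZMod e) := by
    rw [← D.hc S, ← h, ← pow_mul, ← pow_add, D.hc]
  rw [← ZMod.natCast_eq_zero_iff, h1, Nat.cast_add, Nat.cast_mul, hs, ht, ← Nat.cast_mul, ← Nat.cast_add, one_mul,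
    Nat.sub_add_cancel D.he, ZMod.natCast_self]

private theorem cnt_nrm (D : Dat F a e N c θ) : ‖θ a‖ = 1 := by
  have h1 : θ a ^ (e * N) = 1 := (D.hθ _).2 dvd_rfl
  exact Complex.norm_eq_one_of_pow_eq_one h1 (Nat.mul_pos D.he D.hN0).ne'

private theorem cnt_nrmA (D : Dat F a e N c θ) {γ : ZMod e} {x : F} (hx : x ∈ setA c γ) : ‖θ x‖ = 1 := by
  obtain ⟨s, rfl, -⟩ := cnt_rep D hx
  rw [map_pow, norm_pow, cnt_nrm D, one_pow]

private theorem cnt_up (D : Dat F a e N c θ) (two : (2 : F) = 0) (he3 : 3 ≤ e) (γ : ℕ)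
    (hcon : ∀ x y : F, x ∈ setA c (γ : ZMod e) → y ∈ setA c (γ : ZMod e) → x ≠ y → c (x * y + 1) = 2 * (γ : ZMod e) →
      ∃ S : ℕ, x ^ (e - 1) * y = a ^ S ∧ ¬ Nat.Coprime (S / e) N) :
    ‖∑ p ∈ setA c (γ : ZMod e) ×ˢ setA c (γ : ZMod e),
      (∑ f ∈ N.divisors, (ArithmeticFunction.moebius f : ℂ) / f * ∑ j ∈ range f, θ (p.1 ^ (e - 1) * p.2) ^ (N / f * j)) *
        ∑ i ∈ range e, (θ (p.1 * p.2 + 1) / θ a ^ (2 * γ)) ^ (N * i)‖ ≤ e * (setA c (γ : ZMod e)).card := by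
  classical
  have h1 : ∀ p ∈ setA c (γ : ZMod e) ×ˢ setA c (γ : ZMod e),
      ‖(∑ f ∈ N.divisors, (ArithmeticFunction.moebius f : ℂ) / f * ∑ j ∈ range f, θ (p.1 ^ (e - 1) * p.2) ^ (N / f * j)) *
        ∑ i ∈ range e, (θ (p.1 * p.2 + 1) / θ a ^ (2 * γ)) ^ (N * i)‖ ≤ if p.1 = p.2 then (e : ℝ) else 0 := by
    rintro ⟨x, y⟩ hp
    rw [mem_product] at hp
    obtain ⟨hx, hy⟩ := hp
    simp only at hx hy ⊢
    have hne : x * y + 1 ≠ 0 := by
      obtain ⟨s, rfl, hs⟩ := cnt_rep D hx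
      obtain ⟨t, rfl, ht⟩ := cnt_rep D hy
      rw [← pow_add]
      refine cnt_ne D two (m := 2) ?_ two_pos (by omega)
      rw [Nat.cast_add, hs, ht]
      norm_num
    have h2 := D.ind_class hne (2 * γ)
    have h3 : ((2 * γ : ℕ) : ZMod e) = 2 * (γ : ZMod e) := by push_cast; ring
    rw [h3] at h2
    rw [h2]
    have hex : ∃ S : ℕ, x ^ (e - 1) * y = a ^ S := by
      obtain ⟨s, rfl, -⟩ := cnt_rep D hx
      obtain ⟨t, rfl, -⟩ := cnt_rep D hy
      exact ⟨s * (e - 1) + t, by rw [← pow_mul, ← pow_add]⟩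
    split_ifs with h4 h5 h5
    · obtain ⟨S, hS⟩ := hex
      rw [hS, D.ind_gen (cnt_S D hx hy hS)]
      split_ifs <;> simp
    · obtain ⟨S, hS, hS2⟩ := hcon x y hx hy h5 h4
      rw [hS, D.ind_gen (cnt_S D hx hy hS), if_neg hS2]
      simp
    · simp
    · simp
  refine (norm_sum_le _ _).trans ((sum_le_sum h1).trans ?_)
  rw [sum_product]
  have h2 : ∀ x ∈ setA c (γ : ZMod e), ∑ y ∈ setA c (γ : ZMod e), (if x = y then (e : ℝ) else 0) = e := by
    intro x hx
    rw [sum_ite_eq, if_pos hx]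
  rw [sum_congr rfl h2, sum_const, nsmul_eq_mul, mul_comm]

private theorem cnt_term (D : Dat F a e N c θ) (γ : ℕ) {f j i : ℕ} (hf : f ∣ N) (hj : j < f) (hi : i < e) :
    ‖(∑ p ∈ setA c (γ : ZMod e) ×ˢ setA c (γ : ZMod e), θ (p.1 ^ (e - 1) * p.2) ^ (N / f * j) *
        (θ (p.1 * p.2 + 1) / θ a ^ (2 * γ)) ^ (N * i)) -
      (if j = 0 then if i = 0 then ((setA c (γ : ZMod e)).card : ℂ) ^ 2 else 0 else 0)‖ ≤
      (setA c (γ : ZMod e)).card * Real.sqrt (2 * Fintype.card F) := by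
  have hK : 0 ≤ ((setA c (γ : ZMod e)).card : ℝ) * Real.sqrt (2 * Fintype.card F) := by positivity
  rcases Nat.eq_zero_or_pos i with hi0 | hi0
  · subst hi0
    rcases Nat.eq_zero_or_pos j with hj0 | hj0
    · subst hj0
      simp only [mul_zero, pow_zero, mul_one, sum_const, card_product, if_true, nsmul_eq_mul]
      push_cast
      rw [show ((setA c (γ : ZMod e)).card : ℂ) * (setA c (γ : ZMod e)).card - ((setA c (γ : ZMod e)).card : ℂ) ^ 2 = 0 by ring,
        norm_zero]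
      exact hK
    · rw [if_neg hj0.ne', sub_zero]
      have hN0 := D.hN0
      have hM : ¬ N ∣ N / f * j := by
        obtain ⟨m, hm⟩ := hf
        have hf0 : 0 < f := by omega
        have hm0 : 0 < m := Nat.pos_of_ne_zero fun h => by rw [h, mul_zero] at hm; omega
        have hdiv : N / f = m := by rw [hm, Nat.mul_div_cancel_left _ hf0]
        rw [hdiv]
        intro h
        have h1 := Nat.le_of_dvd (Nat.mul_pos hm0 hj0) h
        have h2 : m * j < m * f := Nat.mul_lt_mul_of_pos_left hj hm0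
        rw [mul_comm m f, ← hm] at h2
        omega
      have h1 : (∑ p ∈ setA c (γ : ZMod e) ×ˢ setA c (γ : ZMod e), θ (p.1 ^ (e - 1) * p.2) ^ (N / f * j) *
          (θ (p.1 * p.2 + 1) / θ a ^ (2 * γ)) ^ (N * 0)) =
          (∑ x ∈ setA c (γ : ZMod e), θ x ^ ((e - 1) * (N / f * j))) * ∑ y ∈ setA c (γ : ZMod e), θ y ^ (N / f * j) := by
        rw [sum_product, sum_mul_sum]
        refine sum_congr rfl fun x _ => sum_congr rfl fun y _ => ?_
        simp only [mul_zero, pow_zero, mul_one]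
        rw [map_mul, map_pow, mul_pow, ← pow_mul]
      rw [h1, norm_mul]
      refine mul_le_mul ?_ (D.sumA γ hM) (norm_nonneg _) (Nat.cast_nonneg _)
      refine (norm_sum_le _ _).trans ?_
      rw [sum_congr rfl fun x hx => by rw [norm_pow, cnt_nrmA D hx, one_pow]]
      simp
  · have h0 : (if j = 0 then if i = 0 then ((setA c (γ : ZMod e)).card : ℂ) ^ 2 else 0 else 0) = 0 := by
      rw [if_neg hi0.ne', ite_self]
    rw [h0, sub_zero]
    have h1 : (∑ p ∈ setA c (γ : ZMod e) ×ˢ setA c (γ : ZMod e), θ (p.1 ^ (e - 1) * p.2) ^ (N / f * j) *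
        (θ (p.1 * p.2 + 1) / θ a ^ (2 * γ)) ^ (N * i)) =
        ((θ a ^ (2 * γ)) ^ (N * i))⁻¹ * ∑ x ∈ setA c (γ : ZMod e), ∑ y ∈ setA c (γ : ZMod e),
          θ x ^ ((e - 1) * (N / f * j)) * θ y ^ (N / f * j) * θ (x * y + 1) ^ (N * i) := by
      rw [sum_product, mul_sum]
      refine sum_congr rfl fun x _ => ?_
      rw [mul_sum]
      refine sum_congr rfl fun y _ => ?_
      simp only
      rw [map_mul, map_pow, mul_pow, ← pow_mul, div_pow]
      ring
    rw [h1, norm_mul, norm_inv, norm_pow, norm_pow, cnt_nrm D, one_pow, one_pow, inv_one, one_mul]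
    exact D.sumAA (γ : ZMod e) _ _ hi0 hi

private theorem cnt_low (D : Dat F a e N c θ) (γ : ℕ) :
    ‖(∑ p ∈ setA c (γ : ZMod e) ×ˢ setA c (γ : ZMod e),
      (∑ f ∈ N.divisors, (ArithmeticFunction.moebius f : ℂ) / f * ∑ j ∈ range f, θ (p.1 ^ (e - 1) * p.2) ^ (N / f * j)) *
        ∑ i ∈ range e, (θ (p.1 * p.2 + 1) / θ a ^ (2 * γ)) ^ (N * i)) -
      ((setA c (γ : ZMod e)).card : ℂ) ^ 2 * (N.totient / N)‖ ≤
      2 ^ N.primeFactors.card * (e * ((setA c (γ : ZMod e)).card * Real.sqrt (2 * Fintype.card F))) := by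
  have hK : 0 ≤ ((setA c (γ : ZMod e)).card : ℝ) * Real.sqrt (2 * Fintype.card F) := by positivity
  have he := D.he
  have h1 : (∑ p ∈ setA c (γ : ZMod e) ×ˢ setA c (γ : ZMod e),
      (∑ f ∈ N.divisors, (ArithmeticFunction.moebius f : ℂ) / f * ∑ j ∈ range f, θ (p.1 ^ (e - 1) * p.2) ^ (N / f * j)) *
        ∑ i ∈ range e, (θ (p.1 * p.2 + 1) / θ a ^ (2 * γ)) ^ (N * i)) =
      ∑ f ∈ N.divisors, (ArithmeticFunction.moebius f : ℂ) / f * ∑ j ∈ range f, ∑ i ∈ range e,
        ∑ p ∈ setA c (γ : ZMod e) ×ˢ setA c (γ : ZMod e), θ (p.1 ^ (e - 1) * p.2) ^ (N / f * j) *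
          (θ (p.1 * p.2 + 1) / θ a ^ (2 * γ)) ^ (N * i) := by
    simp_rw [sum_mul, mul_assoc, sum_mul_sum]
    rw [sum_comm]
    refine sum_congr rfl fun f _ => ?_
    rw [← mul_sum, sum_comm]
    congr 1
    refine sum_congr rfl fun j _ => ?_
    rw [sum_comm]
  have h2 : ((setA c (γ : ZMod e)).card : ℂ) ^ 2 * (N.totient / N) =
      ∑ f ∈ N.divisors, (ArithmeticFunction.moebius f : ℂ) / f * ∑ j ∈ range f, ∑ i ∈ range e,
        (if j = 0 then if i = 0 then ((setA c (γ : ZMod e)).card : ℂ) ^ 2 else 0 else 0) := by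
    rw [← cnt_tot D.hN0, mul_sum]
    refine sum_congr rfl fun f hf => ?_
    have hf0 : 0 < f := Nat.pos_of_mem_divisors hf
    have h3 : ∑ j ∈ range f, ∑ i ∈ range e,
        (if j = 0 then if i = 0 then ((setA c (γ : ZMod e)).card : ℂ) ^ 2 else 0 else 0) =
        ((setA c (γ : ZMod e)).card : ℂ) ^ 2 := by
      rw [sum_eq_single 0, sum_eq_single 0]
      · simp
      · intro i _ hi
        simp [hi]
      · intro h
        exact absurd (mem_range.2 he) h
      · intro j _ hj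
        simp [hj]
      · intro h
        exact absurd (mem_range.2 hf0) h
    rw [h3, mul_comm]
  rw [h1, h2, ← sum_sub_distrib]
  refine (norm_sum_le _ _).trans ?_
  have h4 : ∀ f ∈ N.divisors, ‖(ArithmeticFunction.moebius f : ℂ) / f * (∑ j ∈ range f, ∑ i ∈ range e,
        ∑ p ∈ setA c (γ : ZMod e) ×ˢ setA c (γ : ZMod e), θ (p.1 ^ (e - 1) * p.2) ^ (N / f * j) *
          (θ (p.1 * p.2 + 1) / θ a ^ (2 * γ)) ^ (N * i)) - (ArithmeticFunction.moebius f : ℂ) / f *
        ∑ j ∈ range f, ∑ i ∈ range e,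
        (if j = 0 then if i = 0 then ((setA c (γ : ZMod e)).card : ℂ) ^ 2 else 0 else 0)‖ ≤
      ‖(ArithmeticFunction.moebius f : ℂ)‖ * (e * ((setA c (γ : ZMod e)).card * Real.sqrt (2 * Fintype.card F))) := by
    intro f hf
    have hf0 : 0 < f := Nat.pos_of_mem_divisors hf
    have hf0' : (0 : ℝ) < f := by exact_mod_cast hf0
    rw [← mul_sub, norm_mul, norm_div, Complex.norm_natCast, div_mul_eq_mul_div, mul_div_assoc]
    refine mul_le_mul_of_nonneg_left ?_ (norm_nonneg _)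
    rw [div_le_iff₀ hf0', ← sum_sub_distrib]
    refine (norm_sum_le _ _).trans ?_
    have h5 : ∀ j ∈ range f, ‖(∑ i ∈ range e,
        ∑ p ∈ setA c (γ : ZMod e) ×ˢ setA c (γ : ZMod e), θ (p.1 ^ (e - 1) * p.2) ^ (N / f * j) *
          (θ (p.1 * p.2 + 1) / θ a ^ (2 * γ)) ^ (N * i)) - ∑ i ∈ range e,
        (if j = 0 then if i = 0 then ((setA c (γ : ZMod e)).card : ℂ) ^ 2 else 0 else 0)‖ ≤
        e * ((setA c (γ : ZMod e)).card * Real.sqrt (2 * Fintype.card F)) := by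
      intro j hj
      rw [← sum_sub_distrib]
      refine (norm_sum_le _ _).trans ?_
      refine (sum_le_sum fun i hi => cnt_term D γ (Nat.dvd_of_mem_divisors hf) (mem_range.1 hj) (mem_range.1 hi)).trans ?_
      rw [sum_const, card_range, nsmul_eq_mul]
    refine (sum_le_sum h5).trans ?_
    rw [sum_const, card_range, nsmul_eq_mul, mul_comm]
  refine (sum_le_sum h4).trans ?_
  rw [← sum_mul]
  exact mul_le_mul_of_nonneg_right (cnt_abs D.hN0.ne') (by positivity)

theorem Dat.count {F : Type} [Field F] [Fintype F] {a : F} {e N : ℕ} {c : F → ZMod e} {θ : MulChar F ℂ}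
    (D : Dat F a e N c θ) (two : (2 : F) = 0) (he3 : 3 ≤ e)
    (hbig : (e : ℝ) ^ 2 * (1 + 2 ^ N.primeFactors.card * Real.sqrt (2 * Fintype.card F)) < N.totient) :
    ∃ (γ : ZMod e) (x y : F), x ∈ setA c γ ∧ y ∈ setA c γ ∧ x ≠ y ∧ c (x * y + 1) = 2 * γ ∧
      ∀ S : ℕ, x ^ (e - 1) * y = a ^ S → Nat.Coprime (S / e) N := by
  classical
  obtain ⟨γ, hγ⟩ := cnt_pig D two he3
  by_contra hcon
  push Not at hcon
  have hup := cnt_up D two he3 γ fun x y hx hy hxy hc => hcon (γ : ZMod e) x y hx hy hxy hc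
  have hlow := cnt_low D γ
  have he : (0 : ℝ) < e := by exact_mod_cast D.he
  have hN : (0 : ℝ) < N := by exact_mod_cast D.hN0
  obtain ⟨X, hX⟩ : ∃ X : ℝ, X = (setA c (γ : ZMod e)).card := ⟨_, rfl⟩
  have hXpos : 0 < X := by
    rw [hX]
    exact lt_of_lt_of_le (div_pos hN he) hγ
  have h1 : X ^ 2 * (N.totient / N) ≤ e * X + 2 ^ N.primeFactors.card * (e * (X * Real.sqrt (2 * Fintype.card F))) := by
    have h2 : ‖((setA c (γ : ZMod e)).card : ℂ) ^ 2 * (N.totient / N)‖ = X ^ 2 * (N.totient / N) := by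
      rw [norm_mul, norm_pow, norm_div, Complex.norm_natCast, Complex.norm_natCast, Complex.norm_natCast, hX]
    rw [← h2, hX]
    refine (norm_le_norm_add_norm_sub _ _).trans (add_le_add hup hlow)
  have h3 : X * (N.totient / N) ≤ e * (1 + 2 ^ N.primeFactors.card * Real.sqrt (2 * Fintype.card F)) := by
    refine le_of_mul_le_mul_left ?_ hXpos
    calc X * (X * (N.totient / N)) = X ^ 2 * (N.totient / N) := by ring
      _ ≤ _ := h1
      _ = X * (e * (1 + 2 ^ N.primeFactors.card * Real.sqrt (2 * Fintype.card F))) := by ring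
  have h4 : (N : ℝ) / e * (N.totient / N) ≤ X * (N.totient / N) :=
    mul_le_mul_of_nonneg_right (by rw [hX]; exact hγ) (by positivity)
  have h5 : (N : ℝ) / e * (N.totient / N) = N.totient / e := by
    field_simp
  have h6 : (N.totient : ℝ) / e ≤ e * (1 + 2 ^ N.primeFactors.card * Real.sqrt (2 * Fintype.card F)) := by
    rw [← h5]
    exact h4.trans h3
  rw [div_le_iff₀ he] at h6
  nlinarith [h6, hbig]

end Pool.Agent.H90.DE
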