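import Mathlib

/-!
# Cyclotomic orthomorphisms with Frobenius conjugate multipliers (MP_2f0703_co, helper90)

`F` is a finite field of characteristic two, `a` a primitive element, `c x` the class of the exponent of
`x` modulo `e`.  The map `f x = b (c x) * x`, where all `b i` are of the form `a ^ (Q ^ j)` and consecutive
ones differ by the `Q`-Frobenius.
-/

set_option autoImplicit false

namespace Pool.Agent.H90.DE

/-- the data of a walk -/
structure Walk (F : Type) [Field F] (a : F) (e Q : ℕ) (c : F → ZMod e) (b : ZMod e → F) : Prop where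
  ha0 : a ≠ 0
  hc : ∀ n : ℕ, c (a ^ n) = n
  ha : ∀ x : F, x ≠ 0 → ∃ n : ℕ, x = a ^ n
  hQ1 : (Q : ZMod e) = 1
  two : (2 : F) = 0
  hfr : ∀ (x : F) (j : ℕ), (x + 1) ^ (Q ^ j) = x ^ (Q ^ j) + 1
  hb : ∀ i, ∃ j : ℕ, b i = a ^ (Q ^ j)
  hadj : ∀ i, b (i + 1) = (b i) ^ Q ∨ b i = (b (i + 1)) ^ Q
  hback : ∃ i, b (i + 2) = b i
  hinj : ∀ x y : F, x ^ (1 + Q) = y ^ (1 + Q) → x = y
  haQ : a ^ Q ≠ a

section
variable {F : Type} [Field F] {a : F} {e Q : ℕ} {c : F → ZMod e} {b : ZMod e → F}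

/-- the orthomorphism -/
def f (c : F → ZMod e) (b : ZMod e → F) (x : F) : F := b (c x) * x

theorem f_zero : f c b 0 = 0 := by simp [f]

theorem Walk.c_mul (W : Walk F a e Q c b) {x y : F} (hx : x ≠ 0) (hy : y ≠ 0) : c (x * y) = c x + c y := by
  obtain ⟨n, rfl⟩ := W.ha x hx
  obtain ⟨k, rfl⟩ := W.ha y hy
  rw [← pow_add, W.hc, W.hc, W.hc, Nat.cast_add]

theorem Walk.c_pow (W : Walk F a e Q c b) {x : F} (hx : x ≠ 0) (k : ℕ) : c (x ^ k) = k * c x := by
  obtain ⟨n, rfl⟩ := W.ha x hx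
  rw [← pow_mul, W.hc, W.hc, Nat.cast_mul, mul_comm]

theorem Walk.c_frob (W : Walk F a e Q c b) {x : F} (hx : x ≠ 0) (j : ℕ) : c (x ^ (Q ^ j)) = c x := by
  rw [W.c_pow hx, Nat.cast_pow, W.hQ1, one_pow, one_mul]

theorem Walk.c_a (W : Walk F a e Q c b) : c a = 1 := by
  have := W.hc 1
  rwa [pow_one, Nat.cast_one] at this

theorem Walk.b_ne (W : Walk F a e Q c b) (i : ZMod e) : b i ≠ 0 := by
  obtain ⟨j, hj⟩ := W.hb i
  rw [hj]
  exact pow_ne_zero _ W.ha0

theorem Walk.c_b (W : Walk F a e Q c b) (i : ZMod e) : c (b i) = 1 := by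
  obtain ⟨j, hj⟩ := W.hb i
  rw [hj, W.c_frob W.ha0, W.c_a]

theorem Walk.frob_inj (W : Walk F a e Q c b) {x y : F} (j : ℕ) (h : x ^ (Q ^ j) = y ^ (Q ^ j)) : x = y := by
  by_cases hy : y = 0
  · subst hy
    by_cases hQ : Q ^ j = 0
    · have h1 := W.hfr 0 j
      rw [hQ, pow_zero, pow_zero] at h1
      exact absurd (left_eq_add.1 h1) one_ne_zero
    · rw [zero_pow hQ] at h
      exact pow_eq_zero_iff hQ |>.1 h
  · have h1 : (x / y + 1) ^ (Q ^ j) = 0 := by
      rw [W.hfr, div_pow, h, div_self (pow_ne_zero _ hy)]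
      have := W.two
      linear_combination this
    have h2 : x / y + 1 = 0 := by
      by_contra hne
      exact pow_ne_zero _ hne h1
    have h3 : x / y = 1 := by
      have := W.two
      linear_combination h2 - this
    rwa [div_eq_one_iff_eq hy] at h3

theorem Walk.a_ne_one (W : Walk F a e Q c b) : a ≠ 1 := by
  intro h
  apply W.haQ
  rw [h, one_pow]

theorem Walk.b_ne_one (W : Walk F a e Q c b) (i : ZMod e) : b i ≠ 1 := by
  obtain ⟨j, hj⟩ := W.hb i
  intro h
  apply W.a_ne_one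
  apply W.frob_inj j
  rw [← hj, h, one_pow]

theorem Walk.add_one_ne (W : Walk F a e Q c b) {x : F} (hx : x ≠ 1) : x + 1 ≠ 0 := by
  intro h
  apply hx
  have := W.two
  linear_combination h - this

theorem Walk.c_b_one (W : Walk F a e Q c b) (i : ZMod e) : c (b i + 1) = c (a + 1) := by
  obtain ⟨j, hj⟩ := W.hb i
  rw [hj, ← W.hfr, W.c_frob (W.add_one_ne W.a_ne_one)]

theorem Walk.f_ne (W : Walk F a e Q c b) {x : F} (hx : x ≠ 0) : f c b x ≠ 0 :=
  mul_ne_zero (W.b_ne _) hx

theorem Walk.c_f (W : Walk F a e Q c b) {x : F} (hx : x ≠ 0) : c (f c b x) = c x + 1 := by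
  unfold f
  rw [W.c_mul (W.b_ne _) hx, W.c_b, add_comm]

theorem Walk.f_inj (W : Walk F a e Q c b) : Function.Injective (f c b) := by
  intro x y h
  by_cases hx : x = 0
  · subst hx
    rw [f_zero] at h
    by_contra hy
    exact W.f_ne (Ne.symm hy) h.symm
  · by_cases hy : y = 0
    · subst hy
      rw [f_zero] at h
      exact absurd h (W.f_ne hx)
    · have h1 := W.c_f hx
      rw [h, W.c_f hy] at h1
      have h2 : c y = c x := add_right_cancel h1
      unfold f at h
      rw [h2] at h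
      exact mul_left_cancel₀ (W.b_ne _) h

/-- a general principle: a map `x ↦ g (c x) * x` with `c (g i)` constant is injective -/
theorem Walk.inj_of (W : Walk F a e Q c b) (g : ZMod e → F) (γ : ZMod e) (hg : ∀ i, g i ≠ 0)
    (hγ : ∀ i, c (g i) = γ) {x y : F} (h : g (c x) * x = g (c y) * y) : x = y := by
  by_cases hx : x = 0
  · subst hx
    rw [mul_zero] at h
    rcases mul_eq_zero.1 h.symm with h1 | h1
    · exact absurd h1 (hg _)
    · exact h1.symm
  · by_cases hy : y = 0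
    · subst hy
      rw [mul_zero] at h
      rcases mul_eq_zero.1 h with h1 | h1
      · exact absurd h1 (hg _)
      · exact h1
    · have h1 : c (g (c x) * x) = γ + c x := by rw [W.c_mul (hg _) hx, hγ]
      rw [h, W.c_mul (hg _) hy, hγ] at h1
      have h2 : c y = c x := add_left_cancel h1
      rw [h2] at h
      exact mul_left_cancel₀ (hg _) h

theorem Walk.diff_inj (W : Walk F a e Q c b) {x y : F} (h : f c b x + x = f c b y + y) : x = y := by
  apply W.inj_of (fun i => b i + 1) (c (a + 1)) (fun i => W.add_one_ne (W.b_ne_one i)) (fun i => W.c_b_one i)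
  unfold f at h
  show (b (c x) + 1) * x = (b (c y) + 1) * y
  linear_combination h

/-- two consecutive values -/
theorem Walk.pair (W : Walk F a e Q c b) (i : ZMod e) : ∃ j : ℕ,
    (b i = a ^ (Q ^ j) ∧ b (i + 1) = (a ^ (Q ^ j)) ^ Q) ∨ (b i = (a ^ (Q ^ j)) ^ Q ∧ b (i + 1) = a ^ (Q ^ j)) := by
  rcases W.hadj i with h | h
  · obtain ⟨j, hj⟩ := W.hb i
    refine ⟨j, Or.inl ⟨hj, ?_⟩⟩
    rw [h, hj]
  · obtain ⟨j, hj⟩ := W.hb (i + 1)
    refine ⟨j, Or.inr ⟨?_, hj⟩⟩
    rw [h, hj]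

theorem Walk.pair_mul (W : Walk F a e Q c b) (i : ZMod e) : ∃ j : ℕ, b i * b (i + 1) = (a ^ (1 + Q)) ^ (Q ^ j) := by
  obtain ⟨j, h | h⟩ := W.pair i
  · refine ⟨j, ?_⟩
    rw [h.1, h.2]; ring
  · refine ⟨j, ?_⟩
    rw [h.1, h.2]; ring

theorem Walk.a_one_Q (W : Walk F a e Q c b) : a ^ (1 + Q) ≠ 1 := by
  intro h
  apply W.a_ne_one
  apply W.hinj
  rw [h, one_pow]

theorem Walk.pair_ne_one (W : Walk F a e Q c b) (i : ZMod e) : b i * b (i + 1) ≠ 1 := by
  obtain ⟨j, hj⟩ := W.pair_mul i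
  intro h
  apply W.a_one_Q
  apply W.frob_inj j
  rw [← hj, h, one_pow]

theorem Walk.c_pair (W : Walk F a e Q c b) (i : ZMod e) : c (b i * b (i + 1) + 1) = c (a ^ (1 + Q) + 1) := by
  obtain ⟨j, hj⟩ := W.pair_mul i
  rw [hj, ← W.hfr, W.c_frob (W.add_one_ne W.a_one_Q)]

theorem Walk.f_f (W : Walk F a e Q c b) (x : F) : f c b (f c b x) = b (c x) * b (c x + 1) * x := by
  by_cases hx : x = 0
  · subst hx
    rw [f_zero, f_zero, mul_zero]
  · have h := W.c_f hx
    show b (c (f c b x)) * f c b x = _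
    rw [h]
    unfold f
    ring

theorem Walk.diff2_inj (W : Walk F a e Q c b) {x y : F}
    (h : f c b (f c b x) + x = f c b (f c b y) + y) : x = y := by
  apply W.inj_of (fun i => b i * b (i + 1) + 1) (c (a ^ (1 + Q) + 1))
    (fun i => W.add_one_ne (W.pair_ne_one i)) (fun i => W.c_pair i)
  rw [W.f_f, W.f_f] at h
  show (b (c x) * b (c x + 1) + 1) * x = (b (c y) * b (c y + 1) + 1) * y
  linear_combination h

/-- consecutive values are different -/
theorem Walk.b_succ_ne (W : Walk F a e Q c b) (i : ZMod e) : b i ≠ b (i + 1) := by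
  have key : ∀ j : ℕ, (a ^ (Q ^ j)) ^ Q ≠ a ^ (Q ^ j) := by
    intro j h
    apply W.haQ
    apply W.frob_inj j
    rw [← pow_mul, mul_comm Q, pow_mul]
    exact h
  obtain ⟨j, h | h⟩ := W.pair i
  · rw [h.1, h.2]; exact (key j).symm
  · rw [h.1, h.2]; exact key j

/-- if the products of two consecutive pairs are equal, then the pairs are equal as sets -/
theorem Walk.pair_eq (W : Walk F a e Q c b) {i k : ZMod e} (h : b i * b (i + 1) = b k * b (k + 1)) :
    b i = b k ∨ b i = b (k + 1) := by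
  obtain ⟨j, h1⟩ := W.pair i
  obtain ⟨l, h2⟩ := W.pair k
  have e1 : b i * b (i + 1) = (a ^ (Q ^ j)) ^ (1 + Q) := by
    rcases h1 with h1 | h1 <;> rw [h1.1, h1.2] <;> ring
  have e2 : b k * b (k + 1) = (a ^ (Q ^ l)) ^ (1 + Q) := by
    rcases h2 with h2 | h2 <;> rw [h2.1, h2.2] <;> ring
  have h3 : a ^ (Q ^ j) = a ^ (Q ^ l) := by
    apply W.hinj
    rw [← e1, ← e2, h]
  rcases h1 with h1 | h1 <;> rcases h2 with h2 | h2
  · left; rw [h1.1, h2.1, h3]
  · right; rw [h1.1, h2.2, h3]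
  · right; rw [h1.1, h2.2, h3]
  · left; rw [h1.1, h2.1, h3]

/-- the intercalate identity fails somewhere -/
theorem Walk.no_identity (W : Walk F a e Q c b)
    (H : ∀ y : F, y ≠ 0 → f c b (y + f c b y) = f c b y + f c b (f c b y)) : False := by
  have key : ∀ i : ZMod e, b (i + c (a + 1)) * (1 + b i) = b i * (1 + b (i + 1)) := by
    intro i
    obtain ⟨y, hy, hyc⟩ : ∃ y : F, y ≠ 0 ∧ c y = i := by
      obtain ⟨n, hn⟩ : ∃ n : ℕ, (n : ZMod e) = i := by
        by_cases he : e = 0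
        · exfalso
          subst he
          have h0 := W.hb 0
          have h1 := W.c_a
          obtain ⟨n, hn⟩ := W.ha (a⁻¹) (inv_ne_zero W.ha0)
          have h2 : c (a * a⁻¹) = c a + c a⁻¹ := W.c_mul W.ha0 (inv_ne_zero W.ha0)
          rw [mul_inv_cancel₀ W.ha0, h1, hn, W.hc] at h2
          have h3 : c (1 : F) = 0 := by
            have := W.hc 0
            rwa [pow_zero, Nat.cast_zero] at this
          rw [h3] at h2
          have h4 : (0 : ℤ) = 1 + (n : ℤ) := h2
          omega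
        · haveI : NeZero e := ⟨he⟩
          exact ⟨i.val, ZMod.natCast_zmod_val i⟩
      exact ⟨a ^ n, pow_ne_zero _ W.ha0, by rw [W.hc, hn]⟩
    have h1 := H y hy
    have e1 : y + f c b y = (b i + 1) * y := by unfold f; rw [hyc]; ring
    have e2 : c ((b i + 1) * y) = i + c (a + 1) := by
      rw [W.c_mul (W.add_one_ne (W.b_ne_one i)) hy, W.c_b_one, hyc, add_comm]
    have e3 : f c b ((b i + 1) * y) = b (i + c (a + 1)) * ((b i + 1) * y) := by
      show b (c ((b i + 1) * y)) * _ = _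
      rw [e2]
    rw [e1, e3, W.f_f, hyc] at h1
    have e4 : f c b y = b i * y := by unfold f; rw [hyc]
    rw [e4] at h1
    apply mul_right_cancel₀ hy
    linear_combination h1
  obtain ⟨i, hi⟩ := W.hback
  have k1 := key i
  have k2 := key (i + 1)
  have hi' : b (i + 1 + 1) = b i := by
    rw [add_assoc, one_add_one_eq_two, hi]
  rw [hi'] at k2
  have hsh : i + 1 + c (a + 1) = i + c (a + 1) + 1 := by ring
  rw [hsh] at k2
  have hp : b (i + c (a + 1)) * b (i + c (a + 1) + 1) = b i * b (i + 1) := by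
    have n1 : 1 + b i ≠ 0 := by rw [add_comm]; exact W.add_one_ne (W.b_ne_one i)
    have n2 : 1 + b (i + 1) ≠ 0 := by rw [add_comm]; exact W.add_one_ne (W.b_ne_one _)
    apply mul_right_cancel₀ (mul_ne_zero n1 n2)
    calc b (i + c (a + 1)) * b (i + c (a + 1) + 1) * ((1 + b i) * (1 + b (i + 1)))
        = (b (i + c (a + 1)) * (1 + b i)) * (b (i + c (a + 1) + 1) * (1 + b (i + 1))) := by ring
      _ = (b i * (1 + b (i + 1))) * (b (i + 1) * (1 + b i)) := by rw [k1, k2]
      _ = _ := by ring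
  rcases W.pair_eq hp with h | h
  · rw [h] at k1
    have h5 := mul_left_cancel₀ (W.b_ne i) k1
    exact W.b_succ_ne i (add_left_cancel h5)
  · rw [h] at k1
    exact W.b_succ_ne i (by linear_combination -k1)

end

end Pool.Agent.H90.DE
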