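import Mathlib

/-!
# A primitive element, the classes modulo `e` and a faithful character (MP_2f0703_co, helper90)
-/

set_option autoImplicit false

namespace Pool.Agent.H90.DE

open Finset

/-- a primitive element `a`, the classes `c` modulo `e`, a faithful character `θ` -/
structure Dat (F : Type) [Field F] [Fintype F] (a : F) (e N : ℕ) (c : F → ZMod e) (θ : MulChar F ℂ) : Prop where
  ha0 : a ≠ 0
  ha : ∀ x : F, x ≠ 0 → ∃ s : ℕ, x = a ^ s
  hc : ∀ s : ℕ, c (a ^ s) = s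
  he : 0 < e
  hN0 : 0 < N
  hN : e * N = Fintype.card F - 1
  ha1 : ∀ s : ℕ, a ^ s = 1 ↔ e * N ∣ s
  hθ : ∀ s : ℕ, θ a ^ s = 1 ↔ e * N ∣ s

/-- `x` in class `1`, `x + 1` in class `γ` -/
noncomputable def setA {F : Type} [Field F] [Fintype F] {e : ℕ} (c : F → ZMod e) (γ : ZMod e) : Finset F := by
  classical
  exact univ.filter fun x => x ≠ 0 ∧ c x = 1 ∧ x + 1 ≠ 0 ∧ c (x + 1) = γ

theorem mem_setA {F : Type} [Field F] [Fintype F] {e : ℕ} {c : F → ZMod e} {γ : ZMod e} {x : F} :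
    x ∈ setA c γ ↔ x ≠ 0 ∧ c x = 1 ∧ x + 1 ≠ 0 ∧ c (x + 1) = γ := by
  classical
  unfold setA
  rw [mem_filter]
  exact ⟨fun h => h.2, fun h => ⟨mem_univ _, h⟩⟩

end Pool.Agent.H90.DE
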