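import Pool.Agent.H90.DE.Dat

/-!
# The indicator of a class (MP_2f0703_co, helper90)

FRAME. `z = a ^ s`, `w = (θ z / θ a ^ j) ^ N` satisfies `w ^ e = 1` (`θ a ^ (e * N) = 1` by `hθ`), and `w = 1` if and only if `(s : ZMod e) = j` (compare
`θ a ^ (N * s)` and `θ a ^ (N * j)`; `hθ` with differences, `θ a ≠ 0`). Geometric sum.
-/

set_option autoImplicit false

namespace Pool.Agent.H90.DE

open Finset

private theorem datA_shift {q : ℂ} (hq : q ≠ 0) {e N : ℕ} (hN : 0 < N) (h : ∀ s : ℕ, q ^ s = 1 ↔ e * N ∣ s)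
    (s d : ℕ) : q ^ ((s + d) * N) = q ^ (s * N) ↔ ((s + d : ℕ) : ZMod e) = s := by
  have h1 : q ^ ((s + d) * N) = q ^ (s * N) ↔ q ^ (d * N) = 1 := by
    rw [add_mul, pow_add]
    constructor
    · intro h2
      exact mul_left_cancel₀ (pow_ne_zero _ hq) (h2.trans (mul_one _).symm)
    · intro h2
      rw [h2, mul_one]
  rw [h1, h, Nat.mul_dvd_mul_iff_right hN, Nat.cast_add, add_eq_left]
  exact (ZMod.natCast_eq_zero_iff d e).symm

private theorem datA_iff {q : ℂ} (hq : q ≠ 0) {e N : ℕ} (hN : 0 < N) (h : ∀ s : ℕ, q ^ s = 1 ↔ e * N ∣ s)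
    (s j : ℕ) : q ^ (s * N) = q ^ (j * N) ↔ (s : ZMod e) = j := by
  rcases le_total j s with hle | hle
  · obtain ⟨d, rfl⟩ := Nat.exists_eq_add_of_le hle
    exact datA_shift hq hN h j d
  · obtain ⟨d, rfl⟩ := Nat.exists_eq_add_of_le hle
    rw [eq_comm, datA_shift hq hN h s d, eq_comm]

theorem Dat.ind_class {F : Type} [Field F] [Fintype F] {a : F} {e N : ℕ} {c : F → ZMod e} {θ : MulChar F ℂ}
    (D : Dat F a e N c θ) {z : F} (hz : z ≠ 0) (j : ℕ) :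
    ∑ i ∈ range e, (θ z / θ a ^ j) ^ (N * i) = if c z = j then (e : ℂ) else 0 := by
  obtain ⟨s, rfl⟩ := D.ha z hz
  have heN : 0 < e * N := Nat.mul_pos D.he D.hN0
  have h1 : θ a ^ (e * N) = 1 := (D.hθ _).2 dvd_rfl
  have hq : θ a ≠ 0 := by
    intro h
    rw [h, zero_pow heN.ne'] at h1
    exact zero_ne_one h1
  rw [D.hc, map_pow]
  obtain ⟨w, hw⟩ : ∃ w : ℂ, w = (θ a ^ s / θ a ^ j) ^ N := ⟨_, rfl⟩
  have e1 : ∑ i ∈ range e, (θ a ^ s / θ a ^ j) ^ (N * i) = ∑ i ∈ range e, w ^ i :=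
    sum_congr rfl fun i _ => by rw [hw, pow_mul]
  have hwe : w ^ e = 1 := by
    rw [hw, ← pow_mul, mul_comm N e, div_pow, ← pow_mul, ← pow_mul, mul_comm s, mul_comm j,
      pow_mul (θ a) (e * N) s, pow_mul (θ a) (e * N) j, h1, one_pow, one_pow, div_one]
  have hw1 : w = 1 ↔ (s : ZMod e) = j := by
    rw [hw, div_pow, ← pow_mul, ← pow_mul, div_eq_one_iff_eq (pow_ne_zero _ hq)]
    exact datA_iff hq D.hN0 D.hθ s j
  rw [e1]
  split_ifs with h
  · rw [hw1.2 h]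
    simp
  · have hne : w ≠ 1 := fun h' => h (hw1.1 h')
    rw [geom_sum_eq hne, hwe, sub_self, zero_div]

end Pool.Agent.H90.DE
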