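import Pool.Agent.H90.DE.Dat

/-!
# Existence of the data (MP_2f0703_co, helper90)

A generator `g` of `Fˣ`, `a = g`, a character of order `q - 1` (`MulChar.exists_mulChar_orderOf`), `c` the exponent modulo `e`.
-/

set_option autoImplicit false

namespace Pool.Agent.H90.DE

open Finset

theorem exists_dat (F : Type) [Field F] [Fintype F] {e N : ℕ} (he : 0 < e) (hN : e * N = Fintype.card F - 1) :
    ∃ (a : F) (c : F → ZMod e) (θ : MulChar F ℂ), Dat F a e N c θ := by
  classical
  have hq : 0 < Fintype.card F - 1 := by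
    have := Fintype.one_lt_card (α := F)
    omega
  have hN0 : 0 < N := by
    rcases Nat.eq_zero_or_pos N with h | h
    · rw [h, mul_zero] at hN
      omega
    · exact h
  have heq : e ∣ Fintype.card F - 1 := ⟨N, hN.symm⟩
  obtain ⟨g, hg⟩ := IsCyclic.exists_generator (α := Fˣ)
  have hord : orderOf g = Fintype.card F - 1 := by
    rw [orderOf_eq_card_of_forall_mem_zpowers hg, Nat.card_eq_fintype_card, Fintype.card_units]
  have hfinO : IsOfFinOrder g := isOfFinOrder_of_finite g
  obtain ⟨a, ha⟩ : ∃ a : F, a = (g : F) := ⟨_, rfl⟩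
  have ha0 : a ≠ 0 := by
    rw [ha]
    exact g.ne_zero
  have hall : ∀ x : F, x ≠ 0 → ∃ n : ℕ, x = a ^ n := by
    intro x hx
    have h1 := hg (Units.mk0 x hx)
    rw [← hfinO.mem_powers_iff_mem_zpowers] at h1
    obtain ⟨n, hn⟩ := h1
    refine ⟨n, ?_⟩
    have h2 : g ^ n = Units.mk0 x hx := hn
    have h3 := congrArg Units.val h2
    rw [Units.val_pow_eq_pow_val] at h3
    rw [ha]
    exact h3.symm
  have hpow_eq : ∀ n n' : ℕ, a ^ n = a ^ n' → (n : ZMod e) = n' := by
    intro n n' h
    have h1 : g ^ n = g ^ n' := by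
      apply Units.ext
      rw [Units.val_pow_eq_pow_val, Units.val_pow_eq_pow_val, ← ha]
      exact h
    have h2 := pow_eq_pow_iff_modEq.1 h1
    rw [hord] at h2
    exact (ZMod.natCast_eq_natCast_iff _ _ _).2 (h2.of_dvd heq)
  let c : F → ZMod e := fun x => if h : ∃ n : ℕ, x = a ^ n then ((Classical.choose h : ℕ) : ZMod e) else 0
  have hc : ∀ n : ℕ, c (a ^ n) = n := by
    intro n
    have h : ∃ n' : ℕ, a ^ n = a ^ n' := ⟨n, rfl⟩
    show (if h : ∃ n' : ℕ, a ^ n = a ^ n' then ((Classical.choose h : ℕ) : ZMod e) else 0) = n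
    rw [dif_pos h]
    exact (hpow_eq _ _ (Classical.choose_spec h)).symm
  obtain ⟨θ, hθ⟩ := MulChar.exists_mulChar_orderOf F (dvd_refl (Fintype.card F - 1))
    (Complex.isPrimitiveRoot_exp _ hq.ne')
  refine ⟨a, c, θ, ⟨ha0, hall, hc, he, hN0, hN, fun s => ?_, fun s => ?_⟩⟩
  · rw [hN, ← hord, orderOf_dvd_iff_pow_eq_one]
    constructor
    · intro h
      apply Units.ext
      rw [Units.val_pow_eq_pow_val, Units.val_one, ← ha]
      exact h
    · intro h
      have h1 := congrArg Units.val h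
      rwa [Units.val_pow_eq_pow_val, Units.val_one, ← ha] at h1
  · rw [hN]
    conv_rhs => rw [← hθ]
    rw [orderOf_dvd_iff_pow_eq_one, MulChar.eq_one_iff]
    constructor
    · intro h x
      obtain ⟨n, hn⟩ := hall (x : F) x.ne_zero
      rw [MulChar.pow_apply_coe, hn, map_pow, ← pow_mul, mul_comm, pow_mul, h, one_pow]
    · intro h
      have h1 := h g
      rwa [MulChar.pow_apply_coe, ← ha] at h1

end Pool.Agent.H90.DE
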