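import Mathlib

/-!
# Arithmetic of polynomials over the field with two elements in bits (MP_2f0703_co, helper90)

FRAME. `ev t n b` is the value at `t` of the polynomial with the lowest `n` bits of `b` as coefficients. All proofs by induction on the fuel.
`ev_xor`: `(a ^^^ b) / 2 = a / 2 ^^^ b / 2` and the last bits add modulo `2`, `1 + 1 = 0` in `R`. `mulx`: `ev t k (mulx k f a) = t * ev t k a` for `a < 2 ^ k`
(`2 a < 2 ^ (k + 1)`; if bit `k` is set then `ev t (k + 1) (2 a) = t * ev t k a` and adding `f`, whose value is `0`, removes bit `k`) and `mulx k f a < 2 ^ k`.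
-/

set_option autoImplicit false

namespace Pool.Agent.H90.DE

/-- the value at `t` of the polynomial whose coefficients are the `n` lowest bits of `b` -/
def ev {R : Type} [CommRing R] (t : R) : ℕ → ℕ → R
  | 0, _ => 0
  | n + 1, b => (if b % 2 = 1 then 1 else 0) + t * ev t n (b / 2)

/-- multiplication by `X` modulo `f` (of degree `k`) -/
def mulx (k f a : ℕ) : ℕ := if (2 * a).testBit k then (2 * a) ^^^ f else 2 * a

/-- multiplication modulo `f` -/
def mulm (k f : ℕ) : ℕ → ℕ → ℕ → ℕ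
  | 0, _, _ => 0
  | n + 1, a, b => (if b % 2 = 1 then a else 0) ^^^ mulm k f n (mulx k f a) (b / 2)

/-- powers modulo `f` -/
def powm (k f : ℕ) : ℕ → ℕ → ℕ → ℕ
  | 0, _, _ => 1
  | n + 1, a, e => if e % 2 = 1 then mulm k f k a (powm k f n (mulm k f k a a) (e / 2)) else powm k f n (mulm k f k a a) (e / 2)

theorem ev_xor {R : Type} [CommRing R] (two : (2 : R) = 0) (t : R) (n a b : ℕ) : ev t n (a ^^^ b) = ev t n a + ev t n b := by
  induction n generalizing a b with
  | zero => simp [ev]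
  | succ n ih =>
    have h2 : (1 : R) + 1 = 0 := by
      rw [one_add_one_eq_two]
      exact two
    have hd : (a ^^^ b) / 2 = a / 2 ^^^ b / 2 := Nat.xor_div_two
    have hm : (a ^^^ b) % 2 = 1 ↔ ¬ (a % 2 = 1 ↔ b % 2 = 1) := Nat.xor_mod_two_eq_one
    unfold ev
    rw [hd, ih]
    by_cases ha : a % 2 = 1 <;> by_cases hb : b % 2 = 1 <;> simp only [hm, ha, hb, if_true, if_false, iff_true, iff_false,
      not_true_eq_false, not_false_eq_true]
    · linear_combination -h2
    · ring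
    · ring
    · ring

private theorem ev_zero {R : Type} [CommRing R] (t : R) (n : ℕ) : ev t n 0 = 0 := by
  induction n with
  | zero => rfl
  | succ n ih =>
    unfold ev
    rw [Nat.zero_div, ih]
    simp

private theorem ev_double {R : Type} [CommRing R] (t : R) (n a : ℕ) : ev t (n + 1) (2 * a) = t * ev t n a := by
  unfold ev
  have h1 : (2 * a) % 2 = 0 := by omega
  have h2 : 2 * a / 2 = a := by omega
  rw [h1, h2]
  simp only [zero_ne_one, if_false, zero_add]
  cases n <;> rfl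

private theorem ev_top {R : Type} [CommRing R] (t : R) (n b : ℕ) (hb : b < 2 ^ n) : ev t (n + 1) b = ev t n b := by
  induction n generalizing b with
  | zero =>
    have h : b = 0 := by simpa using hb
    rw [h, ev_zero, ev_zero]
  | succ n ih =>
    have h1 : ev t (n + 1 + 1) b = (if b % 2 = 1 then 1 else 0) + t * ev t (n + 1) (b / 2) := rfl
    have h2 : ev t (n + 1) b = (if b % 2 = 1 then 1 else 0) + t * ev t n (b / 2) := rfl
    rw [h1, h2, ih (b / 2) (by rw [pow_succ] at hb; omega)]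

private theorem lt_of_bit {x k : ℕ} (h1 : x < 2 ^ (k + 1)) (h2 : x.testBit k = false) : x < 2 ^ k := by
  by_contra h
  rw [not_lt] at h
  have h3 : x / 2 ^ k = 1 := by
    rw [pow_succ] at h1
    exact Nat.div_eq_of_lt_le (by omega) (by omega)
  rw [Nat.testBit_eq_decide_div_mod_eq, h3] at h2
  simp at h2

private theorem bit_of {x k : ℕ} (h1 : x < 2 ^ (k + 1)) (h : 2 ^ k ≤ x) : x.testBit k = true := by
  have h3 : x / 2 ^ k = 1 := by
    rw [pow_succ] at h1
    exact Nat.div_eq_of_lt_le (by omega) (by omega)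
  rw [Nat.testBit_eq_decide_div_mod_eq, h3]
  simp

private theorem ev_mulx {R : Type} [CommRing R] (two : (2 : R) = 0) (t : R) (k f : ℕ) (hf1 : 2 ^ k ≤ f) (hf2 : f < 2 ^ (k + 1))
    (hf : ev t (k + 1) f = 0) (a : ℕ) (ha : a < 2 ^ k) :
    mulx k f a < 2 ^ k ∧ ev t k (mulx k f a) = t * ev t k a := by
  have h2a : 2 * a < 2 ^ (k + 1) := by
    rw [pow_succ]
    omega
  unfold mulx
  by_cases h : (2 * a).testBit k = true
  · rw [if_pos h]
    have h1 : 2 * a ^^^ f < 2 ^ k := by
      apply lt_of_bit (Nat.xor_lt_two_pow h2a hf2)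
      rw [Nat.testBit_xor, h, bit_of hf2 hf1]
      rfl
    refine ⟨h1, ?_⟩
    rw [← ev_top t k _ h1, ev_xor two, hf, add_zero, ev_double]
  · rw [if_neg h]
    have h1 : 2 * a < 2 ^ k := lt_of_bit h2a (by simpa using h)
    refine ⟨h1, ?_⟩
    rw [← ev_top t k _ h1, ev_double]

private theorem mulm_gen {R : Type} [CommRing R] (two : (2 : R) = 0) (t : R) (k f : ℕ) (hf1 : 2 ^ k ≤ f) (hf2 : f < 2 ^ (k + 1))
    (hf : ev t (k + 1) f = 0) (n a b : ℕ) (ha : a < 2 ^ k) :
    mulm k f n a b < 2 ^ k ∧ ev t k (mulm k f n a b) = ev t k a * ev t n b := by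
  induction n generalizing a b with
  | zero =>
    refine ⟨Nat.two_pow_pos k, ?_⟩
    show ev t k 0 = ev t k a * 0
    rw [ev_zero, mul_zero]
  | succ n ih =>
    obtain ⟨h1, h2⟩ := ev_mulx two t k f hf1 hf2 hf a ha
    obtain ⟨h3, h4⟩ := ih (mulx k f a) (b / 2) h1
    have e1 : mulm k f (n + 1) a b = (if b % 2 = 1 then a else 0) ^^^ mulm k f n (mulx k f a) (b / 2) := rfl
    have e2 : ev t (n + 1) b = (if b % 2 = 1 then 1 else 0) + t * ev t n (b / 2) := rfl
    rw [e1, e2, ev_xor two, h4, h2]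
    refine ⟨Nat.xor_lt_two_pow ?_ h3, ?_⟩
    · split_ifs
      · exact ha
      · exact Nat.two_pow_pos k
    · split_ifs
      · ring
      · rw [ev_zero]
        ring

theorem ev_mulm {R : Type} [CommRing R] (two : (2 : R) = 0) (t : R) (k f : ℕ) (hf1 : 2 ^ k ≤ f) (hf2 : f < 2 ^ (k + 1))
    (hf : ev t (k + 1) f = 0) (a b : ℕ) (ha : a < 2 ^ k) (hb : b < 2 ^ k) :
    mulm k f k a b < 2 ^ k ∧ ev t k (mulm k f k a b) = ev t k a * ev t k b :=
  mulm_gen two t k f hf1 hf2 hf k a b ha

theorem ev_powm {R : Type} [CommRing R] (two : (2 : R) = 0) (t : R) (k f : ℕ) (hk : 1 ≤ k) (hf1 : 2 ^ k ≤ f) (hf2 : f < 2 ^ (k + 1))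
    (hf : ev t (k + 1) f = 0) (n a e : ℕ) (ha : a < 2 ^ k) (he : e < 2 ^ n) :
    powm k f n a e < 2 ^ k ∧ ev t k (powm k f n a e) = (ev t k a) ^ e := by
  induction n generalizing a e with
  | zero =>
    have h : e = 0 := by simpa using he
    subst h
    have e1 : powm k f 0 a 0 = 1 := rfl
    rw [e1, pow_zero]
    refine ⟨Nat.one_lt_two_pow (by omega), ?_⟩
    obtain ⟨j, rfl⟩ : ∃ j, k = j + 1 := ⟨k - 1, by omega⟩
    have e2 : ev t (j + 1) 1 = (if 1 % 2 = 1 then 1 else 0) + t * ev t j (1 / 2) := rfl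
    rw [e2]
    have e3 : 1 / 2 = 0 := by norm_num
    rw [e3, ev_zero]
    simp
  | succ n ih =>
    obtain ⟨h1, h2⟩ := ev_mulm two t k f hf1 hf2 hf a a ha ha
    obtain ⟨h3, h4⟩ := ih (mulm k f k a a) (e / 2) h1 (by rw [pow_succ] at he; omega)
    have e1 : powm k f (n + 1) a e = if e % 2 = 1 then mulm k f k a (powm k f n (mulm k f k a a) (e / 2))
      else powm k f n (mulm k f k a a) (e / 2) := rfl
    rw [e1]
    by_cases h : e % 2 = 1
    · rw [if_pos h]
      obtain ⟨h5, h6⟩ := ev_mulm two t k f hf1 hf2 hf a _ ha h3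
      refine ⟨h5, ?_⟩
      rw [h6, h4, h2, ← pow_two, ← pow_mul, ← pow_succ']
      congr 1
      omega
    · rw [if_neg h]
      refine ⟨h3, ?_⟩
      rw [h4, h2, ← pow_two, ← pow_mul]
      congr 1
      omega

end Pool.Agent.H90.DE
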