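import Mathlib

/-!
# Exponents whose sums are units (MP_2f0703_co, helper90)

FRAME. Take `N0 = (e * K * (e * K) + 2) ^ (e * K + 1) + 1` or anything larger. We may assume `1 ≤ K`. Let `e ∣ n`, `N0 ≤ n`.

All cases: `x i = 1 + i * r` with a number `r` that is a multiple of `e`.

Case 1: some prime `p ∣ n` has `e * K < p`. Write `n = p ^ v * n'`, `v = n.factorization p`, `n' = ordCompl[p] n`; `p` does not divide `e`
(as `e < p`), so `e ∣ n'`, and `p` is coprime to `e * n'`. Chinese remainder (`Nat.chineseRemainder`): `r ≡ 1 [MOD p]`,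
`r ≡ 0 [MOD e * n']`. Different: `x i ≡ 1 + i [MOD p]`, so `x i % n = x j % n` gives `i ≡ j [MOD p]`, `i = j` since both are below
`K ≤ p`. Sums: for `q = p` the sum is congruent mod `p` to `∑ (1 + s t)`, which lies between `e ≥ 1` and `e * K < p`, so `p` does not
divide it. For a prime `q ≠ p`, `q ∣ n / e`: `q ∣ n'`, so `q * e ∣ e * n' ∣ r`, all `x i ≡ 1 [MOD q * e]`, the sum is
`≡ e [MOD q * e]`, and `q * e` does not divide `e`.

Case 2: all primes dividing `n` are at most `e * K`. Then some prime `p ∣ n` has `p ^ (n.factorization p) > e * p * K`: otherwise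
`n = ∏ p ^ (n.factorization p) ≤ (e * (e * K) * K) ^ (number of primes) ≤ (e * K * (e * K)) ^ (e * K)` (`Nat.factorization_prod_pow_eq_self`,
`Finset.prod_le_pow_card`), against `N0 ≤ n`. With `v = n.factorization p`, `n' = n / p ^ v` (coprime to `p`) take
`r = e * p * n'`. For every prime `q ∣ n / e` one has `q * e ∣ r` (if `q = p` clear; otherwise `q ∣ n'`), so sums as above.
Different: `n ∣ (j - i) * e * p * n'` (`i < j < K`) gives `p ^ v ∣ (j - i) * e * p`, which is positive and smaller than `p ^ v`.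
-/

set_option autoImplicit false

namespace Pool.Agent.H90.DE

private theorem expo_sum (e q r : ℕ) (he : 1 ≤ e) (hq : q.Prime) (hr : q * e ∣ r) (ι : Type) (I : Finset ι)
    (s : ι → ℕ) (hI : I.card = e) : ¬ (q * e ∣ ∑ t ∈ I, (1 + s t * r)) := by
  intro h
  have h1 : ∑ t ∈ I, (1 + s t * r) = e + (∑ t ∈ I, s t) * r := by
    rw [Finset.sum_add_distrib, Finset.sum_const, hI, smul_eq_mul, mul_one, Finset.sum_mul]
  rw [h1] at h
  have h2 : q * e ∣ e := (Nat.dvd_add_left (Dvd.dvd.mul_left hr _)).1 h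
  have h3 := Nat.le_of_dvd he h2
  have h4 := hq.two_le
  nlinarith

private theorem expo_one (e K p r : ℕ) (he : 1 ≤ e) (hp : e * K < p) (hr : r ≡ 1 [MOD p]) (ι : Type) (I : Finset ι)
    (s : ι → ℕ) (hI : I.card = e) (hs : ∀ t ∈ I, s t < K) : ¬ (p ∣ ∑ t ∈ I, (1 + s t * r)) := by
  intro h
  have h1 : ∑ t ∈ I, (1 + s t * r) = e + (∑ t ∈ I, s t) * r := by
    rw [Finset.sum_add_distrib, Finset.sum_const, hI, smul_eq_mul, mul_one, Finset.sum_mul]
  have h2 : e + (∑ t ∈ I, s t) * r ≡ e + (∑ t ∈ I, s t) * 1 [MOD p] := (hr.mul_left _).add_left _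
  rw [h1] at h
  have h3 : p ∣ e + (∑ t ∈ I, s t) * 1 := (Nat.modEq_zero_iff_dvd.1 (h2.symm.trans (Nat.modEq_zero_iff_dvd.2 h)))
  rw [mul_one] at h3
  have h4 : e + ∑ t ∈ I, s t = ∑ t ∈ I, (1 + s t) := by
    rw [Finset.sum_add_distrib, Finset.sum_const, hI, smul_eq_mul, mul_one]
  have h5 : ∑ t ∈ I, (1 + s t) ≤ ∑ _t ∈ I, K := Finset.sum_le_sum fun t ht => by
    have := hs t ht
    omega
  rw [Finset.sum_const, hI, smul_eq_mul] at h5
  have h6 := Nat.le_of_dvd (by omega) h3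
  omega

private theorem expo_big (e K n : ℕ) (he : 1 ≤ e) (hK : 1 ≤ K) (hn : ((e * K) ^ 2) ^ (e * K) + 1 ≤ n)
    (h : ∀ p : ℕ, p.Prime → p ∣ n → p ≤ e * K) :
    ∃ p : ℕ, p.Prime ∧ p ∣ n ∧ e * p * K < p ^ n.factorization p := by
  by_contra hcon
  push Not at hcon
  have hn0 : n ≠ 0 := by omega
  have h3 : ∏ p ∈ n.primeFactors, p ^ n.factorization p = n := Nat.prod_factorization_pow_eq_self hn0
  have h4 : ∏ p ∈ n.primeFactors, p ^ n.factorization p ≤ ((e * K) ^ 2) ^ n.primeFactors.card := by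
    refine Finset.prod_le_pow_card _ _ _ fun p hp => ?_
    have hpp := Nat.prime_of_mem_primeFactors hp
    have hpd := Nat.dvd_of_mem_primeFactors hp
    refine (hcon p hpp hpd).trans ?_
    have h5 := h p hpp hpd
    calc e * p * K = (e * K) * p := by ring
      _ ≤ (e * K) * (e * K) := Nat.mul_le_mul_left _ h5
      _ = (e * K) ^ 2 := by ring
  have h5 : n.primeFactors.card ≤ e * K := by
    have h6 : n.primeFactors ⊆ Finset.Icc 1 (e * K) := by
      intro p hp
      have hpp := Nat.prime_of_mem_primeFactors hp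
      have hpd := Nat.dvd_of_mem_primeFactors hp
      exact Finset.mem_Icc.2 ⟨hpp.one_le, h p hpp hpd⟩
    have h7 := Finset.card_le_card h6
    rwa [Nat.card_Icc, Nat.add_sub_cancel] at h7
  have h6 : 1 ≤ (e * K) ^ 2 := Nat.one_le_pow _ _ (Nat.mul_pos he hK)
  have h7 : ((e * K) ^ 2) ^ n.primeFactors.card ≤ ((e * K) ^ 2) ^ (e * K) := Nat.pow_le_pow_right h6 h5
  rw [h3] at h4
  omega

private theorem core (L K N : ℕ) (hKL : K ≤ L) (hN : K * L.factorial + 1 ≤ N) :
    ∃ r : ℕ, (∀ q : ℕ, q.Prime → q ∣ N → ∀ S, S + 1 ≤ L → ¬ q ∣ 1 + r * S) ∧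
      ∀ d, 0 < d → d < K → ¬ N ∣ d * r := by
  have hN0 : N ≠ 0 := by omega
  by_cases hp : ∃ p : ℕ, p.Prime ∧ p ∣ N ∧ L < p
  · obtain ⟨p, hp, hpN, hLp⟩ := hp
    obtain ⟨r, hr1, hr2⟩ := Nat.chineseRemainder (Nat.coprime_ordCompl hp hN0) 1 0
    have hr : N / p ^ N.factorization p ∣ r := (Nat.modEq_zero_iff_dvd).mp hr2
    refine ⟨r, ?_, ?_⟩
    · intro q hq hqN S hS hdvd
      by_cases hqp : q = p
      · subst hqp
        have h1 : 1 + r * S ≡ 1 + 1 * S [MOD q] := (Nat.ModEq.refl 1).add (hr1.mul_right S)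
        have h2 : q ∣ 1 + 1 * S := (h1.dvd_iff dvd_rfl).mp hdvd
        have h3 := Nat.le_of_dvd (by omega) h2
        omega
      · have h1 : q ∣ p ^ N.factorization p * (N / p ^ N.factorization p) := by
          rw [Nat.ordProj_mul_ordCompl_eq_self]; exact hqN
        have h2 : Nat.Coprime q (p ^ N.factorization p) :=
          Nat.Coprime.pow_right _ ((Nat.coprime_primes hq hp).mpr hqp)
        have h3 : q ∣ r * S := ((h2.dvd_of_dvd_mul_left h1).trans hr).mul_right S
        have h4 : q ∣ 1 := (Nat.dvd_add_left h3).mp hdvd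
        exact hq.one_lt.ne' (Nat.dvd_one.mp h4)
    · intro d hd hdK hdvd
      rcases hp.dvd_mul.mp (hpN.trans hdvd) with h | h
      · have := Nat.le_of_dvd hd h
        omega
      · have h1 : p ∣ 1 := (hr1.dvd_iff dvd_rfl).mp h
        exact hp.one_lt.ne' (Nat.dvd_one.mp h1)
  · push Not at hp
    refine ⟨∏ p ∈ N.primeFactors, p, ?_, ?_⟩
    · intro q hq hqN S hS hdvd
      have h1 : q ∣ ∏ p ∈ N.primeFactors, p :=
        Finset.dvd_prod_of_mem (fun p => p) (Nat.mem_primeFactors.mpr ⟨hq, hqN, hN0⟩)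
      have h4 : q ∣ 1 := (Nat.dvd_add_left (h1.mul_right S)).mp hdvd
      exact hq.one_lt.ne' (Nat.dvd_one.mp h4)
    · intro d hd hdK hdvd
      have h1 : (∏ p ∈ N.primeFactors, p) ∣ L.factorial :=
        Finset.prod_primes_dvd _ (fun p hp' => (Nat.prime_of_mem_primeFactors hp').prime)
          (fun p hp' => Nat.dvd_factorial (Nat.prime_of_mem_primeFactors hp').pos
            (hp p (Nat.prime_of_mem_primeFactors hp') (Nat.dvd_of_mem_primeFactors hp')))
      have h2 := Nat.le_of_dvd (Nat.factorial_pos L) h1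
      have h0 : 0 < ∏ p ∈ N.primeFactors, p :=
        Finset.prod_pos (fun p hp' => (Nat.prime_of_mem_primeFactors hp').pos)
      have h3 := Nat.le_of_dvd (Nat.mul_pos hd h0) hdvd
      have h4 : d * ∏ p ∈ N.primeFactors, p ≤ K * L.factorial := Nat.mul_le_mul hdK.le h2
      omega

theorem exists_expo (e K : ℕ) (he : 1 ≤ e) : ∃ N0 : ℕ, ∀ n : ℕ, N0 ≤ n → e ∣ n → ∃ x : ℕ → ℕ,
    (∀ i, x i ≡ 1 [MOD e]) ∧ (∀ i j, i < K → j < K → x i ≡ x j [MOD n] → i = j) ∧
    ∀ (ι : Type) (I : Finset ι) (s : ι → ℕ), I.card = e → (∀ t ∈ I, s t < K) → ∀ q : ℕ, q.Prime → q ∣ n / e →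
      ¬ (q * e ∣ ∑ t ∈ I, x (s t)) := by
  refine ⟨e * (K * (e * K).factorial + 1), fun n hn hen => ?_⟩
  obtain ⟨N, rfl⟩ := hen
  have hN : K * (e * K).factorial + 1 ≤ N := Nat.le_of_mul_le_mul_left hn he
  obtain ⟨r, hr1, hr2⟩ := core (e * K) K N (Nat.le_mul_of_pos_left K he) hN
  have key : ∀ i j, i < j → j < K → ¬ (1 + i * (e * r) ≡ 1 + j * (e * r) [MOD e * N]) := by
    intro i j hij hj h
    have h1 := (Nat.modEq_iff_dvd' (by nlinarith [Nat.mul_le_mul_right (e * r) hij.le])).mp h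
    have h2 : 1 + j * (e * r) - (1 + i * (e * r)) = e * ((j - i) * r) := by
      have : j * (e * r) = i * (e * r) + (j - i) * (e * r) := by
        rw [← Nat.add_mul]; congr 1; omega
      rw [this]
      have h3 : (j - i) * (e * r) = e * ((j - i) * r) := by ring
      omega
    rw [h2] at h1
    exact hr2 (j - i) (by omega) (by omega) (Nat.dvd_of_mul_dvd_mul_left he h1)
  refine ⟨fun i => 1 + i * (e * r), ?_, ?_, ?_⟩
  · intro i
    have h1 : i * (e * r) ≡ 0 [MOD e] :=
      Nat.modEq_zero_iff_dvd.mpr (Dvd.intro (i * r) (by ring))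
    simpa using (Nat.ModEq.refl 1).add h1
  · intro i j hi hj h
    rcases lt_trichotomy i j with h1 | h1 | h1
    · exact absurd h (key i j h1 hj)
    · exact h1
    · exact absurd h.symm (key j i h1 hi)
  · intro ι I s hI hs q hq hqn hdvd
    rw [Nat.mul_div_cancel_left N he] at hqn
    have h1 : ∑ t ∈ I, (1 + s t * (e * r)) = e * (1 + r * ∑ t ∈ I, s t) := by
      rw [Finset.sum_add_distrib, ← Finset.sum_mul, Finset.sum_const, hI]
      simp only [smul_eq_mul]
      ring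
    rw [h1, mul_comm q e] at hdvd
    have h2 : (∑ t ∈ I, s t) + e ≤ e * K := by
      have h3 : ∑ t ∈ I, (s t + 1) ≤ I.card • K :=
        Finset.sum_le_card_nsmul I _ K (fun t ht => hs t ht)
      rw [Finset.sum_add_distrib, Finset.sum_const, hI] at h3
      simpa using h3
    exact hr1 q hq hqn _ (by omega) (Nat.dvd_of_mul_dvd_mul_left he hdvd)

end Pool.Agent.H90.DE
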