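import Pool.Agent.H90.DE.Core

/-!
# Cyclotomic orthomorphisms with general multipliers (MP_2f0703_co, helper90)

`F` is a field of characteristic two, `a` a primitive element, `c x` the class of the exponent of `x` modulo `e`. The map
`f x = b (c x) * x`, where all `b i` are in class `1`, all `b i + 1` in one class and all `b i * b (i + 1) + 1` in one class.
-/

set_option autoImplicit false

namespace Pool.Agent.H90.DE

/-- the data of a walk -/
structure GW (F : Type) [Field F] (a : F) (e : ℕ) (c : F → ZMod e) (b : ZMod e → F) (γ δ : ZMod e) : Prop where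
  ha0 : a ≠ 0
  hc : ∀ n : ℕ, c (a ^ n) = n
  ha : ∀ x : F, x ≠ 0 → ∃ n : ℕ, x = a ^ n
  two : (2 : F) = 0
  b_ne : ∀ i, b i ≠ 0
  b_ne_one : ∀ i, b i ≠ 1
  c_b : ∀ i, c (b i) = 1
  c_b_one : ∀ i, c (b i + 1) = γ
  pair_ne_one : ∀ i, b i * b (i + 1) ≠ 1
  c_pair : ∀ i, c (b i * b (i + 1) + 1) = δ

section
variable {F : Type} [Field F] {a : F} {e : ℕ} {c : F → ZMod e} {b : ZMod e → F} {γ δ : ZMod e}

theorem GW.c_mul (W : GW F a e c b γ δ) {x y : F} (hx : x ≠ 0) (hy : y ≠ 0) : c (x * y) = c x + c y := by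
  obtain ⟨n, rfl⟩ := W.ha x hx
  obtain ⟨k, rfl⟩ := W.ha y hy
  rw [← pow_add, W.hc, W.hc, W.hc, Nat.cast_add]

theorem GW.c_a (W : GW F a e c b γ δ) : c a = 1 := by
  have := W.hc 1
  rwa [pow_one, Nat.cast_one] at this

theorem GW.add_one_ne (W : GW F a e c b γ δ) {x : F} (hx : x ≠ 1) : x + 1 ≠ 0 := by
  intro h
  apply hx
  have := W.two
  linear_combination h - this

theorem GW.f_ne (W : GW F a e c b γ δ) {x : F} (hx : x ≠ 0) : f c b x ≠ 0 :=
  mul_ne_zero (W.b_ne _) hx

theorem GW.c_f (W : GW F a e c b γ δ) {x : F} (hx : x ≠ 0) : c (f c b x) = c x + 1 := by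
  unfold f
  rw [W.c_mul (W.b_ne _) hx, W.c_b, add_comm]

/-- a general principle: a map `x ↦ g (c x) * x` with `c (g i)` constant is injective -/
theorem GW.inj_of (W : GW F a e c b γ δ) (g : ZMod e → F) (ε : ZMod e) (hg : ∀ i, g i ≠ 0)
    (hε : ∀ i, c (g i) = ε) {x y : F} (h : g (c x) * x = g (c y) * y) : x = y := by
  by_cases hx : x = 0
  · subst hx
    rw [mul_zero] at h
    rcases mul_eq_zero.1 h.symm with h1 | h1
    · exact absurd h1 (hg _)
    · exact h1.symm
  · by_cases hy : y = 0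
    · subst hy
      rw [mul_zero] at h
      rcases mul_eq_zero.1 h with h1 | h1
      · exact absurd h1 (hg _)
      · exact h1
    · have h1 : c (g (c x) * x) = ε + c x := by rw [W.c_mul (hg _) hx, hε]
      rw [h, W.c_mul (hg _) hy, hε] at h1
      have h2 : c y = c x := add_left_cancel h1
      rw [h2] at h
      exact mul_left_cancel₀ (hg _) h

theorem GW.f_inj (W : GW F a e c b γ δ) : Function.Injective (f c b) := fun _ _ h =>
  W.inj_of b 1 W.b_ne W.c_b h

theorem GW.diff_inj (W : GW F a e c b γ δ) {x y : F} (h : f c b x + x = f c b y + y) : x = y := by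
  apply W.inj_of (fun i => b i + 1) γ (fun i => W.add_one_ne (W.b_ne_one i)) (fun i => W.c_b_one i)
  unfold f at h
  show (b (c x) + 1) * x = (b (c y) + 1) * y
  linear_combination h

theorem GW.f_f (W : GW F a e c b γ δ) (x : F) : f c b (f c b x) = b (c x) * b (c x + 1) * x := by
  by_cases hx : x = 0
  · subst hx
    rw [f_zero, f_zero, mul_zero]
  · have h := W.c_f hx
    show b (c (f c b x)) * f c b x = _
    rw [h]
    unfold f
    ring

theorem GW.diff2_inj (W : GW F a e c b γ δ) {x y : F}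
    (h : f c b (f c b x) + x = f c b (f c b y) + y) : x = y := by
  apply W.inj_of (fun i => b i * b (i + 1) + 1) δ
    (fun i => W.add_one_ne (W.pair_ne_one i)) (fun i => W.c_pair i)
  rw [W.f_f, W.f_f] at h
  show (b (c x) * b (c x + 1) + 1) * x = (b (c y) * b (c y + 1) + 1) * y
  linear_combination h

/-- the intercalate identity in terms of the multipliers -/
theorem GW.identity (W : GW F a e c b γ δ) [NeZero e]
    (H : ∀ y : F, y ≠ 0 → f c b (y + f c b y) = f c b y + f c b (f c b y)) :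
    ∀ i : ZMod e, b (i + γ) * (1 + b i) = b i * (1 + b (i + 1)) := by
  intro i
  obtain ⟨y, hy, hyc⟩ : ∃ y : F, y ≠ 0 ∧ c y = i :=
    ⟨a ^ i.val, pow_ne_zero _ W.ha0, by rw [W.hc, ZMod.natCast_zmod_val]⟩
  have h1 := H y hy
  have e1 : y + f c b y = (b i + 1) * y := by unfold f; rw [hyc]; ring
  have e2 : c ((b i + 1) * y) = i + γ := by
    rw [W.c_mul (W.add_one_ne (W.b_ne_one i)) hy, W.c_b_one, hyc, add_comm]
  have e3 : f c b ((b i + 1) * y) = b (i + γ) * ((b i + 1) * y) := by
    show b (c ((b i + 1) * y)) * _ = _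
    rw [e2]
  rw [e1, e3, W.f_f, hyc] at h1
  have e4 : f c b y = b i * y := by unfold f; rw [hyc]
  rw [e4] at h1
  apply mul_right_cancel₀ hy
  linear_combination h1

end

end Pool.Agent.H90.DE
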