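import Mathlib

/-!
# Arithmetic for the even orders (MP_2f0703_co, helper90)
-/

set_option autoImplicit false

namespace Pool.Agent.H90.DE

open Finset

/-- `Q = 2 ^ m`, `N = 1 + Q + ... + Q ^ (u - 1)` divides `2 ^ t - 1` only for `t = u m` in the range
`N ≤ 2 ^ t - 1`, `t ≤ u m` -/
theorem exponent_eq {m u t : ℕ} (hm : 1 ≤ m) (hu : 2 ≤ u) (ht : t ≤ u * m)
    (hN : (∑ j ∈ range u, (2 ^ m) ^ j) ∣ 2 ^ t - 1) (ht1 : 1 ≤ t) : t = u * m := by
  set N := ∑ j ∈ range u, (2 ^ m) ^ j with hNdef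
  have hQ : 2 ≤ 2 ^ m := by
    calc 2 = 2 ^ 1 := by norm_num
      _ ≤ 2 ^ m := Nat.pow_le_pow_right (by norm_num) hm
  have hgeom : N * (2 ^ m - 1) = (2 ^ m) ^ u - 1 := by
    rw [hNdef]
    exact Nat.geomSum_eq hQ u ▸ Nat.div_mul_cancel (by
      have := Nat.sub_one_dvd_pow_sub_one (2 ^ m) u
      exact this)
  have hNlow : (2 ^ m) ^ (u - 1) < N := by
    rw [hNdef]
    obtain ⟨v, rfl⟩ : ∃ v, u = v + 2 := ⟨u - 2, by omega⟩
    rw [Finset.sum_range_succ]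
    have h1 : v + 2 - 1 = v + 1 := by omega
    rw [h1]
    have h2 : 0 < ∑ j ∈ range (v + 1), (2 ^ m) ^ j := by
      rw [Finset.sum_range_succ']
      positivity
    omega
  have hpos : 0 < 2 ^ t - 1 := by
    have : 2 ^ 1 ≤ 2 ^ t := Nat.pow_le_pow_right (by norm_num) ht1
    omega
  have hle := Nat.le_of_dvd hpos hN
  have hlt : (2 ^ m) ^ (u - 1) < 2 ^ t := by omega
  have hlt' : m * (u - 1) < t := by
    rw [← pow_mul] at hlt
    exact (Nat.pow_lt_pow_iff_right (by norm_num)).1 hlt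
  obtain ⟨r, hr⟩ : ∃ r, u * m = t + r := ⟨u * m - t, by omega⟩
  have hrm : r < m := by
    obtain ⟨v, rfl⟩ : ∃ v, u = v + 1 := ⟨u - 1, by omega⟩
    have h1 : v + 1 - 1 = v := by omega
    rw [h1] at hlt'
    have h2 : (v + 1) * m = m * v + m := by ring
    omega
  have h1 : N ∣ 2 ^ (u * m) - 1 := by
    refine ⟨2 ^ m - 1, ?_⟩
    rw [hgeom, ← pow_mul, mul_comm m u]
  have h2 : N ∣ 2 ^ r - 1 := by
    have h3 : 2 ^ (u * m) - 1 = 2 ^ r * (2 ^ t - 1) + (2 ^ r - 1) := by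
      rw [hr, pow_add, Nat.mul_sub, mul_one]
      have h4 : 1 ≤ 2 ^ t := Nat.one_le_two_pow
      have h5 : 1 ≤ 2 ^ r := Nat.one_le_two_pow
      have h6 : 2 ^ r ≤ 2 ^ r * 2 ^ t := Nat.le_mul_of_pos_right _ (by positivity)
      rw [mul_comm (2 ^ t)]
      omega
    rw [h3] at h1
    exact (Nat.dvd_add_right (Dvd.dvd.mul_left hN _)).1 h1
  have h7 : r = 0 := by
    by_contra hr0
    have h8 : 0 < 2 ^ r - 1 := by
      have : 2 ^ 1 ≤ 2 ^ r := Nat.pow_le_pow_right (by norm_num) (by omega)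
      omega
    have h9 := Nat.le_of_dvd h8 h2
    have h10 : 2 ^ r < 2 ^ m := Nat.pow_lt_pow_right (by norm_num) hrm
    have h11 : 2 ^ m ≤ (2 ^ m) ^ (u - 1) := by
      calc 2 ^ m = (2 ^ m) ^ 1 := (pow_one _).symm
        _ ≤ (2 ^ m) ^ (u - 1) := Nat.pow_le_pow_right (by positivity) (by omega)
    omega
  omega

/-- `1 + Q` is prime to `Q ^ u - 1` for `Q = 2 ^ m`, `u` odd -/
theorem coprime_one_add {m u : ℕ} (hm : 1 ≤ m) (hu : Odd u) : Nat.Coprime (1 + 2 ^ m) ((2 ^ m) ^ u - 1) := by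
  rw [Nat.coprime_iff_gcd_eq_one]
  by_contra hne
  obtain ⟨l, hl, hdiv⟩ := Nat.exists_prime_and_dvd hne
  have h1 : l ∣ 1 + 2 ^ m := hdiv.trans (Nat.gcd_dvd_left _ _)
  have h2 : l ∣ (2 ^ m) ^ u - 1 := hdiv.trans (Nat.gcd_dvd_right _ _)
  have h3 : ((1 + 2 ^ m : ℕ) : ZMod l) = 0 := (ZMod.natCast_eq_zero_iff _ _).2 h1
  have h4 : (((2 ^ m) ^ u - 1 : ℕ) : ZMod l) = 0 := (ZMod.natCast_eq_zero_iff _ _).2 h2
  have h5 : 1 ≤ (2 ^ m) ^ u := Nat.one_le_pow _ _ (by positivity)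
  rw [Nat.cast_sub h5] at h4
  push_cast at h3 h4
  have h6 : (2 : ZMod l) ^ m = -1 := by linear_combination h3
  rw [h6, hu.neg_one_pow] at h4
  have h7 : ((2 : ℕ) : ZMod l) = 0 := by push_cast; linear_combination -h4
  have h8 : l ∣ 2 := (ZMod.natCast_eq_zero_iff _ _).1 h7
  have h9 : l = 2 := (Nat.prime_dvd_prime_iff_eq hl Nat.prime_two).1 h8
  rw [h9] at h1
  obtain ⟨v, hv⟩ : ∃ v, m = v + 1 := ⟨m - 1, by omega⟩
  rw [hv, pow_succ] at h1
  omega

/-- the positions of the walk -/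
def w (n t : ℕ) : ℕ := if t < 3 * n then t / 3 + (if t % 3 = 1 then 1 else 0) else t - 2 * n

theorem w_zero (n : ℕ) : w n 0 = 0 := by
  unfold w
  split_ifs <;> omega

theorem w_one {n : ℕ} (hn : 1 ≤ n) : w n 1 = 1 := by
  unfold w
  split_ifs <;> omega

theorem w_two {n : ℕ} (hn : 1 ≤ n) : w n 2 = 0 := by
  unfold w
  split_ifs <;> omega

theorem w_step (n t : ℕ) : w n (t + 1) = w n t + 1 ∨ w n t = w n (t + 1) + 1 := by
  unfold w
  split_ifs <;> omega

theorem w_last {n t : ℕ} (h : 3 * n ≤ t) : w n t = t - 2 * n := by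
  unfold w
  split_ifs <;> omega

theorem sum_w_low (Q n : ℕ) {n' : ℕ} (h : n' ≤ n) :
    ∑ t ∈ range (3 * n'), Q ^ w n t = (1 + Q) * ∑ j ∈ range n', Q ^ j + ∑ j ∈ range n', Q ^ j := by
  induction n' with
  | zero => simp
  | succ k ih =>
    have e1 : 3 * (k + 1) = 3 * k + 1 + 1 + 1 := by ring
    rw [e1, Finset.sum_range_succ, Finset.sum_range_succ, Finset.sum_range_succ, ih (by omega),
      Finset.sum_range_succ]
    have a1 : w n (3 * k) = k := by unfold w; split_ifs <;> omega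
    have a2 : w n (3 * k + 1) = k + 1 := by unfold w; split_ifs <;> omega
    have a3 : w n (3 * k + 1 + 1) = k := by unfold w; split_ifs <;> omega
    rw [a1, a2, a3]
    ring

theorem sum_w (Q n r : ℕ) :
    ∑ t ∈ range (3 * n + r), Q ^ w n t = (1 + Q) * ∑ j ∈ range n, Q ^ j + ∑ j ∈ range (n + r), Q ^ j := by
  induction r with
  | zero => simpa using sum_w_low Q n le_rfl
  | succ r ih =>
    rw [← add_assoc, Finset.sum_range_succ, ih, ← add_assoc, Finset.sum_range_succ, add_assoc]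
    have a1 : w n (3 * n + r) = n + r := by unfold w; split_ifs <;> omega
    rw [a1]

theorem geom_mod {Q l : ℕ} (u k : ℕ) (hu : ((∑ j ∈ range u, Q ^ j : ℕ) : ZMod l) = 0) :
    ((∑ j ∈ range (u * k), Q ^ j : ℕ) : ZMod l) = 0 := by
  induction k with
  | zero => simp
  | succ k ih =>
    rw [Nat.mul_succ, Finset.sum_range_add, Nat.cast_add, ih, zero_add]
    have h1 : ∑ x ∈ range u, Q ^ (u * k + x) = Q ^ (u * k) * ∑ j ∈ range u, Q ^ j := by
      rw [Finset.mul_sum]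
      exact Finset.sum_congr rfl fun x _ => pow_add _ _ _
    rw [h1, Nat.cast_mul, hu, mul_zero]

/-- the exponent of the product is coprime to `N_u(Q)` -/
theorem coprime_N {m u n k : ℕ} (hm : 1 ≤ m) (hu : u.Prime) (hu2 : u ≠ 2) (hn : 1 ≤ n) (hnu : n < u) :
    Nat.Coprime ((1 + 2 ^ m) * (∑ j ∈ range n, (2 ^ m) ^ j) + ∑ j ∈ range (u * k), (2 ^ m) ^ j)
      (∑ j ∈ range u, (2 ^ m) ^ j) := by
  rw [Nat.coprime_iff_gcd_eq_one]
  by_contra hne
  obtain ⟨l, hl, hdiv⟩ := Nat.exists_prime_and_dvd hne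
  haveI : Fact l.Prime := ⟨hl⟩
  have h1 := hdiv.trans (Nat.gcd_dvd_left _ _)
  have h2 := hdiv.trans (Nat.gcd_dvd_right _ _)
  have h3 : ((∑ j ∈ range u, (2 ^ m) ^ j : ℕ) : ZMod l) = 0 := (ZMod.natCast_eq_zero_iff _ _).2 h2
  have h4 := (ZMod.natCast_eq_zero_iff _ _).2 h1
  have h4' := geom_mod (Q := 2 ^ m) (l := l) u k h3
  rw [Nat.cast_add, h4', add_zero, Nat.cast_mul] at h4
  have hQu : ((2 ^ m : ℕ) : ZMod l) ^ u = 1 := by
    have h5 := mul_geom_sum (((2 ^ m : ℕ) : ZMod l)) u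
    have h6 : ∑ i ∈ range u, ((2 ^ m : ℕ) : ZMod l) ^ i = 0 := by
      rw [← h3]; push_cast; rfl
    rw [h6, mul_zero] at h5
    exact (sub_eq_zero.1 h5.symm)
  rcases mul_eq_zero.1 h4 with h | h
  · -- Q = -1
    have h6 : ((2 ^ m : ℕ) : ZMod l) = -1 := by
      push_cast at h ⊢
      linear_combination h
    rw [h6, (hu.odd_of_ne_two hu2).neg_one_pow] at hQu
    have h7 : ((2 : ℕ) : ZMod l) = 0 := by push_cast; linear_combination -hQu
    have h8 : l ∣ 2 := (ZMod.natCast_eq_zero_iff _ _).1 h7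
    have h9 : l = 2 := (Nat.prime_dvd_prime_iff_eq hl Nat.prime_two).1 h8
    have h10 : ((2 ^ m : ℕ) : ZMod l) = 0 := by
      rw [ZMod.natCast_eq_zero_iff, h9]
      exact dvd_pow_self 2 (by omega)
    rw [h10] at h6
    have h11 : (1 : ZMod l) = 0 := by linear_combination h6
    exact one_ne_zero h11
  · have hQn : ((2 ^ m : ℕ) : ZMod l) ^ n = 1 := by
      have h5 := mul_geom_sum (((2 ^ m : ℕ) : ZMod l)) n
      have h6 : ∑ i ∈ range n, ((2 ^ m : ℕ) : ZMod l) ^ i = 0 := by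
        rw [← h]; push_cast; rfl
      rw [h6, mul_zero] at h5
      exact (sub_eq_zero.1 h5.symm)
    have hcop : Nat.Coprime n u := by
      rw [Nat.coprime_comm]
      exact (Nat.Prime.coprime_iff_not_dvd hu).2 fun hd => absurd (Nat.le_of_dvd (by omega) hd) (by omega)
    have hQ1 : ((2 ^ m : ℕ) : ZMod l) = 1 := by
      have h7 := orderOf_dvd_of_pow_eq_one hQn
      have h8 := orderOf_dvd_of_pow_eq_one hQu
      have h9 := Nat.dvd_gcd h7 h8
      rw [Nat.coprime_iff_gcd_eq_one] at hcop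
      rw [hcop, Nat.dvd_one] at h9
      exact orderOf_eq_one_iff.1 h9
    have e1 : ((u : ℕ) : ZMod l) = 0 := by
      rw [← h3]
      push_cast at hQ1 ⊢
      rw [hQ1]
      simp
    have e2 : ((n : ℕ) : ZMod l) = 0 := by
      rw [← h]
      push_cast at hQ1 ⊢
      rw [hQ1]
      simp
    have d1 := (ZMod.natCast_eq_zero_iff _ _).1 e1
    have d2 := (ZMod.natCast_eq_zero_iff _ _).1 e2
    have d3 := Nat.dvd_gcd d2 d1
    rw [Nat.coprime_iff_gcd_eq_one.1 hcop, Nat.dvd_one] at d3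
    exact hl.one_lt.ne' d3

/-- the gcd which makes the map a single cycle -/
theorem gcd_eq {m u n k e : ℕ} (hm : 1 ≤ m) (hu : u.Prime) (hu2 : u ≠ 2) (hn : 1 ≤ n) (hnu : n < u)
    (he : e ∣ 2 ^ m - 1) (hek : e = u * k + 2 * n) :
    Nat.gcd ((1 + 2 ^ m) * (∑ j ∈ range n, (2 ^ m) ^ j) + ∑ j ∈ range (u * k), (2 ^ m) ^ j)
      ((2 ^ m) ^ u - 1) = e := by
  set E := (1 + 2 ^ m) * (∑ j ∈ range n, (2 ^ m) ^ j) + ∑ j ∈ range (u * k), (2 ^ m) ^ j with hE
  have hQ : 2 ≤ 2 ^ m := by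
    calc 2 = 2 ^ 1 := by norm_num
      _ ≤ 2 ^ m := Nat.pow_le_pow_right (by norm_num) hm
  have hgeom : (2 ^ m) ^ u - 1 = (∑ j ∈ range u, (2 ^ m) ^ j) * (2 ^ m - 1) := by
    exact (Nat.geomSum_eq hQ u ▸ Nat.div_mul_cancel (by
      have := Nat.sub_one_dvd_pow_sub_one (2 ^ m) u
      exact this)).symm
  rw [hgeom, Nat.Coprime.gcd_mul_left_cancel_right _ (coprime_N hm hu hu2 hn hnu).symm]
  have hmod : E ≡ e [MOD (2 ^ m - 1)] := by
    have hq : 2 ^ m ≡ 1 [MOD (2 ^ m - 1)] := by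
      have : 2 ^ m = 1 + (2 ^ m - 1) := by omega
      conv_lhs => rw [this]
      exact Nat.add_modEq_right
    have hs : ∀ r, ∑ j ∈ range r, (2 ^ m) ^ j ≡ r [MOD (2 ^ m - 1)] := by
      intro r
      induction r with
      | zero => simp; rfl
      | succ r ih =>
        rw [Finset.sum_range_succ]
        have := (hq.pow r)
        rw [one_pow] at this
        exact ih.add this
    have h1 : 1 + 2 ^ m ≡ 2 [MOD (2 ^ m - 1)] := (Nat.ModEq.refl 1).add hq
    have h2 := (h1.mul (hs n)).add (hs (u * k))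
    rw [hek, add_comm (u * k)]
    exact h2
  have h3 := hmod.gcd_eq
  rw [h3]
  exact Nat.gcd_eq_left he

/-- `2 ^ m - 1` is not a power of three for `m ≥ 3` -/
theorem exists_divisor {m : ℕ} (hm : 3 ≤ m) : ∃ e, e ∣ 2 ^ m - 1 ∧ 5 ≤ e ∧ ¬ 3 ∣ e := by
  by_contra hcon
  push Not at hcon
  have hodd : ¬ 2 ∣ 2 ^ m - 1 := by
    obtain ⟨v, hv⟩ : ∃ v, m = v + 1 := ⟨m - 1, by omega⟩
    rw [hv, pow_succ]
    have : 1 ≤ 2 ^ v := Nat.one_le_two_pow
    omega
  have hprime : ∀ p, p.Prime → p ∣ 2 ^ m - 1 → p = 3 := by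
    intro p hp hpd
    have hp2 : p ≠ 2 := fun h => hodd (h ▸ hpd)
    by_contra h3
    have h5 : 5 ≤ p := by
      have := hp.two_le
      have h4 : p ≠ 4 := fun h => by rw [h] at hp; exact absurd hp (by norm_num)
      omega
    have h6 := hcon p hpd h5
    exact h3 ((Nat.prime_dvd_prime_iff_eq Nat.prime_three hp).1 h6).symm
  have hne : 2 ^ m - 1 ≠ 0 := by
    have : 2 ^ 3 ≤ 2 ^ m := Nat.pow_le_pow_right (by norm_num) hm
    omega
  obtain ⟨b, hb⟩ : ∃ b, 2 ^ m - 1 = 3 ^ b := by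
    refine ⟨_, Nat.eq_prime_pow_of_unique_prime_dvd hne (fun {d} hd hdd => hprime d hd hdd)⟩
  have h8 : 3 ^ b % 8 = 7 := by
    rw [← hb]
    obtain ⟨v, hv⟩ : ∃ v, m = v + 3 := ⟨m - 3, by omega⟩
    rw [hv, pow_add]
    have : 1 ≤ 2 ^ v := Nat.one_le_two_pow
    omega
  have h9 : ∀ b, 3 ^ b % 8 = 1 ∨ 3 ^ b % 8 = 3 := by
    intro b
    induction b with
    | zero => left; norm_num
    | succ b ih => rw [pow_succ]; omega
  rcases h9 b with h | h <;> omega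

/-- a divisor `e ≥ u + 2` not divisible by the odd prime `u` has the form `u k + 2 n`, `1 ≤ n < u`, `k ≥ 1` -/
theorem form_of {u e : ℕ} (hu : u.Prime) (hu2 : u ≠ 2) (heo : Odd e) (heu : u + 2 ≤ e) (hd : ¬ u ∣ e) :
    ∃ n k, 1 ≤ n ∧ n < u ∧ 1 ≤ k ∧ e = u * k + 2 * n := by
  have huo := hu.odd_of_ne_two hu2
  have hr : e % u ≠ 0 := fun h => hd (Nat.dvd_of_mod_eq_zero h)
  have hlt := Nat.mod_lt e hu.pos
  have hdiv := Nat.div_add_mod e u
  by_cases hk : Odd (e / u)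
  · -- then e % u is even
    have hev : Even (e % u) := by
      have h1 : Odd (u * (e / u)) := huo.mul hk
      by_contra hno
      rw [Nat.not_even_iff_odd] at hno
      have h2 := h1.add_odd hno
      rw [hdiv] at h2
      exact absurd heo (Nat.not_odd_iff_even.2 h2)
    obtain ⟨n, hn⟩ := hev
    refine ⟨n, e / u, by omega, by omega, hk.pos, by omega⟩
  · rw [Nat.not_odd_iff_even] at hk
    have hpos : 1 ≤ e / u := Nat.div_pos (by omega) hu.pos
    obtain ⟨k', hk'⟩ : ∃ k', e / u = k' + 1 := ⟨e / u - 1, by omega⟩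
    have hk'o : Odd k' := by
      rw [hk'] at hk
      by_contra hno
      rw [Nat.not_odd_iff_even] at hno
      have := hno.add_one
      exact absurd hk (Nat.not_even_iff_odd.2 this)
    have hodd : Even (e - u * k') := by
      exact Nat.Odd.sub_odd heo (huo.mul hk'o)
    obtain ⟨n, hn⟩ := hodd
    have e1 : u * (e / u) = u * k' + u := by rw [hk']; ring
    refine ⟨n, k', by omega, by omega, hk'o.pos, by omega⟩

end Pool.Agent.H90.DE
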