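import Pool.Agent.H90.DE.GW
import Pool.Agent.H90.DE.Grp

/-!
# The squares are not based on a group (MP_2f0703_co, helper90)
-/

set_option autoImplicit false

namespace Pool.Agent.H90.DE

open Finset

section
variable {F : Type} [Field F] [Fintype F] [DecidableEq F] {a : F} {e : ℕ} [NeZero e] {c : F → ZMod e}
  {b : ZMod e → F} {γ δ : ZMod e}

theorem GW.c_zero_mul (W : GW F a e c b γ δ) {d : F} (hd : d ≠ 0) (hcd : c d = 0) (x : F) :
    f c b (d * x) = d * f c b x := by
  by_cases hx : x = 0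
  · subst hx; rw [mul_zero, f_zero, mul_zero]
  · unfold f
    rw [W.c_mul hd hx, hcd, zero_add]; ring

theorem GW.neg_eq (W : GW F a e c b γ δ) (x : F) : -x = x := by
  have := W.two
  linear_combination (-x) * this

theorem GW.card_fiber (W : GW F a e c b γ δ) (i : ZMod e) :
    (univ.filter fun x : F => x ≠ 0 ∧ c x = i).card * e = Fintype.card F - 1 := by
  classical
  have hstep : ∀ i : ZMod e, (univ.filter fun x : F => x ≠ 0 ∧ c x = i).card =
      (univ.filter fun x : F => x ≠ 0 ∧ c x = i + 1).card := by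
    intro i
    apply Finset.card_bij (fun x _ => a * x)
    · intro x hx
      rw [mem_filter] at hx ⊢
      refine ⟨mem_univ _, mul_ne_zero W.ha0 hx.2.1, ?_⟩
      rw [W.c_mul W.ha0 hx.2.1, W.c_a, hx.2.2, add_comm]
    · intro x _ y _ h
      exact mul_left_cancel₀ W.ha0 h
    · intro y hy
      rw [mem_filter] at hy
      refine ⟨a⁻¹ * y, ?_, ?_⟩
      · rw [mem_filter]
        have hne : a⁻¹ * y ≠ 0 := mul_ne_zero (inv_ne_zero W.ha0) hy.2.1
        refine ⟨mem_univ _, hne, ?_⟩
        have h1 : c (a * (a⁻¹ * y)) = c a + c (a⁻¹ * y) := W.c_mul W.ha0 hne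
        rw [mul_inv_cancel_left₀ W.ha0, W.c_a, hy.2.2] at h1
        exact (add_left_cancel (by rw [← h1]; ring : (1 : ZMod e) + c (a⁻¹ * y) = 1 + i))
      · exact mul_inv_cancel_left₀ W.ha0 y
  have hall : ∀ n : ℕ, (univ.filter fun x : F => x ≠ 0 ∧ c x = (n : ZMod e)).card =
      (univ.filter fun x : F => x ≠ 0 ∧ c x = 0).card := by
    intro n
    induction n with
    | zero => rw [Nat.cast_zero]
    | succ n ih => rw [Nat.cast_succ, ← hstep, ih]
  have hall' : ∀ i : ZMod e, (univ.filter fun x : F => x ≠ 0 ∧ c x = i).card =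
      (univ.filter fun x : F => x ≠ 0 ∧ c x = 0).card := by
    intro i
    have := hall i.val
    rwa [ZMod.natCast_zmod_val] at this
  have htot : (univ.filter fun x : F => x ≠ 0).card = Fintype.card F - 1 := by
    rw [Finset.filter_ne' univ (0 : F), Finset.card_erase_of_mem (mem_univ _), Finset.card_univ]
  have hsum := Finset.card_eq_sum_card_fiberwise (s := univ.filter fun x : F => x ≠ 0)
    (t := (univ : Finset (ZMod e))) (f := c) (fun _ _ => mem_coe.2 (mem_univ _))
  rw [htot] at hsum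
  rw [hsum, hall' i]
  have : ∀ i ∈ (univ : Finset (ZMod e)), (filter (fun x => c x = i) (univ.filter fun x : F => x ≠ 0)).card =
      (univ.filter fun x : F => x ≠ 0 ∧ c x = 0).card := by
    intro i _
    rw [Finset.filter_filter]
    exact hall' i
  rw [Finset.sum_congr rfl this, Finset.sum_const, Finset.card_univ, ZMod.card, smul_eq_mul, mul_comm]

/-- a set of nonzero elements which is a union of classes has a multiple of `N` elements -/
theorem GW.dvd_card (W : GW F a e c b γ δ) (S : Finset F) (h0 : (0 : F) ∉ S)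
    (hS : ∀ x y : F, x ∈ S → y ≠ 0 → c y = c x → y ∈ S) :
    (univ.filter fun x : F => x ≠ 0 ∧ c x = 0).card ∣ S.card := by
  classical
  have heq : ∀ i : ZMod e, (univ.filter fun x : F => x ≠ 0 ∧ c x = i).card =
      (univ.filter fun x : F => x ≠ 0 ∧ c x = 0).card := by
    intro i
    have h1 := W.card_fiber i
    have h2 := W.card_fiber 0
    exact Nat.eq_of_mul_eq_mul_right (NeZero.pos e) (h1.trans h2.symm)
  have hsum := Finset.card_eq_sum_card_fiberwise (s := S) (t := S.image c) (f := c)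
    (fun x hx => mem_coe.2 (mem_image_of_mem _ (mem_coe.1 hx)))
  rw [hsum]
  apply Finset.dvd_sum
  intro i hi
  obtain ⟨x, hx, hxi⟩ := mem_image.1 hi
  have : filter (fun x => c x = i) S = univ.filter fun x : F => x ≠ 0 ∧ c x = i := by
    ext y
    rw [mem_filter, mem_filter]
    constructor
    · rintro ⟨hy, hyi⟩
      exact ⟨mem_univ _, fun h => h0 (h ▸ hy), hyi⟩
    · rintro ⟨_, hy, hyi⟩
      exact ⟨hS x y hx hy (hyi.trans hxi.symm), hyi⟩
  rw [this, heq i]

theorem GW.not_group (W : GW F a e c b γ δ) {m u : ℕ} (hm : 1 ≤ m) (hu : 2 ≤ u)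
    (hcard : Fintype.card F = 2 ^ (u * m)) (he : e ∣ 2 ^ m - 1)
    (hnid : ¬ ∀ i : ZMod e, b (i + γ) * (1 + b i) = b i * (1 + b (i + 1)))
    (G : Type) [Group G] (r c' s : F ≃ G) (H : ∀ i j, s (i + f c b (j - i)) = r i * c' j) : False := by
  classical
  have hfin : Finite G := Finite.of_equiv F s
  have hcardG : Nat.card G = 2 ^ (u * m) := by
    rw [← Nat.card_congr s, Nat.card_eq_fintype_card, hcard]
  set ψ : F → G := fun z => s z * (s 0)⁻¹ with hψ
  have hψinj : Function.Injective ψ := fun x y h => s.injective (mul_right_cancel h)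
  have hψsurj : Function.Surjective ψ := by
    intro g
    refine ⟨s.symm (g * s 0), ?_⟩
    simp only [hψ]
    rw [Equiv.apply_symm_apply, mul_inv_cancel_right]
  have hψ0 : ψ 0 = 1 := mul_inv_cancel _
  have h00 : s 0 = r 0 * c' 0 := by
    have := H 0 0
    rw [sub_zero, f_zero, add_zero] at this
    exact this
  have star : ∀ i j, ψ (i + f c b (j - i)) = ψ (i + f c b (-i)) * ψ (f c b j) := by
    intro i j
    have h1 := H i j
    have h2 := H i 0
    have h3 := H 0 j
    rw [zero_sub] at h2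
    rw [zero_add, sub_zero] at h3
    simp only [hψ]
    rw [h1, h2, h3, h00]
    group
  -- surjectivity
  have hfsurj : Function.Surjective (f c b) := Finite.injective_iff_surjective.1 W.f_inj
  have hgsurj : Function.Surjective (fun i => f c b i + i) :=
    Finite.injective_iff_surjective.1 (fun x y h => W.diff_inj h)
  have hneg : ∀ i, i + f c b (-i) = f c b i + i := by
    intro i; rw [W.neg_eq, add_comm]
  have hmul : ∀ d : F, d ≠ 0 → c d = 0 → ∀ z w v : F, ψ z * ψ w = ψ v →
      ψ (d * z) * ψ (d * w) = ψ (d * v) := by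
    intro d hd hcd z w v hzw
    obtain ⟨i, hi⟩ := hgsurj z
    obtain ⟨j, hj⟩ := hfsurj w
    have hi' : i + f c b (-i) = z := by rw [hneg]; exact hi
    have h1 := star i j
    rw [hi', hj, hzw] at h1
    have h2 := hψinj h1
    have h3 := star (d * i) (d * j)
    have e1 : d * i + f c b (d * j - d * i) = d * v := by
      rw [← mul_sub, W.c_zero_mul hd hcd, ← h2]; ring
    have e2 : d * i + f c b (-(d * i)) = d * z := by
      rw [← mul_neg, W.c_zero_mul hd hcd, ← hi']; ring
    have e3 : f c b (d * j) = d * w := by rw [W.c_zero_mul hd hcd, hj]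
    rw [e1, e2, e3] at h3
    exact h3.symm
  -- the invariant subgroup
  set V := invCentre G with hV
  obtain ⟨g0, hg0, hg01⟩ := invCentre_nontrivial (G := G) (K := u * m) (by nlinarith) hcardG
  have hinv : ∀ d : F, d ≠ 0 → c d = 0 → ∀ x, ψ x ∈ V → ψ (d * x) ∈ V := by
    intro d hd hcd x hx
    rw [hV, mem_invCentre] at hx ⊢
    refine ⟨fun h => ?_, ?_⟩
    · obtain ⟨y, hy⟩ := hψsurj h
      have hdy : d * (d⁻¹ * y) = y := mul_inv_cancel_left₀ hd y
      obtain ⟨v, hv⟩ := hψsurj (ψ x * ψ (d⁻¹ * y))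
      have h1 := hmul d hd hcd x (d⁻¹ * y) v hv.symm
      have h2 := hmul d hd hcd (d⁻¹ * y) x v (by rw [hv, hx.1])
      rw [hdy] at h1 h2
      rw [← hy, h1, h2]
    · have h1 := hmul d hd hcd x x 0 (by rw [hψ0]; exact hx.2)
      rw [mul_zero, hψ0] at h1
      exact h1
  set S : Finset F := univ.filter fun x => x ≠ 0 ∧ ψ x ∈ V with hS
  have hScl : ∀ x y : F, x ∈ S → y ≠ 0 → c y = c x → y ∈ S := by
    intro x y hx hy hc
    rw [hS, mem_filter] at hx ⊢
    obtain ⟨_, hx0, hxV⟩ := hx
    refine ⟨mem_univ _, hy, ?_⟩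
    have hd : y / x ≠ 0 := div_ne_zero hy hx0
    have hyx : y / x * x = y := div_mul_cancel₀ y hx0
    have hcd : c (y / x) = 0 := by
      have h1 := W.c_mul hd hx0
      rw [hyx, hc] at h1
      exact left_eq_add.1 (h1.trans (add_comm _ _))
    have := hinv (y / x) hd hcd x hxV
    rwa [hyx] at this
  have h0S : (0 : F) ∉ S := by
    rw [hS, mem_filter]
    exact fun h => h.2.1 rfl
  have hdvd := W.dvd_card S h0S hScl
  -- the size of `S`
  have hcardV : Nat.card V = S.card + 1 := by
    have h1 : Nat.card V = (univ.filter fun x : F => ψ x ∈ V).card := by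
      rw [← Fintype.card_subtype, ← Nat.card_eq_fintype_card]
      apply Nat.card_congr
      exact (Equiv.subtypeEquiv (Equiv.ofBijective ψ ⟨hψinj, hψsurj⟩) (fun x => Iff.rfl)).symm
    rw [h1]
    have h2 : (univ.filter fun x : F => ψ x ∈ V) = insert 0 S := by
      ext x
      rw [mem_insert, hS, mem_filter, mem_filter]
      constructor
      · rintro ⟨_, h⟩
        by_cases hx : x = 0
        · exact Or.inl hx
        · exact Or.inr ⟨mem_univ _, hx, h⟩
      · rintro (h | h)
        · refine ⟨mem_univ _, ?_⟩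
          rw [h, hψ0]; exact V.one_mem
        · exact ⟨mem_univ _, h.2.2⟩
    rw [h2, Finset.card_insert_of_notMem h0S]
  obtain ⟨t, ht, htV⟩ : ∃ t ≤ u * m, Nat.card V = 2 ^ t := by
    have h1 := Subgroup.card_subgroup_dvd_card V
    rw [hcardG] at h1
    obtain ⟨t, ht, h2⟩ := (Nat.dvd_prime_pow Nat.prime_two).1 h1
    exact ⟨t, ht, h2⟩
  have hSt : S.card = 2 ^ t - 1 := by omega
  have ht1 : 1 ≤ t := by
    by_contra h
    have ht0 : t = 0 := by omega
    rw [ht0, pow_zero] at htV
    have h3 : V = ⊥ := Subgroup.card_eq_one.1 htV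
    have hg0' : g0 ∈ V := hg0
    rw [h3, Subgroup.mem_bot] at hg0'
    exact hg01 hg0'
  have hNdvd : (∑ j ∈ range u, (2 ^ m) ^ j) ∣ 2 ^ t - 1 := by
    rw [← hSt]
    refine Dvd.dvd.trans ?_ hdvd
    have h1 := W.card_fiber 0
    rw [hcard] at h1
    obtain ⟨M, hM⟩ := he
    have hQ : 2 ≤ 2 ^ m := by
      calc 2 = 2 ^ 1 := by norm_num
        _ ≤ 2 ^ m := Nat.pow_le_pow_right (by norm_num) hm
    have hgeom : (∑ j ∈ range u, (2 ^ m) ^ j) * (2 ^ m - 1) = (2 ^ m) ^ u - 1 :=
      Nat.geomSum_eq hQ u ▸ Nat.div_mul_cancel (by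
        have := Nat.sub_one_dvd_pow_sub_one (2 ^ m) u
        exact this)
    rw [mul_comm u m, pow_mul, ← hgeom, hM] at h1
    refine ⟨M, ?_⟩
    have h2 : (univ.filter fun x : F => x ≠ 0 ∧ c x = 0).card * e =
        ((∑ j ∈ range u, (2 ^ m) ^ j) * M) * e := by rw [h1]; ring
    exact Nat.eq_of_mul_eq_mul_right (NeZero.pos e) h2
  have htop := exponent_eq hm hu ht hNdvd ht1
  have hVtop : V = ⊤ := by
    apply Subgroup.eq_top_of_card_eq
    rw [htV, hcardG, htop]
  have hexp : ∀ g : G, g * g = 1 := by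
    intro g
    have : g ∈ V := by rw [hVtop]; trivial
    exact this.2
  -- the identity
  apply hnid
  apply W.identity
  intro y _
  have h1 := star (f c b y) (f c b y)
  rw [sub_self, f_zero, add_zero] at h1
  have h2 := star (f c b y) y
  have h3 : ψ (f c b y + f c b (y - f c b y)) = ψ (f c b (f c b y)) := by
    rw [h2, h1, ← mul_assoc, hexp, one_mul]
  have h4 := hψinj h3
  have e1 : y - f c b y = y + f c b y := by
    rw [sub_eq_add_neg, W.neg_eq]
  rw [e1] at h4
  have := W.two
  linear_combination h4 - (f c b y) * this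

end

end Pool.Agent.H90.DE
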