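import Pool.Agent.H90.DE.Grp

/-!
# Existence of the walk over the field with `2 ^ (u m)` elements (MP_2f0703_co, helper90)
-/

set_option autoImplicit false

namespace Pool.Agent.H90.DE

open Finset

section
variable {F : Type} [Field F] {a : F} {e Q : ℕ} [NeZero e] {c : F → ZMod e} {b : ZMod e → F}

theorem Walk.iter (W : Walk F a e Q c b) {x : F} (hx : x ≠ 0) (k : ℕ) :
    (f c b)^[k] x = (∏ t ∈ range k, b (c x + t)) * x ∧ c ((f c b)^[k] x) = c x + k ∧ (f c b)^[k] x ≠ 0 := by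
  induction k with
  | zero => simp [hx]
  | succ k ih =>
    obtain ⟨h1, h2, h3⟩ := ih
    rw [Function.iterate_succ_apply']
    refine ⟨?_, ?_, W.f_ne h3⟩
    · rw [prod_range_succ]
      show b (c ((f c b)^[k] x)) * (f c b)^[k] x = _
      rw [h2, h1]; ring
    · rw [W.c_f h3, h2]; push_cast; ring

omit [Field F] in
theorem prod_range_zmod [CommMonoid F] (g : ZMod e → F) (i0 : ZMod e) :
    ∏ t ∈ range e, g (i0 + t) = ∏ i, g i := by
  rw [← Equiv.prod_comp (Equiv.addLeft i0) g]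
  apply Finset.prod_bij (fun (t : ℕ) _ => (t : ZMod e))
  · intro t _; exact mem_univ _
  · intro t ht s hs h
    rw [ZMod.natCast_eq_natCast_iff', Nat.mod_eq_of_lt (mem_range.1 ht), Nat.mod_eq_of_lt (mem_range.1 hs)] at h
    exact h
  · intro i _
    exact ⟨i.val, mem_range.2 (ZMod.val_lt i), ZMod.natCast_zmod_val i⟩
  · intro t _; rfl

theorem Walk.iter_e (W : Walk F a e Q c b) {x : F} (hx : x ≠ 0) (k : ℕ) :
    (f c b)^[e * k] x = (∏ i, b i) ^ k * x := by
  induction k with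
  | zero => simp
  | succ k ih =>
    have hne : (f c b)^[e * k] x ≠ 0 := (W.iter hx _).2.2
    rw [Nat.mul_succ, add_comm, Function.iterate_add_apply, (W.iter hne e).1, prod_range_zmod, ih, pow_succ]
    ring

theorem Walk.reach (W : Walk F a e Q c b) {E : ℕ} (hE : ∏ i, b i = a ^ E)
    (hgen : ∀ M : ℕ, e ∣ M → ∃ k : ℕ, (a ^ E) ^ k = a ^ M) {x : F} (hx : x ≠ 0) : ∃ k, (f c b)^[k] 1 = x := by
  have h1 := W.iter (one_ne_zero (α := F)) (c x).val
  have hc1 : c (1 : F) = 0 := by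
    have := W.hc 0
    rwa [pow_zero, Nat.cast_zero] at this
  obtain ⟨-, h2, h3⟩ := h1
  rw [hc1, zero_add, ZMod.natCast_zmod_val] at h2
  set z := (f c b)^[(c x).val] 1 with hz
  have hxz : x / z ≠ 0 := div_ne_zero hx h3
  obtain ⟨M, hM⟩ := W.ha (x / z) hxz
  have hcM : (M : ZMod e) = 0 := by
    have h4 := W.c_mul hxz h3
    rw [div_mul_cancel₀ _ h3, h2, hM, W.hc] at h4
    exact left_eq_add.1 (h4.trans (add_comm _ _))
  obtain ⟨k, hk⟩ := hgen M ((ZMod.natCast_eq_zero_iff _ _).1 hcM)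
  refine ⟨e * k + (c x).val, ?_⟩
  rw [Function.iterate_add_apply, ← hz, W.iter_e h3, hE, hk, ← hM, div_mul_cancel₀ _ h3]

end

/-- the walk exists over a field with `2 ^ (u m)` elements -/
theorem exists_walk (F : Type) [Field F] [Fintype F] [CharP F 2] {m u e : ℕ} [NeZero e] (hm : 1 ≤ m)
    (hu : u.Prime) (hu2 : u ≠ 2) (he : e ∣ 2 ^ m - 1) (heu : u + 2 ≤ e) (hd : ¬ u ∣ e)
    (hcard : Fintype.card F = 2 ^ (u * m)) :
    ∃ (a : F) (c : F → ZMod e) (b : ZMod e → F) (E : ℕ), Walk F a e (2 ^ m) c b ∧ ∏ i, b i = a ^ E ∧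
      ∀ M : ℕ, e ∣ M → ∃ k : ℕ, (a ^ E) ^ k = a ^ M := by
  classical
  have huo := hu.odd_of_ne_two hu2
  have hQ : 2 ≤ 2 ^ m := by
    calc 2 = 2 ^ 1 := by norm_num
      _ ≤ 2 ^ m := Nat.pow_le_pow_right (by norm_num) hm
  have heo : Odd e := by
    by_contra hno
    rw [Nat.not_odd_iff_even] at hno
    have h1 : 2 ∣ 2 ^ m - 1 := (even_iff_two_dvd.1 hno).trans he
    obtain ⟨v, hv⟩ : ∃ v, m = v + 1 := ⟨m - 1, by omega⟩
    rw [hv, pow_succ] at h1
    have : 1 ≤ 2 ^ v := Nat.one_le_two_pow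
    omega
  obtain ⟨n, k, hn, hnu, hk, hek⟩ := form_of hu hu2 heo heu hd
  have hqQ : 2 ^ (u * m) = (2 ^ m) ^ u := by rw [← pow_mul, mul_comm]
  have heq : e ∣ Fintype.card F - 1 := by
    rw [hcard, hqQ]
    exact he.trans (Nat.sub_one_dvd_pow_sub_one (2 ^ m) u)
  obtain ⟨g, hg⟩ := IsCyclic.exists_generator (α := Fˣ)
  have hord : orderOf g = Fintype.card F - 1 := by
    rw [orderOf_eq_card_of_forall_mem_zpowers hg, Nat.card_eq_fintype_card, Fintype.card_units]
  have hfinO : IsOfFinOrder g := isOfFinOrder_of_finite g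
  set a : F := (g : F) with ha
  have ha0 : a ≠ 0 := g.ne_zero
  have hall : ∀ x : F, x ≠ 0 → ∃ n : ℕ, x = a ^ n := by
    intro x hx
    have h1 := hg (Units.mk0 x hx)
    rw [← hfinO.mem_powers_iff_mem_zpowers] at h1
    obtain ⟨n, hn⟩ := h1
    refine ⟨n, ?_⟩
    have h2 : g ^ n = Units.mk0 x hx := hn
    have h3 := congrArg Units.val h2
    rw [Units.val_pow_eq_pow_val] at h3
    exact h3.symm
  have hpow_eq : ∀ n n' : ℕ, a ^ n = a ^ n' → (n : ZMod e) = n' := by
    intro n n' h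
    have h1 : g ^ n = g ^ n' := by
      apply Units.ext
      rw [Units.val_pow_eq_pow_val, Units.val_pow_eq_pow_val]
      exact h
    have h2 := pow_eq_pow_iff_modEq.1 h1
    rw [hord] at h2
    exact (ZMod.natCast_eq_natCast_iff _ _ _).2 (h2.of_dvd heq)
  let c : F → ZMod e := fun x => if h : ∃ n : ℕ, x = a ^ n then ((Classical.choose h : ℕ) : ZMod e) else 0
  have hc : ∀ n : ℕ, c (a ^ n) = n := by
    intro n
    have h : ∃ n' : ℕ, a ^ n = a ^ n' := ⟨n, rfl⟩
    show (if h : ∃ n' : ℕ, a ^ n = a ^ n' then ((Classical.choose h : ℕ) : ZMod e) else 0) = n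
    rw [dif_pos h]
    exact (hpow_eq _ _ (Classical.choose_spec h)).symm
  have hxq : ∀ x : F, x ^ ((2 ^ m) ^ u) = x := by
    intro x
    rw [← hqQ, ← hcard]
    exact FiniteField.pow_card x
  have hxqk : ∀ (k : ℕ) (x : F), x ^ ((2 ^ m) ^ (u * k)) = x := by
    intro k
    induction k with
    | zero => intro x; simp
    | succ k ih =>
      intro x
      rw [Nat.mul_succ, pow_add, pow_mul, ih, hxq]
  have hfr : ∀ (x : F) (j : ℕ), (x + 1) ^ ((2 ^ m) ^ j) = x ^ ((2 ^ m) ^ j) + 1 := by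
    intro x j
    rw [← pow_mul, add_pow_char_pow, one_pow]
  have hinj : ∀ x y : F, x ^ (1 + 2 ^ m) = y ^ (1 + 2 ^ m) → x = y := by
    intro x y h
    by_cases hy : y = 0
    · subst hy
      rw [zero_pow (by omega)] at h
      exact (pow_eq_zero_iff (by omega)).1 h
    · have hx : x ≠ 0 := by
        rintro rfl
        rw [zero_pow (by omega)] at h
        exact pow_ne_zero _ hy h.symm
      have h1 : (x / y) ^ (1 + 2 ^ m) = 1 := by
        rw [div_pow, h, div_self (pow_ne_zero _ hy)]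
      have h2 : (x / y) ^ ((2 ^ m) ^ u - 1) = 1 := by
        rw [← hqQ, ← hcard]
        exact FiniteField.pow_card_sub_one_eq_one _ (div_ne_zero hx hy)
      have h3 := Nat.dvd_gcd (orderOf_dvd_of_pow_eq_one h1) (orderOf_dvd_of_pow_eq_one h2)
      rw [Nat.coprime_iff_gcd_eq_one.1 (coprime_one_add hm huo), Nat.dvd_one] at h3
      exact (div_eq_one_iff_eq hy).1 (orderOf_eq_one_iff.1 h3)
  have haQ : a ^ (2 ^ m) ≠ a := by
    intro h
    have h1 : g ^ (2 ^ m - 1) = 1 := by
      apply Units.ext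
      rw [Units.val_pow_eq_pow_val, Units.val_one]
      apply mul_right_cancel₀ ha0
      rw [one_mul, ← pow_succ, Nat.sub_add_cancel (by omega)]
      exact h
    have h2 := orderOf_dvd_of_pow_eq_one h1
    rw [hord, hcard, hqQ] at h2
    have h3 := Nat.le_of_dvd (by omega) h2
    have h4 : (2 ^ m) ^ 1 < (2 ^ m) ^ u := Nat.pow_lt_pow_right (by omega) hu.one_lt
    rw [pow_one] at h4
    omega
  set b : ZMod e → F := fun i => a ^ ((2 ^ m) ^ (w n i.val)) with hb
  have hval : ∀ i : ZMod e, i.val + 1 < e → (i + 1).val = i.val + 1 := by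
    intro i hi
    have h1 : i + 1 = ((i.val + 1 : ℕ) : ZMod e) := by
      push_cast
      rw [ZMod.natCast_zmod_val]
    rw [h1, ZMod.val_natCast_of_lt hi]
  have hadj : ∀ i, b (i + 1) = (b i) ^ (2 ^ m) ∨ b i = (b (i + 1)) ^ (2 ^ m) := by
    intro i
    have hlt := ZMod.val_lt i
    by_cases hi : i.val + 1 < e
    · have h1 := hval i hi
      simp only [hb]
      rw [h1]
      rcases w_step n i.val with h | h
      · left
        rw [h, pow_succ, pow_mul]
      · right
        rw [h, pow_succ, pow_mul]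
    · have h1 : i.val = e - 1 := by omega
      have h2 : i + 1 = 0 := by
        have h3 : i + 1 = ((i.val + 1 : ℕ) : ZMod e) := by
          push_cast
          rw [ZMod.natCast_zmod_val]
        rw [h3, h1, Nat.sub_add_cancel (by omega), ZMod.natCast_self]
      left
      simp only [hb]
      have hku : u ≤ u * k := Nat.le_mul_of_pos_right u (by omega)
      rw [h2, h1, ZMod.val_zero, w_zero, pow_zero, pow_one, w_last (by omega), ← pow_mul, ← pow_succ]
      have h4 : e - 1 - 2 * n + 1 = u * k := by omega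
      rw [h4, hxqk]
  have hback : ∃ i, b (i + 2) = b i := by
    refine ⟨0, ?_⟩
    simp only [hb]
    have h2 : ((0 : ZMod e) + 2).val = 2 := by
      have h3 : (0 : ZMod e) + 2 = ((2 : ℕ) : ZMod e) := by push_cast; ring
      have := hu.two_le
      rw [h3, ZMod.val_natCast_of_lt (by omega)]
    rw [h2, ZMod.val_zero, w_zero, w_two hn]
  have hQ1 : ((2 ^ m : ℕ) : ZMod e) = 1 := by
    have h1 : ((2 ^ m - 1 : ℕ) : ZMod e) = 0 := (ZMod.natCast_eq_zero_iff _ _).2 he
    rw [Nat.cast_sub (by omega)] at h1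
    push_cast at h1 ⊢
    linear_combination h1
  have W : Walk F a e (2 ^ m) c b :=
    { ha0 := ha0, hc := hc, ha := hall, hQ1 := hQ1, two := by
        have := CharP.cast_eq_zero F 2
        exact_mod_cast this
      hfr := hfr, hb := fun i => ⟨w n i.val, rfl⟩, hadj := hadj, hback := hback, hinj := hinj, haQ := haQ }
  set E := ∑ t ∈ range e, (2 ^ m) ^ w n t with hE
  refine ⟨a, c, b, E, W, ?_, ?_⟩
  · rw [← prod_range_zmod b 0, hE, ← Finset.prod_pow_eq_pow_sum]
    apply Finset.prod_congr rfl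
    intro t ht
    simp only [hb]
    rw [zero_add, ZMod.val_natCast_of_lt (mem_range.1 ht)]
  · intro M hM
    have hku : u ≤ u * k := Nat.le_mul_of_pos_right u (by omega)
    have hE2 : E = (1 + 2 ^ m) * (∑ j ∈ range n, (2 ^ m) ^ j) + ∑ j ∈ range (u * k), (2 ^ m) ^ j := by
      have h1 : e = 3 * n + (u * k - n) := by omega
      have h2 : n + (u * k - n) = u * k := by omega
      rw [hE, h1, sum_w, h2]
    have hgcd : Nat.gcd E ((2 ^ m) ^ u - 1) = e := by
      rw [hE2]
      exact gcd_eq hm hu hu2 hn hnu he hek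
    obtain ⟨M', hM'⟩ := hM
    have hge : g ^ (e : ℤ) = (g ^ E) ^ (Nat.gcdA E ((2 ^ m) ^ u - 1)) := by
      have h1 := Nat.gcd_eq_gcd_ab E ((2 ^ m) ^ u - 1)
      rw [hgcd] at h1
      rw [h1, zpow_add, zpow_mul, zpow_mul, zpow_natCast, zpow_natCast]
      have h2 : g ^ ((2 ^ m) ^ u - 1) = 1 := by
        rw [← hqQ, ← hcard, ← hord]
        exact pow_orderOf_eq_one g
      rw [h2, one_zpow, mul_one]
    have hmem : g ^ M ∈ Subgroup.zpowers (g ^ E) := by
      have h1 : g ^ M = (g ^ (e : ℤ)) ^ M' := by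
        rw [zpow_natCast, ← pow_mul, hM']
      rw [h1, hge]
      exact Subgroup.pow_mem _ (Subgroup.zpow_mem _ (Subgroup.mem_zpowers _) _) _
    rw [← (isOfFinOrder_of_finite (g ^ E)).mem_powers_iff_mem_zpowers] at hmem
    obtain ⟨k', hk'⟩ := hmem
    refine ⟨k', ?_⟩
    have h3 : (g ^ E) ^ k' = g ^ M := hk'
    have h4 := congrArg Units.val h3
    rw [Units.val_pow_eq_pow_val, Units.val_pow_eq_pow_val, Units.val_pow_eq_pow_val] at h4
    exact h4

end Pool.Agent.H90.DE
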