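import Mathlib

/-!
# A triangle in one colour (MP_2f0703_co, helper90)

Proof by induction on `C`. `C = 0`: `K = 2` (two different elements of `S` give a colour in the empty set). Step:
`K' = (C + 1) * K + 2`. Take `v ∈ S`; the map `χ v` sends `S.erase v` (at least `(C + 1) * K + 1` elements) into
`T`, which has at most `C + 1` elements; pigeonhole gives a colour `k ∈ T` such that `S' = {x ∈ S.erase v | χ v x = k}` has at
least `K` elements. If some `x ≠ y` in `S'` have `χ x y = k`, the triangle is `v, x, y`; otherwise `χ` sends the pairs of `S'` into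
`T.erase k`, which has at most `C` elements, and the induction hypothesis gives the triangle.
-/

set_option autoImplicit false

namespace Pool.Agent.H90.DE

theorem exists_triangle (C : ℕ) : ∃ K : ℕ, ∀ (V κ : Type) (S : Finset V) (T : Finset κ) (χ : V → V → κ),
    T.card ≤ C → K ≤ S.card → (∀ x y, χ x y = χ y x) → (∀ x ∈ S, ∀ y ∈ S, x ≠ y → χ x y ∈ T) →
    ∃ x ∈ S, ∃ y ∈ S, ∃ z ∈ S, x ≠ y ∧ y ≠ z ∧ x ≠ z ∧ χ x y = χ y z ∧ χ y z = χ x z := by
  classical
  induction C with
  | zero =>
    refine ⟨2, fun V κ S T χ hT hS _ hχ => ?_⟩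
    obtain ⟨x, hx, y, hy, hxy⟩ := Finset.one_lt_card.1 (by omega : 1 < S.card)
    have h1 := hχ x hx y hy hxy
    rw [Finset.card_eq_zero.1 (Nat.le_zero.1 hT)] at h1
    exact absurd h1 (Finset.notMem_empty _)
  | succ C ih =>
    obtain ⟨K, hK⟩ := ih
    refine ⟨(C + 1) * K + 2, fun V κ S T χ hT hS hs hχ => ?_⟩
    obtain ⟨v, hv⟩ := Finset.card_pos.1 (by omega : 0 < S.card)
    have hcard : (C + 1) * K + 1 ≤ (S.erase v).card := by
      rw [Finset.card_erase_of_mem hv]
      omega
    have hmap : ∀ x ∈ S.erase v, χ v x ∈ T := fun x hx =>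
      hχ v hv x (Finset.mem_of_mem_erase hx) (Finset.ne_of_mem_erase hx).symm
    have hlt : T.card * K < (S.erase v).card := by
      have : T.card * K ≤ (C + 1) * K := Nat.mul_le_mul_right K hT
      omega
    obtain ⟨k, hk, hfib⟩ := Finset.exists_lt_card_fiber_of_mul_lt_card_of_maps_to hmap hlt
    by_cases hex : ∃ x ∈ (S.erase v).filter (fun x => χ v x = k),
        ∃ y ∈ (S.erase v).filter (fun x => χ v x = k), x ≠ y ∧ χ x y = k
    · obtain ⟨x, hx, y, hy, hxy, hc⟩ := hex
      rw [Finset.mem_filter, Finset.mem_erase] at hx hy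
      exact ⟨v, hv, x, hx.1.2, y, hy.1.2, hx.1.1.symm, hxy, hy.1.1.symm, by rw [hx.2, hc], by rw [hc, hy.2]⟩
    · obtain ⟨x, hx, y, hy, z, hz, h⟩ := hK V κ ((S.erase v).filter (fun x => χ v x = k)) (T.erase k) χ
        (by rw [Finset.card_erase_of_mem hk]; omega) hfib.le hs (fun x hx y hy hxy => by
          rw [Finset.mem_erase]
          refine ⟨fun hc => hex ⟨x, hx, y, hy, hxy, hc⟩, ?_⟩
          exact hχ x (Finset.mem_of_mem_erase (Finset.mem_filter.1 hx).1) y
            (Finset.mem_of_mem_erase (Finset.mem_filter.1 hy).1) hxy)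
      exact ⟨x, Finset.mem_of_mem_erase (Finset.mem_filter.1 hx).1, y,
        Finset.mem_of_mem_erase (Finset.mem_filter.1 hy).1, z, Finset.mem_of_mem_erase (Finset.mem_filter.1 hz).1, h⟩

end Pool.Agent.H90.DE
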