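import Pool.Agent.H90.DE.GWGrp
import Pool.Agent.H90.DE.Main
import Pool.Agent.H90.DE.Ram
import Pool.Agent.H90.DE.Expo

/-!
# Existence of the general walk over all large fields (MP_2f0703_co, helper90)
-/

set_option autoImplicit false

namespace Pool.Agent.H90.DE

open Finset

section
variable {F : Type} [Field F] {a : F} {e : ℕ} [NeZero e] {c : F → ZMod e} {b : ZMod e → F} {γ δ : ZMod e}

theorem GW.iter (W : GW F a e c b γ δ) {x : F} (hx : x ≠ 0) (k : ℕ) :
    (f c b)^[k] x = (∏ t ∈ range k, b (c x + t)) * x ∧ c ((f c b)^[k] x) = c x + k ∧ (f c b)^[k] x ≠ 0 := by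
  induction k with
  | zero => simp [hx]
  | succ k ih =>
    obtain ⟨h1, h2, h3⟩ := ih
    rw [Function.iterate_succ_apply']
    refine ⟨?_, ?_, W.f_ne h3⟩
    · rw [prod_range_succ]
      show b (c ((f c b)^[k] x)) * (f c b)^[k] x = _
      rw [h2, h1]; ring
    · rw [W.c_f h3, h2]; push_cast; ring

theorem GW.iter_e (W : GW F a e c b γ δ) {x : F} (hx : x ≠ 0) (k : ℕ) :
    (f c b)^[e * k] x = (∏ i, b i) ^ k * x := by
  induction k with
  | zero => simp
  | succ k ih =>
    have hne : (f c b)^[e * k] x ≠ 0 := (W.iter hx _).2.2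
    rw [Nat.mul_succ, add_comm, Function.iterate_add_apply, (W.iter hne e).1, prod_range_zmod, ih, pow_succ]
    ring

theorem GW.reach (W : GW F a e c b γ δ) {E : ℕ} (hE : ∏ i, b i = a ^ E)
    (hgen : ∀ M : ℕ, e ∣ M → ∃ k : ℕ, (a ^ E) ^ k = a ^ M) {x : F} (hx : x ≠ 0) : ∃ k, (f c b)^[k] 1 = x := by
  have h1 := W.iter (one_ne_zero (α := F)) (c x).val
  have hc1 : c (1 : F) = 0 := by
    have := W.hc 0
    rwa [pow_zero, Nat.cast_zero] at this
  obtain ⟨-, h2, h3⟩ := h1
  rw [hc1, zero_add, ZMod.natCast_zmod_val] at h2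
  set z := (f c b)^[(c x).val] 1 with hz
  have hxz : x / z ≠ 0 := div_ne_zero hx h3
  obtain ⟨M, hM⟩ := W.ha (x / z) hxz
  have hcM : (M : ZMod e) = 0 := by
    have h4 := W.c_mul hxz h3
    rw [div_mul_cancel₀ _ h3, h2, hM, W.hc] at h4
    exact left_eq_add.1 (h4.trans (add_comm _ _))
  obtain ⟨k, hk⟩ := hgen M ((ZMod.natCast_eq_zero_iff _ _).1 hcM)
  refine ⟨e * k + (c x).val, ?_⟩
  rw [Function.iterate_add_apply, ← hz, W.iter_e h3, hE, hk, ← hM, div_mul_cancel₀ _ h3]

end

/-- the closed walk on the triangle `p, q, r` -/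
def tri (e p q r : ℕ) (t : ℕ) : ℕ := if t = e - 1 then r else if t % 2 = 0 then p else q

theorem tri_mem (e p q r t : ℕ) : tri e p q r t = p ∨ tri e p q r t = q ∨ tri e p q r t = r := by
  unfold tri
  split_ifs <;> simp

theorem tri_val_succ {e : ℕ} [NeZero e] (he3 : 3 ≤ e) (heo : e % 2 = 1) {p q r : ℕ} (hpq : p ≠ q) (hqr : q ≠ r) (hpr : p ≠ r)
    (i : ZMod e) : tri e p q r i.val ≠ tri e p q r (i + 1).val := by
  have hlt := ZMod.val_lt i
  have h3 : i + 1 = ((i.val + 1 : ℕ) : ZMod e) := by
    push_cast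
    rw [ZMod.natCast_zmod_val]
  by_cases hi : i.val + 1 < e
  · rw [h3, ZMod.val_natCast_of_lt hi]
    unfold tri
    have h1 : i.val ≠ e - 1 := by omega
    rw [if_neg h1]
    by_cases h2 : i.val + 1 = e - 1
    · rw [if_pos h2]
      have h4 : i.val % 2 = 1 := by omega
      rw [if_neg (by omega)]
      exact hqr
    · rw [if_neg h2]
      by_cases h4 : i.val % 2 = 0
      · rw [if_pos h4, if_neg (by omega)]
        exact hpq
      · rw [if_neg h4, if_pos (by omega)]
        exact hpq.symm
  · have h1 : i.val = e - 1 := by omega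
    have h2 : i + 1 = 0 := by
      rw [h3, h1, Nat.sub_add_cancel (by omega), ZMod.natCast_self]
    rw [h2, ZMod.val_zero, h1]
    unfold tri
    rw [if_pos rfl, if_neg (by omega), if_pos (by omega)]
    exact hpr.symm

/-- the walk exists over all large fields of characteristic two with `e ∣ |F| - 1` -/
theorem exists_gw (e : ℕ) [NeZero e] (he3 : 3 ≤ e) (heo : e % 2 = 1) : ∃ N0 : ℕ, ∀ (F : Type) [Field F] [Fintype F] [CharP F 2],
    N0 ≤ Fintype.card F - 1 → e ∣ Fintype.card F - 1 →
    ∃ (a : F) (c : F → ZMod e) (b : ZMod e → F) (γ δ : ZMod e) (E : ℕ), GW F a e c b γ δ ∧ ∏ i, b i = a ^ E ∧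
      (∀ M : ℕ, e ∣ M → ∃ k : ℕ, (a ^ E) ^ k = a ^ M) ∧
      ¬ ∀ i : ZMod e, b (i + γ) * (1 + b i) = b i * (1 + b (i + 1)) := by
  classical
  obtain ⟨R, hR⟩ := exists_triangle e
  set K := e * R + 1 with hK
  obtain ⟨N0, hN0⟩ := exists_expo e K (by omega)
  refine ⟨N0, fun F _ _ _ hN heq => ?_⟩
  have two : (2 : F) = 0 := by
    have := CharP.cast_eq_zero F 2
    exact_mod_cast this
  obtain ⟨x, hx1, hxi, hxs⟩ := hN0 _ hN heq
  obtain ⟨g, hg⟩ := IsCyclic.exists_generator (α := Fˣ)
  have hord : orderOf g = Fintype.card F - 1 := by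
    rw [orderOf_eq_card_of_forall_mem_zpowers hg, Nat.card_eq_fintype_card, Fintype.card_units]
  have hfinO : IsOfFinOrder g := isOfFinOrder_of_finite g
  set a : F := (g : F) with ha
  have ha0 : a ≠ 0 := g.ne_zero
  have hall : ∀ x : F, x ≠ 0 → ∃ n : ℕ, x = a ^ n := by
    intro x hx
    have h1 := hg (Units.mk0 x hx)
    rw [← hfinO.mem_powers_iff_mem_zpowers] at h1
    obtain ⟨n, hn⟩ := h1
    refine ⟨n, ?_⟩
    have h2 : g ^ n = Units.mk0 x hx := hn
    have h3 := congrArg Units.val h2
    rw [Units.val_pow_eq_pow_val] at h3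
    exact h3.symm
  have hmod : ∀ n n' : ℕ, a ^ n = a ^ n' → n ≡ n' [MOD Fintype.card F - 1] := by
    intro n n' h
    have h1 : g ^ n = g ^ n' := by
      apply Units.ext
      rw [Units.val_pow_eq_pow_val, Units.val_pow_eq_pow_val]
      exact h
    have h2 := pow_eq_pow_iff_modEq.1 h1
    rwa [hord] at h2
  have hpow_eq : ∀ n n' : ℕ, a ^ n = a ^ n' → (n : ZMod e) = n' := by
    intro n n' h
    exact (ZMod.natCast_eq_natCast_iff _ _ _).2 ((hmod n n' h).of_dvd heq)
  let c : F → ZMod e := fun x => if h : ∃ n : ℕ, x = a ^ n then ((Classical.choose h : ℕ) : ZMod e) else 0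
  have hc : ∀ n : ℕ, c (a ^ n) = n := by
    intro n
    have h : ∃ n' : ℕ, a ^ n = a ^ n' := ⟨n, rfl⟩
    show (if h : ∃ n' : ℕ, a ^ n = a ^ n' then ((Classical.choose h : ℕ) : ZMod e) else 0) = n
    rw [dif_pos h]
    exact (hpow_eq _ _ (Classical.choose_spec h)).symm
  have hx1' : ∀ i, (x i : ZMod e) = 1 := by
    intro i
    have := (ZMod.natCast_eq_natCast_iff _ _ _).2 (hx1 i)
    rwa [Nat.cast_one] at this
  set v : ℕ → F := fun i => a ^ x i with hv
  have hv0 : ∀ i, v i ≠ 0 := fun i => pow_ne_zero _ ha0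
  have hvc : ∀ i, c (v i) = 1 := fun i => by rw [hv]; show c (a ^ x i) = 1; rw [hc, hx1']
  have hcast : ∀ k : ℕ, 0 < k → k < e → ((k : ℕ) : ZMod e) ≠ 0 := by
    intro k hk0 hke h
    rw [ZMod.natCast_eq_zero_iff] at h
    exact absurd (Nat.le_of_dvd hk0 h) (by omega)
  have hv1 : ∀ i, v i ≠ 1 := by
    intro i h
    have h1 := hpow_eq (x i) 0 (by rw [pow_zero]; exact h)
    rw [hx1'] at h1
    apply hcast 1 (by omega) (by omega)
    rw [Nat.cast_one, h1, Nat.cast_zero]
  have hvv : ∀ i j, v i * v j ≠ 1 := by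
    intro i j h
    have h1 := hpow_eq (x i + x j) 0 (by rw [pow_zero, pow_add]; exact h)
    rw [Nat.cast_add, hx1', hx1'] at h1
    apply hcast 2 (by omega) (by omega)
    push_cast
    rw [← one_add_one_eq_two, h1, Nat.cast_zero]
  have hvinj : ∀ i j, i < K → j < K → v i = v j → i = j := fun i j hi hj h => hxi i j hi hj (hmod _ _ h)
  -- pigeonhole
  obtain ⟨γ, -, hγ⟩ := Finset.exists_lt_card_fiber_of_mul_lt_card_of_maps_to (s := range K) (t := (univ : Finset (ZMod e)))
    (f := fun i => c (v i + 1)) (n := R) (fun _ _ => mem_univ _) (by rw [card_univ, ZMod.card, card_range]; omega)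
  set S := (range K).filter fun i => c (v i + 1) = γ with hS
  obtain ⟨p, hp, q, hq, r, hr, hpq, hqr, hpr, h1, h2⟩ := hR ℕ (ZMod e) S univ (fun i j => c (v i * v j + 1))
    (by rw [card_univ, ZMod.card]) hγ.le (fun i j => by rw [mul_comm]) (fun _ _ _ _ _ => mem_univ _)
  set δ := c (v p * v r + 1) with hδ
  have hqrδ : c (v q * v r + 1) = δ := h2
  have hpqδ : c (v p * v q + 1) = δ := h1.trans h2
  have hSK : ∀ i ∈ S, i < K ∧ c (v i + 1) = γ := by
    intro i hi
    rw [hS, mem_filter, mem_range] at hi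
    exact hi
  -- the walks
  have main : ∀ p q r : ℕ, p ∈ S → q ∈ S → r ∈ S → p ≠ q → q ≠ r → p ≠ r → c (v p * v q + 1) = δ → c (v q * v r + 1) = δ →
      c (v p * v r + 1) = δ → (¬ ∀ i : ZMod e, v (tri e p q r (i + γ).val) * (1 + v (tri e p q r i.val)) =
        v (tri e p q r i.val) * (1 + v (tri e p q r (i + 1).val))) →
      ∃ (a : F) (c : F → ZMod e) (b : ZMod e → F) (γ δ : ZMod e) (E : ℕ), GW F a e c b γ δ ∧ ∏ i, b i = a ^ E ∧
      (∀ M : ℕ, e ∣ M → ∃ k : ℕ, (a ^ E) ^ k = a ^ M) ∧
      ¬ ∀ i : ZMod e, b (i + γ) * (1 + b i) = b i * (1 + b (i + 1)) := by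
    intro p q r hp hq hr hpq hqr hpr h1 h2 h3 hni
    have hmem : ∀ i : ZMod e, tri e p q r i.val ∈ S := by
      intro i
      rcases tri_mem e p q r i.val with h | h | h <;> rw [h] <;> assumption
    have hcol : ∀ i : ZMod e, c (v (tri e p q r i.val) * v (tri e p q r (i + 1).val) + 1) = δ := by
      intro i
      have hne := tri_val_succ he3 heo hpq hqr hpr i
      rcases tri_mem e p q r i.val with h | h | h <;> rcases tri_mem e p q r (i + 1).val with h' | h' | h' <;>
        rw [h, h'] at hne ⊢ <;> first | exact absurd rfl hne | exact h1 | exact h2 | exact h3 |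
          (rw [mul_comm]; first | exact h1 | exact h2 | exact h3)
    refine ⟨a, c, fun i => v (tri e p q r i.val), γ, δ, ∑ i : ZMod e, x (tri e p q r i.val), ?_, ?_, ?_, hni⟩
    · exact { ha0 := ha0, hc := hc, ha := hall, two := two, b_ne := fun i => hv0 _, b_ne_one := fun i => hv1 _, c_b := fun i => hvc _, c_b_one := fun i => (hSK _ (hmem i)).2, pair_ne_one := fun i => hvv _ _, c_pair := hcol }
    · rw [← Finset.prod_pow_eq_pow_sum]
    · intro M hM
      set E := ∑ i : ZMod e, x (tri e p q r i.val) with hE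
      have hn1 : 0 < Fintype.card F - 1 := by
        have := Fintype.one_lt_card (α := F)
        omega
      have heE : e ∣ E := by
        rw [← ZMod.natCast_eq_zero_iff, hE]
        push_cast
        rw [Finset.sum_congr rfl fun i _ => hx1' _, Finset.sum_const, card_univ, ZMod.card, nsmul_eq_mul, mul_one, ZMod.natCast_self]
      have hgcd : Nat.gcd E (Fintype.card F - 1) = e := by
        obtain ⟨h, hh⟩ := Nat.dvd_gcd heE heq
        have hgp : 0 < Nat.gcd E (Fintype.card F - 1) := Nat.gcd_pos_of_pos_right _ hn1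
        by_cases h1 : h = 1
        · rw [hh, h1, mul_one]
        · exfalso
          obtain ⟨l, hl, hlh⟩ := Nat.exists_prime_and_dvd h1
          obtain ⟨h', rfl⟩ := hlh
          refine hxs (ZMod e) univ (fun i => tri e p q r i.val) (by rw [card_univ, ZMod.card]) (fun i _ => (hSK _ (hmem i)).1) l hl ?_ ?_
          · have h5 : e * (l * h') ∣ Fintype.card F - 1 := hh ▸ Nat.gcd_dvd_right _ _
            obtain ⟨z, hz⟩ := h5
            rw [hz, show e * (l * h') * z = e * (l * (h' * z)) by ring, Nat.mul_div_cancel_left _ (by omega)]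
            exact Dvd.intro _ rfl
          · have h5 : e * (l * h') ∣ E := hh ▸ Nat.gcd_dvd_left _ _
            refine Dvd.dvd.trans ?_ h5
            rw [← mul_assoc, mul_comm e l]
            exact Dvd.intro _ rfl
      obtain ⟨M', hM'⟩ := hM
      have hge : g ^ (e : ℤ) = (g ^ E) ^ (Nat.gcdA E (Fintype.card F - 1)) := by
        have h1 := Nat.gcd_eq_gcd_ab E (Fintype.card F - 1)
        rw [hgcd] at h1
        rw [h1, zpow_add, zpow_mul, zpow_mul, zpow_natCast, zpow_natCast]
        have h2 : g ^ (Fintype.card F - 1) = 1 := by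
          rw [← hord]
          exact pow_orderOf_eq_one g
        rw [h2, one_zpow, mul_one]
      have hmem : g ^ M ∈ Subgroup.zpowers (g ^ E) := by
        have h1 : g ^ M = (g ^ (e : ℤ)) ^ M' := by
          rw [zpow_natCast, ← pow_mul, hM']
        rw [h1, hge]
        exact Subgroup.pow_mem _ (Subgroup.zpow_mem _ (Subgroup.mem_zpowers _) _) _
      rw [← (isOfFinOrder_of_finite (g ^ E)).mem_powers_iff_mem_zpowers] at hmem
      obtain ⟨k', hk'⟩ := hmem
      refine ⟨k', ?_⟩
      have h3 : (g ^ E) ^ k' = g ^ M := hk'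
      have h4 := congrArg Units.val h3
      rw [Units.val_pow_eq_pow_val, Units.val_pow_eq_pow_val, Units.val_pow_eq_pow_val] at h4
      exact h4
  have hvp : v p ≠ v q := fun h => hpq (hvinj _ _ (hSK p hp).1 (hSK q hq).1 h)
  have hvq : v q ≠ v r := fun h => hqr (hvinj _ _ (hSK q hq).1 (hSK r hr).1 h)
  have hvr : v p ≠ v r := fun h => hpr (hvinj _ _ (hSK p hp).1 (hSK r hr).1 h)
  by_cases hid : ∀ i : ZMod e, v (tri e p q r (i + γ).val) * (1 + v (tri e p q r i.val)) =
        v (tri e p q r i.val) * (1 + v (tri e p q r (i + 1).val))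
  swap
  · exact main p q r hp hq hr hpq hqr hpr hpqδ hqrδ rfl hid
  · refine main p r q hp hr hq hpr hqr.symm hpq rfl (by rw [mul_comm]; exact hqrδ) hpqδ fun hid' => ?_
    have w0 : ∀ q r, tri e p q r (0 : ZMod e).val = p := by
      intro q r
      rw [ZMod.val_zero]; unfold tri
      rw [if_neg (by omega), if_pos (by omega)]
    have v1 : (1 : ZMod e).val = 1 := by
      have : ((1 : ℕ) : ZMod e).val = 1 := ZMod.val_natCast_of_lt (by omega)
      rwa [Nat.cast_one] at this
    have w1 : ∀ q r, tri e p q r (1 : ZMod e).val = q := by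
      intro q r
      rw [v1]; unfold tri
      rw [if_neg (by omega), if_neg (by omega)]
    have k0 := hid 0
    have k0' := hid' 0
    rw [zero_add, zero_add, w0, w1] at k0 k0'
    rcases tri_mem e p q r γ.val with h | h | h
    · rw [h] at k0
      exact hvp (add_left_cancel (mul_left_cancel₀ (hv0 p) k0))
    · rw [h] at k0
      exact hvp (by linear_combination -k0)
    · by_cases h5 : 5 ≤ e
      · have k1 := hid 1
        have v2 : ((1 : ZMod e) + 1).val = 2 := by
          have h6 : (1 : ZMod e) + 1 = ((2 : ℕ) : ZMod e) := by push_cast; ring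
          rw [h6, ZMod.val_natCast_of_lt (by omega)]
        have w2 : tri e p q r ((1 : ZMod e) + 1).val = p := by
          rw [v2]; unfold tri
          rw [if_neg (by omega), if_pos (by omega)]
        rw [w1, w2] at k1
        have hne := tri_val_succ he3 heo hpq hqr hpr γ
        rw [h] at hne k0
        rw [add_comm 1 γ] at k1
        have hpp : 1 + v p ≠ 0 := by
          intro h7
          apply hv1 p
          linear_combination h7 - two
        have hqq : 1 + v q ≠ 0 := by
          intro h7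
          apply hv1 q
          linear_combination h7 - two
        have hprod : v r * v (tri e p q r (γ + 1).val) = v p * v q := by
          apply mul_right_cancel₀ (mul_ne_zero hpp hqq)
          calc v r * v (tri e p q r (γ + 1).val) * ((1 + v p) * (1 + v q))
              = (v r * (1 + v p)) * (v (tri e p q r (γ + 1).val) * (1 + v q)) := by ring
            _ = (v p * (1 + v q)) * (v q * (1 + v p)) := by rw [k0, k1]
            _ = _ := by ring
        rcases tri_mem e p q r (γ + 1).val with h' | h' | h'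
        · rw [h'] at hprod
          apply hvq
          apply mul_left_cancel₀ (hv0 p)
          linear_combination -hprod
        · rw [h'] at hprod
          apply hvr
          apply mul_left_cancel₀ (hv0 q)
          linear_combination -hprod
        · exact hne h'.symm
      · have he : e = 3 := by omega
        subst he
        have hγ2 : γ.val = 2 := by
          have h6 := ZMod.val_lt γ
          unfold tri at h
          by_contra h7
          rw [if_neg (by omega)] at h
          split_ifs at h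
          · exact hpr h
          · exact hqr h
        rw [h] at k0
        have h' : tri 3 p r q γ.val = q := by
          rw [hγ2]; unfold tri
          rw [if_pos (by norm_num)]
        rw [h'] at k0'
        apply hvq
        linear_combination k0' - k0 + (v p * v r - v p * v q) * two

end Pool.Agent.H90.DE
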