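import Mathlib

/-!
# A D-type latin square of order `16` whose square is latin (MP_2f0703_co, helper90)

The rows are the translates over `Z_4 x Z_4` (`4 a + b` stands for `(a, b)`) of the permutation which fixes `0` and moves
the other elements along the cycle `1 2 4 3 6 13 12 5 9 14 8 10 7 15 11`.
-/

set_option autoImplicit false

namespace Pool.Agent.H90.DE

def s16add (i j : ℕ) : ℕ := ((i / 4 + j / 4) % 4) * 4 + (i % 4 + j % 4) % 4

def s16sub (i j : ℕ) : ℕ := ((i / 4 + 4 - j / 4) % 4) * 4 + (i % 4 + 4 - j % 4) % 4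

def s16f (y : ℕ) : ℕ := [0, 2, 4, 6, 3, 9, 13, 15, 10, 14, 7, 1, 5, 12, 8, 11].getD y 0

def s16g (y : ℕ) : ℕ := [0, 11, 1, 4, 2, 12, 3, 10, 14, 5, 8, 15, 13, 6, 9, 7].getD y 0

def s16p (y : ℕ) : ℕ := [0, 0, 1, 3, 2, 7, 4, 12, 10, 8, 11, 14, 6, 5, 9, 13].getD y 0

def s16R (i x : Fin 16) : Fin 16 := Fin.ofNat 16 (s16add i.val (s16f (s16sub x.val i.val)))

def s16S (i x : Fin 16) : Fin 16 := Fin.ofNat 16 (s16add i.val (s16g (s16sub x.val i.val)))

def s16k (i x y : Fin 16) : ℕ := (s16p (s16sub y.val i.val) + 15 - s16p (s16sub x.val i.val)) % 15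

theorem s16_left : ∀ i x : Fin 16, s16S i (s16R i x) = x := by decide +kernel

theorem s16_right : ∀ i x : Fin 16, s16R i (s16S i x) = x := by decide +kernel

def s16L (i : Fin 16) : Equiv.Perm (Fin 16) := ⟨s16R i, s16S i, s16_left i, s16_right i⟩

theorem s16_latin : ∀ j i i' : Fin 16, s16R i j = s16R i' j → i = i' := by decide +kernel

theorem s16_latin2 : ∀ j i i' : Fin 16, s16R i (s16R i j) = s16R i' (s16R i' j) → i = i' := by decide +kernel

theorem s16_fix : ∀ i : Fin 16, s16R i i = i := by decide +kernel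

theorem s16_fix' : ∀ i x : Fin 16, s16R i x = x → x = i := by decide +kernel

theorem s16_cycle : ∀ i x y : Fin 16, x ≠ i → y ≠ i → (s16R i)^[s16k i x y] x = y := by decide +kernel

theorem s16_pow (i : Fin 16) (k : ℕ) (x : Fin 16) : (s16L i ^ k) x = (s16R i)^[k] x := by
  induction k generalizing x with
  | zero => rfl
  | succ n ih =>
    rw [pow_succ, Equiv.Perm.mul_apply, ih, Function.iterate_succ_apply]
    rfl

theorem sixteen : ∃ L : Fin 16 → Equiv.Perm (Fin 16),
    (∀ j : Fin 16, Function.Injective (fun i => L i j)) ∧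
    (∀ i : Fin 16, (∃! x, L i x = x) ∧ ∀ x y, L i x ≠ x → L i y ≠ y → ∃ k : ℕ, ((L i) ^ k) x = y) ∧
    (¬ ∃ (G : Type) (_ : Group G) (r c s : Fin 16 ≃ G), ∀ i j, s (L i j) = r i * c j) ∧
    ∀ j : Fin 16, Function.Injective (fun i => (L i * L i) j) := by
  refine ⟨s16L, ?_, ?_, ?_, ?_⟩
  · intro j i i' h
    exact s16_latin j i i' h
  · intro i
    refine ⟨⟨i, s16_fix i, fun x hx => s16_fix' i x hx⟩, ?_⟩
    intro x y hx hy
    refine ⟨s16k i x y, ?_⟩
    rw [s16_pow]
    refine s16_cycle i x y ?_ ?_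
    · rintro rfl
      exact hx (s16_fix x)
    · rintro rfl
      exact hy (s16_fix y)
  · rintro ⟨G, _, r, c, s, H⟩
    have key : ∀ i1 i2 j1 j2 : Fin 16, s (s16L i2 j2) = s (s16L i2 j1) * (s (s16L i1 j1))⁻¹ * s (s16L i1 j2) := by
      intro i1 i2 j1 j2
      rw [H, H, H, H]
      group
    have h1 := key 1 0 0 1
    have h2 := key 0 3 10 11
    have e1 : s16L 1 0 = s16L 0 10 := by decide +kernel
    have e2 : s16L 1 1 = s16L 0 11 := by decide +kernel
    have e3 : s16L 0 0 = s16L 3 10 := by decide +kernel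
    have e4 : s16L 0 1 ≠ s16L 3 11 := by decide +kernel
    rw [e1, e2, e3] at h1
    exact e4 (s.injective (h1.trans h2.symm))
  · intro j i i' h
    exact s16_latin2 j i i' h

end Pool.Agent.H90.DE
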