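import Mathlib

/-!
# An explicit inequality for odd numbers (MP_2f0703_co, helper90)

`N / φ N = ∏_{p ∣ N} p / (p - 1)` (`Nat.totient_mul_prod_primeFactors`: `φ N * ∏ p = N * ∏ (p - 1)`), so the claim is
`∏_{p ∣ N} (2 p) ^ 4 ≤ 4096 * N * ∏_{p ∣ N} (p - 1) ^ 4`, and as `∏ p ≤ N` (`Nat.prod_primeFactors_dvd`) it suffices that
`∏_{p ∣ N} 16 p ^ 3 / (p - 1) ^ 4 ≤ 4096`; the factors for `p ≥ 23` are at most `1`, those for the odd primes below `23` are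
at least `1` with product `4044.4… < 4096`.
-/

set_option autoImplicit false

namespace Pool.Agent.H90.DE

private def SS : Finset ℕ := {3, 5, 7, 11, 13, 17, 19}

private lemma big {p : ℕ} (hp : p.Prime) (hodd : p ≠ 2) (hS : p ∉ SS) : 23 ≤ p := by
  by_contra h
  push Not at h
  have h2 := hp.two_le
  interval_cases p <;> first
    | exact hodd rfl
    | exact hS (by decide)
    | exact absurd hp (by decide)

private lemma le_big {p : ℕ} (hp : 23 ≤ p) : 16 * p ^ 3 ≤ (p - 1) ^ 4 := by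
  obtain ⟨k, rfl⟩ := Nat.exists_eq_add_of_le hp
  have e : 23 + k - 1 = 22 + k := by omega
  rw [e]
  have e1 : (22 + k) ^ 4 = 16 * (23 + k) ^ 3 + (k ^ 4 + 72 * k ^ 3 + 1800 * k ^ 2 + 17200 * k + 39584) := by
    ring
  rw [e1]
  exact Nat.le_add_right _ _

private lemma key (P : Finset ℕ) (hP : ∀ p ∈ P, p.Prime ∧ p ≠ 2) :
    ∏ p ∈ P, 16 * p ^ 3 ≤ 4096 * ∏ p ∈ P, (p - 1) ^ 4 := by
  classical
  set Q : Finset ℕ := P ∪ SS with hQ
  have hPQ : P ⊆ Q := Finset.subset_union_left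
  have hSQ : SS ⊆ Q := Finset.subset_union_right
  have h1 : ∏ p ∈ Q \ SS, 16 * p ^ 3 ≤ ∏ p ∈ Q \ SS, (p - 1) ^ 4 := by
    refine Finset.prod_le_prod' fun p hp => ?_
    rw [Finset.mem_sdiff, hQ, Finset.mem_union] at hp
    have hpP : p ∈ P := hp.1.resolve_right hp.2
    exact le_big (big (hP p hpP).1 (hP p hpP).2 hp.2)
  have h2 : ∏ p ∈ Q \ P, (p - 1) ^ 4 ≤ ∏ p ∈ Q \ P, 16 * p ^ 3 := by
    refine Finset.prod_le_prod' fun p hp => ?_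
    rw [Finset.mem_sdiff, hQ, Finset.mem_union] at hp
    have hpS : p ∈ SS := hp.1.resolve_left hp.2
    have h3 : ∀ p ∈ SS, (p - 1) ^ 4 ≤ 16 * p ^ 3 := by decide
    exact h3 p hpS
  have h3 : ∏ p ∈ SS, 16 * p ^ 3 ≤ 4096 * ∏ p ∈ SS, (p - 1) ^ 4 := by decide
  have e1 := Finset.prod_sdiff (f := fun p : ℕ => 16 * p ^ 3) hSQ
  have e2 := Finset.prod_sdiff (f := fun p : ℕ => (p - 1) ^ 4) hSQ
  have e3 := Finset.prod_sdiff (f := fun p : ℕ => 16 * p ^ 3) hPQ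
  have e4 := Finset.prod_sdiff (f := fun p : ℕ => (p - 1) ^ 4) hPQ
  have hQle : ∏ p ∈ Q, 16 * p ^ 3 ≤ 4096 * ∏ p ∈ Q, (p - 1) ^ 4 := by
    rw [← e1, ← e2]
    calc (∏ p ∈ Q \ SS, 16 * p ^ 3) * ∏ p ∈ SS, 16 * p ^ 3
        ≤ (∏ p ∈ Q \ SS, (p - 1) ^ 4) * (4096 * ∏ p ∈ SS, (p - 1) ^ 4) := Nat.mul_le_mul h1 h3
      _ = 4096 * ((∏ p ∈ Q \ SS, (p - 1) ^ 4) * ∏ p ∈ SS, (p - 1) ^ 4) := by ring
  have hpos : 0 < ∏ p ∈ Q \ P, (p - 1) ^ 4 := by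
    refine Finset.prod_pos fun p hp => ?_
    rw [Finset.mem_sdiff, hQ, Finset.mem_union] at hp
    have hpS : p ∈ SS := hp.1.resolve_left hp.2
    have h3 : ∀ p ∈ SS, 0 < (p - 1) ^ 4 := by decide
    exact h3 p hpS
  refine Nat.le_of_mul_le_mul_left ?_ hpos
  calc (∏ p ∈ Q \ P, (p - 1) ^ 4) * ∏ p ∈ P, 16 * p ^ 3
      ≤ (∏ p ∈ Q \ P, 16 * p ^ 3) * ∏ p ∈ P, 16 * p ^ 3 := Nat.mul_le_mul_right _ h2
    _ = ∏ p ∈ Q, 16 * p ^ 3 := e3
    _ ≤ 4096 * ∏ p ∈ Q, (p - 1) ^ 4 := hQle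
    _ = (∏ p ∈ Q \ P, (p - 1) ^ 4) * (4096 * ∏ p ∈ P, (p - 1) ^ 4) := by
      rw [← e4]
      ring

theorem omg2 (N : ℕ) (hN : N % 2 = 1) : (2 ^ N.primeFactors.card * N) ^ 4 ≤ 4096 * N * N.totient ^ 4 := by
  have hN0 : 0 < N := by omega
  have hP : ∀ p ∈ N.primeFactors, p.Prime ∧ p ≠ 2 := by
    intro p hp
    refine ⟨Nat.prime_of_mem_primeFactors hp, ?_⟩
    rintro rfl
    have := Nat.dvd_of_mem_primeFactors hp
    omega
  have hk := key N.primeFactors hP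
  have htot := Nat.totient_mul_prod_primeFactors N
  set A : ℕ := ∏ p ∈ N.primeFactors, p with hA
  set B : ℕ := ∏ p ∈ N.primeFactors, (p - 1) with hB
  have hApos : 0 < A := Finset.prod_pos fun p hp => (Nat.prime_of_mem_primeFactors hp).pos
  have hAN : A ≤ N := Nat.le_of_dvd hN0 (Nat.prod_primeFactors_dvd N)
  have e1 : ∏ p ∈ N.primeFactors, 16 * p ^ 3 = 16 ^ N.primeFactors.card * A ^ 3 := by
    rw [Finset.prod_mul_distrib, Finset.prod_const, Finset.prod_pow]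
  have e2 : ∏ p ∈ N.primeFactors, (p - 1) ^ 4 = B ^ 4 := by
    rw [Finset.prod_pow]
  rw [e1, e2] at hk
  have hA4 : 0 < A ^ 4 := Nat.pow_pos hApos
  refine Nat.le_of_mul_le_mul_right ?_ hA4
  have e3 : (2 ^ N.primeFactors.card * N) ^ 4 * A ^ 4 = N ^ 4 * A * (16 ^ N.primeFactors.card * A ^ 3) := by
    rw [show (16 : ℕ) = 2 ^ 4 by norm_num, ← pow_mul, mul_comm 4, pow_mul]
    ring
  have e4 : 4096 * N * N.totient ^ 4 * A ^ 4 = N ^ 4 * N * (4096 * B ^ 4) := by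
    have : 4096 * N * N.totient ^ 4 * A ^ 4 = 4096 * N * (N.totient * A) ^ 4 := by ring
    rw [this, htot]
    ring
  rw [e3, e4]
  exact Nat.mul_le_mul (Nat.mul_le_mul_left _ hAN) hk

end Pool.Agent.H90.DE
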