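import Pool.Agent.H90.DE.GWGrp
import Pool.Agent.H90.DE.DatC
import Pool.Agent.H90.DE.Cnt
import Pool.Agent.H90.DE.Main
import Pool.Agent.H90.DE.GWMain

/-!
# The squares with two multipliers (MP_2f0703_co, helper90)
-/

set_option autoImplicit false

namespace Pool.Agent.H90.DE

open Finset

theorem exponent_eq2 {k t e N : ℕ} (he : e * N = 2 ^ k - 1) (hee : e * e < 2 ^ k) (ht : t ≤ k) (hd : N ∣ 2 ^ t - 1) (ht1 : 1 ≤ t) :
    t = k := by
  by_contra hne
  have hk : N ∣ 2 ^ k - 1 := ⟨e, by rw [← he, mul_comm]⟩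
  have hg := Nat.dvd_gcd hd hk
  rw [Nat.pow_sub_one_gcd_pow_sub_one] at hg
  set g := Nat.gcd t k with hgdef
  have hg0 : 1 ≤ g := Nat.gcd_pos_of_pos_left _ (by omega)
  have hgt : g ≤ t := Nat.gcd_le_left _ (by omega)
  obtain ⟨r, hr⟩ : g ∣ k := Nat.gcd_dvd_right _ _
  have hr2 : 2 ≤ r := by
    by_contra hlt
    have h2 : r = 0 ∨ r = 1 := by omega
    rcases h2 with h2 | h2
    · rw [h2, mul_zero] at hr; omega
    · rw [h2, mul_one] at hr; omega
  have hG : 2 ≤ 2 ^ g := by
    calc 2 = 2 ^ 1 := by norm_num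
      _ ≤ 2 ^ g := Nat.pow_le_pow_right (by norm_num) hg0
  have hGG : 2 ^ g * 2 ^ g ≤ 2 ^ k := by
    rw [← pow_add]
    exact Nat.pow_le_pow_right (by norm_num) (by rw [hr]; nlinarith)
  have hN : N ≤ 2 ^ g - 1 := Nat.le_of_dvd (by omega) hg
  obtain ⟨G, hGe⟩ : ∃ G, 2 ^ g = G + 1 := ⟨2 ^ g - 1, by omega⟩
  obtain ⟨P, hPe⟩ : ∃ P, 2 ^ k = P + 1 := ⟨2 ^ k - 1, by have := Nat.one_le_two_pow (n := k); omega⟩
  rw [hGe] at hN hGG hG
  rw [hPe] at he hee hGG
  have h1 : G * G + 2 * G ≤ P := by nlinarith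
  have h2 : P ≤ e * G := by
    have : e * N ≤ e * G := Nat.mul_le_mul_left _ (by omega)
    omega
  have h3 : e * e ≤ P := by omega
  have h4 : P * P ≤ P * (G * G) := by
    calc P * P ≤ (e * G) * (e * G) := Nat.mul_le_mul h2 h2
      _ = (e * e) * (G * G) := by ring
      _ ≤ P * (G * G) := Nat.mul_le_mul_right _ h3
  have hP : 0 < P := by nlinarith
  have h5 := Nat.le_of_mul_le_mul_left h4 hP
  omega

section
variable {F : Type} [Field F] [Fintype F] [DecidableEq F] {a : F} {e : ℕ} [NeZero e] {c : F → ZMod e}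
  {b : ZMod e → F} {γ δ : ZMod e}

theorem GW.not_group2 (W : GW F a e c b γ δ) {k N : ℕ} (hk1 : 1 ≤ k)
    (hcard : Fintype.card F = 2 ^ k) (he : e * N = 2 ^ k - 1) (hee : e * e < 2 ^ k)
    (hnid : ¬ ∀ i : ZMod e, b (i + γ) * (1 + b i) = b i * (1 + b (i + 1)))
    (G : Type) [Group G] (r c' s : F ≃ G) (H : ∀ i j, s (i + f c b (j - i)) = r i * c' j) : False := by
  classical
  have hfin : Finite G := Finite.of_equiv F s
  have hcardG : Nat.card G = 2 ^ k := by
    rw [← Nat.card_congr s, Nat.card_eq_fintype_card, hcard]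
  set ψ : F → G := fun z => s z * (s 0)⁻¹ with hψ
  have hψinj : Function.Injective ψ := fun x y h => s.injective (mul_right_cancel h)
  have hψsurj : Function.Surjective ψ := by
    intro g
    refine ⟨s.symm (g * s 0), ?_⟩
    simp only [hψ]
    rw [Equiv.apply_symm_apply, mul_inv_cancel_right]
  have hψ0 : ψ 0 = 1 := mul_inv_cancel _
  have h00 : s 0 = r 0 * c' 0 := by
    have := H 0 0
    rw [sub_zero, f_zero, add_zero] at this
    exact this
  have star : ∀ i j, ψ (i + f c b (j - i)) = ψ (i + f c b (-i)) * ψ (f c b j) := by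
    intro i j
    have h1 := H i j
    have h2 := H i 0
    have h3 := H 0 j
    rw [zero_sub] at h2
    rw [zero_add, sub_zero] at h3
    simp only [hψ]
    rw [h1, h2, h3, h00]
    group
  -- surjectivity
  have hfsurj : Function.Surjective (f c b) := Finite.injective_iff_surjective.1 W.f_inj
  have hgsurj : Function.Surjective (fun i => f c b i + i) :=
    Finite.injective_iff_surjective.1 (fun x y h => W.diff_inj h)
  have hneg : ∀ i, i + f c b (-i) = f c b i + i := by
    intro i; rw [W.neg_eq, add_comm]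
  have hmul : ∀ d : F, d ≠ 0 → c d = 0 → ∀ z w v : F, ψ z * ψ w = ψ v →
      ψ (d * z) * ψ (d * w) = ψ (d * v) := by
    intro d hd hcd z w v hzw
    obtain ⟨i, hi⟩ := hgsurj z
    obtain ⟨j, hj⟩ := hfsurj w
    have hi' : i + f c b (-i) = z := by rw [hneg]; exact hi
    have h1 := star i j
    rw [hi', hj, hzw] at h1
    have h2 := hψinj h1
    have h3 := star (d * i) (d * j)
    have e1 : d * i + f c b (d * j - d * i) = d * v := by
      rw [← mul_sub, W.c_zero_mul hd hcd, ← h2]; ring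
    have e2 : d * i + f c b (-(d * i)) = d * z := by
      rw [← mul_neg, W.c_zero_mul hd hcd, ← hi']; ring
    have e3 : f c b (d * j) = d * w := by rw [W.c_zero_mul hd hcd, hj]
    rw [e1, e2, e3] at h3
    exact h3.symm
  -- the invariant subgroup
  set V := invCentre G with hV
  obtain ⟨g0, hg0, hg01⟩ := invCentre_nontrivial (G := G) (K := k) hk1 hcardG
  have hinv : ∀ d : F, d ≠ 0 → c d = 0 → ∀ x, ψ x ∈ V → ψ (d * x) ∈ V := by
    intro d hd hcd x hx
    rw [hV, mem_invCentre] at hx ⊢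
    refine ⟨fun h => ?_, ?_⟩
    · obtain ⟨y, hy⟩ := hψsurj h
      have hdy : d * (d⁻¹ * y) = y := mul_inv_cancel_left₀ hd y
      obtain ⟨v, hv⟩ := hψsurj (ψ x * ψ (d⁻¹ * y))
      have h1 := hmul d hd hcd x (d⁻¹ * y) v hv.symm
      have h2 := hmul d hd hcd (d⁻¹ * y) x v (by rw [hv, hx.1])
      rw [hdy] at h1 h2
      rw [← hy, h1, h2]
    · have h1 := hmul d hd hcd x x 0 (by rw [hψ0]; exact hx.2)
      rw [mul_zero, hψ0] at h1
      exact h1
  set S : Finset F := univ.filter fun x => x ≠ 0 ∧ ψ x ∈ V with hS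
  have hScl : ∀ x y : F, x ∈ S → y ≠ 0 → c y = c x → y ∈ S := by
    intro x y hx hy hc
    rw [hS, mem_filter] at hx ⊢
    obtain ⟨_, hx0, hxV⟩ := hx
    refine ⟨mem_univ _, hy, ?_⟩
    have hd : y / x ≠ 0 := div_ne_zero hy hx0
    have hyx : y / x * x = y := div_mul_cancel₀ y hx0
    have hcd : c (y / x) = 0 := by
      have h1 := W.c_mul hd hx0
      rw [hyx, hc] at h1
      exact left_eq_add.1 (h1.trans (add_comm _ _))
    have := hinv (y / x) hd hcd x hxV
    rwa [hyx] at this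
  have h0S : (0 : F) ∉ S := by
    rw [hS, mem_filter]
    exact fun h => h.2.1 rfl
  have hdvd := W.dvd_card S h0S hScl
  -- the size of `S`
  have hcardV : Nat.card V = S.card + 1 := by
    have h1 : Nat.card V = (univ.filter fun x : F => ψ x ∈ V).card := by
      rw [← Fintype.card_subtype, ← Nat.card_eq_fintype_card]
      apply Nat.card_congr
      exact (Equiv.subtypeEquiv (Equiv.ofBijective ψ ⟨hψinj, hψsurj⟩) (fun x => Iff.rfl)).symm
    rw [h1]
    have h2 : (univ.filter fun x : F => ψ x ∈ V) = insert 0 S := by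
      ext x
      rw [mem_insert, hS, mem_filter, mem_filter]
      constructor
      · rintro ⟨_, h⟩
        by_cases hx : x = 0
        · exact Or.inl hx
        · exact Or.inr ⟨mem_univ _, hx, h⟩
      · rintro (h | h)
        · refine ⟨mem_univ _, ?_⟩
          rw [h, hψ0]; exact V.one_mem
        · exact ⟨mem_univ _, h.2.2⟩
    rw [h2, Finset.card_insert_of_notMem h0S]
  obtain ⟨t, ht, htV⟩ : ∃ t ≤ k, Nat.card V = 2 ^ t := by
    have h1 := Subgroup.card_subgroup_dvd_card V
    rw [hcardG] at h1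
    obtain ⟨t, ht, h2⟩ := (Nat.dvd_prime_pow Nat.prime_two).1 h1
    exact ⟨t, ht, h2⟩
  have hSt : S.card = 2 ^ t - 1 := by omega
  have ht1 : 1 ≤ t := by
    by_contra h
    have ht0 : t = 0 := by omega
    rw [ht0, pow_zero] at htV
    have h3 : V = ⊥ := Subgroup.card_eq_one.1 htV
    have hg0' : g0 ∈ V := hg0
    rw [h3, Subgroup.mem_bot] at hg0'
    exact hg01 hg0'
  have hNdvd : N ∣ 2 ^ t - 1 := by
    rw [← hSt]
    refine Dvd.dvd.trans ?_ hdvd
    have h1 := W.card_fiber 0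
    rw [hcard, ← he] at h1
    have h2 : (univ.filter fun x : F => x ≠ 0 ∧ c x = 0).card * e = N * e := by rw [h1]; ring
    rw [Nat.eq_of_mul_eq_mul_right (NeZero.pos e) h2]
  have htop := exponent_eq2 he hee ht hNdvd ht1
  have hVtop : V = ⊤ := by
    apply Subgroup.eq_top_of_card_eq
    rw [htV, hcardG, htop]
  have hexp : ∀ g : G, g * g = 1 := by
    intro g
    have : g ∈ V := by rw [hVtop]; trivial
    exact this.2
  -- the identity
  apply hnid
  apply W.identity
  intro y _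
  have h1 := star (f c b y) (f c b y)
  rw [sub_self, f_zero, add_zero] at h1
  have h2 := star (f c b y) y
  have h3 : ψ (f c b y + f c b (y - f c b y)) = ψ (f c b (f c b y)) := by
    rw [h2, h1, ← mul_assoc, hexp, one_mul]
  have h4 := hψinj h3
  have e1 : y - f c b y = y + f c b y := by
    rw [sub_eq_add_neg, W.neg_eq]
  rw [e1] at h4
  have := W.two
  linear_combination h4 - (f c b y) * this

end


theorem Dat.c_mul {F : Type} [Field F] [Fintype F] {a : F} {e N : ℕ} {c : F → ZMod e} {θ : MulChar F ℂ}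
    (D : Dat F a e N c θ) {x y : F} (hx : x ≠ 0) (hy : y ≠ 0) : c (x * y) = c x + c y := by
  obtain ⟨n, rfl⟩ := D.ha x hx
  obtain ⟨k, rfl⟩ := D.ha y hy
  rw [← pow_add, D.hc, D.hc, D.hc, Nat.cast_add]

/-- the walk with two multipliers, from a pair -/
theorem Dat.gw {F : Type} [Field F] [Fintype F] {a : F} {e N : ℕ} [NeZero e] {c : F → ZMod e} {θ : MulChar F ℂ}
    (D : Dat F a e N c θ) (two : (2 : F) = 0) (he3 : 3 ≤ e) {γ : ZMod e} {x y : F} (hx : x ∈ setA c γ) (hy : y ∈ setA c γ)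
    (hxy : x ≠ y) (hc : c (x * y + 1) = 2 * γ) (hgen : ∀ S : ℕ, x ^ (e - 1) * y = a ^ S → Nat.Coprime (S / e) N) :
    ∃ (a : F) (c : F → ZMod e) (b : ZMod e → F) (γ δ : ZMod e) (E : ℕ), GW F a e c b γ δ ∧ ∏ i, b i = a ^ E ∧
      (∀ M : ℕ, e ∣ M → ∃ k : ℕ, (a ^ E) ^ k = a ^ M) ∧
      ¬ ∀ i : ZMod e, b (i + γ) * (1 + b i) = b i * (1 + b (i + 1)) := by
  classical
  rw [mem_setA] at hx hy
  obtain ⟨hx0, hxc, hx1, hxg⟩ := hx
  obtain ⟨hy0, hyc, hy1, hyg⟩ := hy
  have hcast : ∀ k : ℕ, 0 < k → k < e → ((k : ℕ) : ZMod e) ≠ 0 := by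
    intro k hk0 hke h
    rw [ZMod.natCast_eq_zero_iff] at h
    exact absurd (Nat.le_of_dvd hk0 h) (by omega)
  have h10 : (1 : ZMod e) ≠ 0 := by
    have := hcast 1 (by omega) (by omega)
    rwa [Nat.cast_one] at this
  have h20 : (1 : ZMod e) + 1 ≠ 0 := by
    have := hcast 2 (by omega) (by omega)
    rw [one_add_one_eq_two]
    exact_mod_cast this
  have hc1 : c (1 : F) = 0 := by
    have := D.hc 0
    rwa [pow_zero, Nat.cast_zero] at this
  set b : ZMod e → F := fun i => if i = 0 then y else x with hb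
  have hbc : ∀ i, b i = y ∨ b i = x := by
    intro i
    by_cases h : i = 0
    · left; simp only [hb]; rw [if_pos h]
    · right; simp only [hb]; rw [if_neg h]
  have hsq : ∀ z : F, z + 1 ≠ 0 → c (z + 1) = γ → c (z * z + 1) = 2 * γ := by
    intro z hz hzg
    have h1 : z * z + 1 = (z + 1) * (z + 1) := by linear_combination (-z) * two
    rw [h1, D.c_mul hz hz, hzg]; ring
  have hyx : c (y * x + 1) = 2 * γ := by rw [mul_comm y x]; exact hc
  have hb0 : ∀ i, b i ≠ 0 := by intro i; rcases hbc i with h | h <;> rw [h] <;> assumption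
  have hbcl : ∀ i, c (b i) = 1 := by intro i; rcases hbc i with h | h <;> rw [h] <;> assumption
  have W : GW F a e c b γ (2 * γ) :=
    { ha0 := D.ha0, hc := D.hc, ha := D.ha, two := two
      b_ne := hb0
      b_ne_one := by
        intro i h
        have h1 := hbcl i
        rw [h, hc1] at h1
        exact h10 h1.symm
      c_b := hbcl
      c_b_one := by intro i; rcases hbc i with h | h <;> rw [h] <;> assumption
      pair_ne_one := by
        intro i h
        have h1 := D.c_mul (hb0 i) (hb0 (i + 1))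
        rw [h, hc1, hbcl, hbcl] at h1
        exact h20 h1.symm
      c_pair := by
        intro i
        rcases hbc i with h | h <;> rcases hbc (i + 1) with h' | h' <;> rw [h, h']
        · exact hsq y hy1 hyg
        · exact hyx
        · exact hc
        · exact hsq x hx1 hxg }
  have hprod : ∏ i, b i = x ^ (e - 1) * y := by
    rw [← Finset.mul_prod_erase univ b (mem_univ 0), mul_comm]
    have h1 : b 0 = y := if_pos rfl
    rw [h1]
    congr 1
    rw [Finset.prod_congr rfl (g := fun _ => x) (fun i hi => by simp only [hb]; rw [if_neg (Finset.ne_of_mem_erase hi)]),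
      Finset.prod_const, Finset.card_erase_of_mem (mem_univ _), card_univ, ZMod.card]
  obtain ⟨E, hE⟩ := D.ha (x ^ (e - 1) * y) (mul_ne_zero (pow_ne_zero _ hx0) hy0)
  have hcop := hgen E hE
  have hcpow : ∀ n : ℕ, c (x ^ n) = n := by
    intro n
    induction n with
    | zero => rw [pow_zero, hc1, Nat.cast_zero]
    | succ n ih => rw [pow_succ, D.c_mul (pow_ne_zero _ hx0) hx0, ih, hxc, Nat.cast_succ]
  have heE : e ∣ E := by
    rw [← ZMod.natCast_eq_zero_iff, ← D.hc, ← hE, D.c_mul (pow_ne_zero _ hx0) hy0, hcpow, hyc]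
    have h1 : ((e - 1 : ℕ) : ZMod e) + 1 = ((e - 1 + 1 : ℕ) : ZMod e) := by push_cast; ring
    rw [h1, Nat.sub_add_cancel (by omega), ZMod.natCast_self]
  refine ⟨a, c, b, γ, 2 * γ, E, W, by rw [hprod, hE], ?_, ?_⟩
  · intro M hM
    obtain ⟨M', rfl⟩ := hM
    obtain ⟨E', rfl⟩ := heE
    rw [Nat.mul_div_cancel_left _ (by omega)] at hcop
    obtain ⟨k, hk0, hkM⟩ := Nat.chineseRemainder hcop 0 M'
    obtain ⟨l, rfl⟩ := (Nat.modEq_zero_iff_dvd).1 hk0
    refine ⟨l, ?_⟩
    rw [← pow_mul]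
    have haN : a ^ (e * N) = 1 := (D.ha1 _).2 (dvd_refl _)
    apply pow_eq_pow_of_modEq _ haN
    rw [mul_assoc]
    exact Nat.ModEq.mul_left' _ hkM
  · intro hid
    have h1 := hid (-1)
    rw [neg_add_cancel] at h1
    have h2 : b 0 = y := if_pos rfl
    have h3 : b (-1) = x := by simp only [hb]; rw [if_neg (by rw [neg_eq_zero]; exact h10)]
    rw [h2, h3] at h1
    rcases hbc (-1 + γ) with h | h
    · rw [h] at h1
      exact hxy (by linear_combination -h1)
    · rw [h] at h1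
      exact hxy (add_left_cancel (mul_left_cancel₀ hx0 h1))

/-- the walk with two multipliers -/
theorem exists_gw2 (F : Type) [Field F] [Fintype F] [CharP F 2] {e N : ℕ} [NeZero e] (he3 : 3 ≤ e) (hN : e * N = Fintype.card F - 1)
    (hbig : (e : ℝ) ^ 2 * (1 + 2 ^ N.primeFactors.card * Real.sqrt (2 * Fintype.card F)) < N.totient) :
    ∃ (a : F) (c : F → ZMod e) (b : ZMod e → F) (γ δ : ZMod e) (E : ℕ), GW F a e c b γ δ ∧ ∏ i, b i = a ^ E ∧
      (∀ M : ℕ, e ∣ M → ∃ k : ℕ, (a ^ E) ^ k = a ^ M) ∧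
      ¬ ∀ i : ZMod e, b (i + γ) * (1 + b i) = b i * (1 + b (i + 1)) := by
  have two : (2 : F) = 0 := by
    have := CharP.cast_eq_zero F 2
    exact_mod_cast this
  obtain ⟨a, c, θ, D⟩ := exists_dat F (e := e) (N := N) (by omega) hN
  obtain ⟨γ, x, y, hx, hy, hxy, hc, hgen⟩ := D.count two he3 hbig
  exact D.gw two he3 hx hy hxy hc hgen

end Pool.Agent.H90.DE
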